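import Mathlib
import Pool.Agent.H65.GI.Top
import Pool.Agent.H65.GI.Lll

/-!
GRNba: elementary facts about non-backtracking walks (`Nb` in `Pool/Agent/H65/GI/Defs.lean`).

All by induction on the `Nb` hypothesis (the last one). `nb_split`: induction on `m`. `nb_rev`: induction on the walk
`Nb G a b n y x`: for `step h1 h2 h3` (from `z y` to `y x`) the induction hypothesis is `Nb G y z n b a`; `nb_cons`
with the edge `x y` in front (`z ≠ x`). `nb_seq`: from `p` for the shorter walk take `Function.update`, or
`fun i => if i ≤ n + 1 then p i else x`. `nb_ofseq`: induction on `n` with `step`.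
-/

set_option autoImplicit false

namespace Pool.Agent.H64.GI

open Finset Classical
open Pool.Agent.H65.GI

theorem nb_adj {V : Type} {G : SimpleGraph V} {a b y x : V} {n : ℕ} (h : Nb G a b n y x) :
    G.Adj y x := by
  cases h with
  | base h => exact h
  | step _ h2 _ => exact h2

theorem nb_adj0 {V : Type} {G : SimpleGraph V} {a b y x : V} {n : ℕ} (h : Nb G a b n y x) :
    G.Adj a b := by
  induction h with
  | base h => exact h
  | step _ _ _ ih => exact ih

theorem nb_mono {V : Type} {H G : SimpleGraph V} (hm : ∀ u v, H.Adj u v → G.Adj u v)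
    {a b y x : V} {n : ℕ} (h : Nb H a b n y x) : Nb G a b n y x := by
  induction h with
  | base h => exact Nb.base (hm _ _ h)
  | step _ h2 h3 ih => exact Nb.step ih (hm _ _ h2) h3

theorem nb_bl {V : Type} [Fintype V] {G : SimpleGraph V} {a b y x : V} {n : ℕ}
    (h : Nb G a b n y x) : x ∈ bl G a (n + 1) := by
  induction h with
  | base h =>
    rw [bl, Finset.mem_filter]
    refine ⟨Finset.mem_univ _, Or.inr ⟨a, ?_, h⟩⟩
    rw [bl]
    exact Finset.mem_singleton_self _
  | step _ h2 _ ih =>
    rw [bl, Finset.mem_filter]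
    exact ⟨Finset.mem_univ _, Or.inr ⟨_, ih, h2⟩⟩

/-- a new first edge -/
theorem nb_cons {V : Type} {G : SimpleGraph V} {w v u y x : V} {n : ℕ} (hwv : G.Adj w v)
    (huw : u ≠ w) (h : Nb G v u n y x) : Nb G w v (n + 1) y x := by
  induction h with
  | base h => exact Nb.step (Nb.base hwv) h huw
  | step _ h2 h3 ih => exact Nb.step ih h2 h3

theorem nb_join {V : Type} {G : SimpleGraph V} {a b z t y x : V} {n m : ℕ} (h1 : Nb G a b n z t)
    (h2 : Nb G z t m y x) : Nb G a b (n + m) y x := by
  induction h2 with
  | base _ => exact h1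
  | step _ h2 h3 ih => exact Nb.step ih h2 h3

theorem nb_split {V : Type} {G : SimpleGraph V} {a b y x : V} (n m : ℕ)
    (h : Nb G a b (n + m) y x) : ∃ z t, Nb G a b n z t ∧ Nb G z t m y x := by
  induction m generalizing y x with
  | zero => exact ⟨y, x, h, Nb.base (nb_adj h)⟩
  | succ m ih =>
    cases h with
    | step h1 h2 h3 =>
      obtain ⟨z', t', h4, h5⟩ := ih h1
      exact ⟨z', t', h4, Nb.step h5 h2 h3⟩

/-- a walk that ends in `x`, and a walk that starts in `x` -/
theorem nb_app {V : Type} {G : SimpleGraph V} {a b y x c z t : V} {n m : ℕ} (h1 : Nb G a b n y x)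
    (hc : c ≠ y) (h2 : Nb G x c m z t) : Nb G a b (n + m + 1) z t := by
  induction h2 with
  | base h => exact Nb.step h1 h hc
  | step _ h2 h3 ih => exact Nb.step ih h2 h3

theorem nb_rev {V : Type} {G : SimpleGraph V} {a b y x : V} {n : ℕ} (h : Nb G a b n y x) :
    Nb G x y n b a := by
  induction h with
  | base h => exact Nb.base h.symm
  | step _ h2 h3 ih => exact nb_cons h2.symm h3.symm ih

theorem nb_seq {V : Type} {G : SimpleGraph V} {a b y x : V} {n : ℕ} (h : Nb G a b n y x) :
    ∃ p : ℕ → V, p 0 = a ∧ p 1 = b ∧ p n = y ∧ p (n + 1) = x ∧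
      (∀ i ≤ n, G.Adj (p i) (p (i + 1))) ∧ ∀ i < n, p (i + 2) ≠ p i := by
  induction h with
  | base h =>
    refine ⟨fun i => if i = 0 then a else b, rfl, rfl, rfl, rfl, ?_, ?_⟩
    · intro i hi
      obtain rfl : i = 0 := by omega
      exact h
    · intro i hi
      omega
  | @step n z y x h1 h2 h3 ih =>
    obtain ⟨p, hp0, hp1, hpn, hpn1, hp2, hp3⟩ := ih
    refine ⟨fun i => if i ≤ n + 1 then p i else x, ?_, ?_, ?_, ?_, ?_, ?_⟩
    · dsimp only
      rw [if_pos (by omega), hp0]
    · dsimp only
      rw [if_pos (by omega), hp1]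
    · dsimp only
      rw [if_pos (by omega), hpn1]
    · dsimp only
      rw [if_neg (by omega)]
    · intro i hi
      dsimp only
      rcases Nat.lt_or_ge n i with h | h
      · obtain rfl : i = n + 1 := by omega
        rw [if_pos (by omega), if_neg (by omega), hpn1]
        exact h2
      · rw [if_pos (by omega), if_pos (by omega)]
        exact hp2 i h
    · intro i hi
      dsimp only
      rcases Nat.lt_or_ge i n with h | h
      · rw [if_pos (by omega), if_pos (by omega)]
        exact hp3 i h
      · obtain rfl : i = n := by omega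
        rw [if_neg (by omega), if_pos (by omega), hpn]
        exact h3

theorem nb_ofseq {V : Type} {G : SimpleGraph V} (p : ℕ → V) (n : ℕ)
    (h1 : ∀ i ≤ n, G.Adj (p i) (p (i + 1))) (h2 : ∀ i < n, p (i + 2) ≠ p i) :
    Nb G (p 0) (p 1) n (p n) (p (n + 1)) := by
  induction n with
  | zero => exact Nb.base (h1 0 (Nat.zero_le _))
  | succ n ih =>
    exact Nb.step (ih (fun i hi => h1 i (by omega)) (fun i hi => h2 i (by omega)))
      (h1 (n + 1) (Nat.le_refl _)) (h2 n (Nat.lt_succ_self _))

end Pool.Agent.H64.GI
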