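import Mathlib
import Pool.Agent.H64.GI.Nba

/-!
GRCy: closed non-backtracking walks contain cycles, and cycles are closed non-backtracking walks. Use the STATEMENTS of `Nba.lean`.

`cy_le`: let `p` be the sequence of `nb_seq`, `p 0 = a = p (n + 1)`. Among the pairs `i < j ≤ n + 1` with `p i = p j` take one with
`j - i` minimal (`Nat.find`). `j ≠ i + 1` (adjacent), `j ≠ i + 2` (`p (i + 2) ≠ p i`), so `j ≥ i + 3`; the vertices `p (i + 1), ..., p j` are
different. Let `q : G.Walk (p (i + 1)) (p j)` be the walk along the sequence (construct by recursion: for a sequence `p` with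
`G.Adj (p (s + l)) (p (s + l + 1))` for `l < m` there is a walk from `p s` to `p (s + m)` of length `m` with
`support = List.map (fun l => p (s + l)) (List.range (m + 1))`, or with `getVert l = p (s + l)`); it is a path, and with the edge
`p i, p (i + 1)` in front it is a cycle (`SimpleGraph.Walk.cons_isCycle_iff`; the edge `s(p i, p (i + 1))` is not an edge
`s(p l, p (l + 1))`, `i < l < j`, of `q`: `p i = p j` is only the last vertex of `q`, and `p (i + 1)` only the first, and `q` has length `≥ 2`).
Its length is `j - i ≤ n + 1`; `SimpleGraph.egirth_le_length`.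
`cy_nb`: let `w` be the cycle, `p i = w.getVert i`, `n + 1 = w.length ≥ 3`; `nb_ofseq`: `p (i + 2) ≠ p i` since `w.tail` is a path (for
`i ≥ 1`), and for `i = 0`: `p 0 = a = p (n + 1) ≠ p 2` as `2 < n + 1` (`IsCycle.getVert_injOn`).
-/

set_option autoImplicit false

namespace Pool.Agent.H64.GI

open Finset Classical
open Pool.Agent.H65.GI

/-- the walk along a sequence -/
private theorem Rcy_walk {V : Type} {G : SimpleGraph V} (p : ℕ → V) (s m : ℕ)
    (h : ∀ l < m, G.Adj (p (s + l)) (p (s + l + 1))) :
    ∃ q : G.Walk (p s) (p (s + m)), q.length = m ∧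
      q.support = (List.range (m + 1)).map (fun l => p (s + l)) ∧
      q.edges = (List.range m).map (fun l => s(p (s + l), p (s + l + 1))) := by
  induction m with
  | zero => exact ⟨SimpleGraph.Walk.nil, rfl, by simp, by simp⟩
  | succ m ih =>
    obtain ⟨q, hq1, hq2, hq3⟩ := ih (fun l hl => h l (by omega))
    refine ⟨q.concat (h m (Nat.lt_succ_self _)), ?_, ?_, ?_⟩
    · rw [SimpleGraph.Walk.length_concat, hq1]
    · rw [SimpleGraph.Walk.support_concat, hq2, List.range_succ (n := m + 1), List.map_append]
      rfl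
    · rw [SimpleGraph.Walk.edges_concat, hq3, List.range_succ (n := m), List.map_append,
        List.concat_eq_append]
      rfl

theorem cy_le {V : Type} {G : SimpleGraph V} {a b y : V} {n : ℕ} (h : Nb G a b n y a) :
    G.egirth ≤ ((n + 1 : ℕ) : ℕ∞) := by
  obtain ⟨p, hp0, _, _, hpn1, hadj, hnb⟩ := nb_seq h
  have hex : ∃ d : ℕ, 1 ≤ d ∧ ∃ i, i + d ≤ n + 1 ∧ p i = p (i + d) :=
    ⟨n + 1, by omega, 0, by omega, by rw [Nat.zero_add, hp0, hpn1]⟩
  obtain ⟨hd1, i, hid, hpi⟩ := Nat.find_spec hex
  have hmin : ∀ e, 1 ≤ e → e < Nat.find hex → ∀ k, k + e ≤ n + 1 → p k ≠ p (k + e) := by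
    intro e he1 he2 k hk hpk
    exact Nat.find_min hex he2 ⟨he1, k, hk, hpk⟩
  generalize Nat.find hex = d at hd1 hid hpi hmin
  have hd3 : 3 ≤ d := by
    by_contra hlt
    rcases (by omega : d = 1 ∨ d = 2) with rfl | rfl
    · exact (hadj i (by omega)).ne hpi
    · exact hnb i (by omega) hpi.symm
  obtain ⟨e, rfl⟩ : ∃ e, d = e + 1 := ⟨d - 1, by omega⟩
  obtain ⟨q, hq1, hq2, hq3⟩ := Rcy_walk (G := G) p (i + 1) e
    (fun l hl => hadj (i + 1 + l) (by omega))
  have hend : p (i + 1 + e) = p i := by
    rw [hpi]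
    congr 1
    omega
  have hqp : q.IsPath := by
    rw [SimpleGraph.Walk.isPath_def, hq2]
    refine List.Nodup.map_on ?_ List.nodup_range
    have key : ∀ x y, x < y → y < e + 1 → p (i + 1 + x) ≠ p (i + 1 + y) := by
      intro x y hxy hy hp
      refine hmin (y - x) (by omega) (by omega) (i + 1 + x) (by omega) ?_
      rw [hp]
      congr 1
      omega
    intro x hx y hy hxy
    rw [List.mem_range] at hx hy
    rcases Nat.lt_trichotomy x y with h1 | h1 | h1
    · exact absurd hxy (key x y h1 hy)
    · exact h1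
    · exact absurd hxy.symm (key y x h1 hx)
  have hcyc : (SimpleGraph.Walk.cons (hadj i (by omega)) (q.copy rfl hend)).IsCycle := by
    rw [SimpleGraph.Walk.cons_isCycle_iff]
    refine ⟨?_, ?_⟩
    · rw [SimpleGraph.Walk.isPath_copy]
      exact hqp
    · rw [SimpleGraph.Walk.edges_copy, hq3, List.mem_map]
      rintro ⟨l, hl, hl2⟩
      rw [List.mem_range] at hl
      rw [Sym2.eq_iff] at hl2
      rcases hl2 with ⟨h1, _⟩ | ⟨h1, h2⟩
      · refine hmin (1 + l) (by omega) (by omega) i (by omega) ?_
        rw [← h1]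
        congr 1
        omega
      · rcases Nat.eq_zero_or_pos l with rfl | hl0
        · refine hmin 2 (by omega) (by omega) i (by omega) ?_
          rw [← h2]
        · refine hmin l (by omega) (by omega) (i + 1) (by omega) ?_
          exact h1.symm
  have hle := SimpleGraph.egirth_le_length hcyc
  rw [SimpleGraph.Walk.length_cons, SimpleGraph.Walk.length_copy, hq1] at hle
  exact hle.trans (by exact_mod_cast hid.trans' (by omega))

theorem cy_nb {V : Type} {G : SimpleGraph V} {a : V} (w : G.Walk a a) (hw : w.IsCycle) :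
    ∃ b y n, Nb G a b n y a ∧ n + 1 = w.length := by
  have h3 := hw.three_le_length
  obtain ⟨n, hn⟩ : ∃ n, w.length = n + 1 := ⟨w.length - 1, by omega⟩
  have hnb := nb_ofseq (G := G) w.getVert n (fun i hi => w.adj_getVert_succ (by omega)) ?_
  · rw [SimpleGraph.Walk.getVert_zero, ← hn, SimpleGraph.Walk.getVert_length] at hnb
    exact ⟨_, _, n, hnb, hn.symm⟩
  · intro i hi heq
    rcases Nat.eq_zero_or_pos i with rfl | hi0
    · have := hw.getVert_injOn (x₁ := 2) (x₂ := w.length) ⟨by omega, by omega⟩
        ⟨by omega, le_refl _⟩ (by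
          rw [SimpleGraph.Walk.getVert_length]
          rw [SimpleGraph.Walk.getVert_zero] at heq
          exact heq)
      omega
    · have := hw.getVert_injOn (x₁ := i + 2) (x₂ := i) ⟨by omega, by omega⟩
        ⟨by omega, by omega⟩ heq
      omega

end Pool.Agent.H64.GI
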