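import Mathlib

/-!
GRWd: finite sets with involutions for which short reduced words have no fixed points.

Let `X` be the set of the lists `l : List I` with `l.IsChain (· ≠ ·)` and `l.length ≤ L` (finite: `List.finite_length_le`). For `i : I` let
`S i : X → X`, `S i l = l.tail` if `l.head? = some i`; `S i l = i :: l` if `l.head? ≠ some i` and `l.length < L`; `S i l = l` otherwise. `S i` is
an involution (if `l = i :: t` then the head of `t` is not `i`). Let `Γ = Equiv.Perm X` and `s i σ = (permutation S i) * σ`
(`Function.Involutive.toPerm`). For a chain `l` of length at most `L`: `l.foldr s σ = P * σ` with `P = ∏ S l_j`, and `P [] = l` (induction on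
`l`; suffixes of chains are chains). So `P ≠ 1` if `l ≠ []`, and `P * σ ≠ σ`.
-/

set_option autoImplicit false

namespace Pool.Agent.H64.GI

open scoped Classical in
private noncomputable def Rwd_step {I : Type} (L : ℕ) (i : I) : List I → List I
  | [] => if 0 < L then [i] else []
  | j :: t => if j = i then t else if t.length + 1 < L then i :: j :: t else j :: t

open scoped Classical in
private theorem Rwd_nil {I : Type} (L : ℕ) (i : I) :
    Rwd_step L i [] = if 0 < L then [i] else [] := rfl

open scoped Classical in
private theorem Rwd_c {I : Type} (L : ℕ) (i j : I) (t : List I) :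
    Rwd_step L i (j :: t) = if j = i then t else if t.length + 1 < L then i :: j :: t else j :: t := rfl

private theorem Rwd_ok {I : Type} (L : ℕ) (i : I) (l : List I)
    (h : l.IsChain (· ≠ ·) ∧ l.length ≤ L) :
    (Rwd_step L i l).IsChain (· ≠ ·) ∧ (Rwd_step L i l).length ≤ L := by
  obtain ⟨h1, h2⟩ := h
  cases l with
  | nil =>
    rw [Rwd_nil]
    split_ifs with h3
    · exact ⟨List.isChain_singleton _, h3⟩
    · exact ⟨h1, h2⟩
  | cons j t =>
    rw [Rwd_c]
    rw [List.length_cons] at h2
    split_ifs with h3 h4
    · exact ⟨h1.tail, by omega⟩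
    · refine ⟨List.isChain_cons_cons.2 ⟨fun h => h3 h.symm, h1⟩, ?_⟩
      rw [List.length_cons, List.length_cons]
      omega
    · refine ⟨h1, ?_⟩
      rw [List.length_cons]
      exact h2

private theorem Rwd_inv {I : Type} (L : ℕ) (i : I) (l : List I)
    (h : l.IsChain (· ≠ ·) ∧ l.length ≤ L) : Rwd_step L i (Rwd_step L i l) = l := by
  obtain ⟨h1, h2⟩ := h
  cases l with
  | nil =>
    by_cases h3 : 0 < L
    · simp [Rwd_step, h3]
    · simp [Rwd_step, h3]
  | cons j t =>
    rw [List.length_cons] at h2
    by_cases h3 : j = i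
    · subst h3
      have e : Rwd_step L j (j :: t) = t := by simp [Rwd_step]
      rw [e]
      cases t with
      | nil =>
        have h4 : 0 < L := by omega
        simp [Rwd_step, h4]
      | cons k t' =>
        have h5 : k ≠ j := fun h => (List.isChain_cons_cons.1 h1).1 h.symm
        rw [List.length_cons] at h2
        have h6 : t'.length + 1 < L := by omega
        simp [Rwd_step, h5, h6]
    · by_cases h4 : t.length + 1 < L
      · simp [Rwd_step, h3, h4]
      · simp [Rwd_step, h3, h4]

private theorem Rwd_cons {I : Type} (L : ℕ) (i : I) (l : List I)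
    (h : (i :: l).IsChain (· ≠ ·)) (h2 : l.length < L) : Rwd_step L i l = i :: l := by
  cases l with
  | nil =>
    rw [List.length_nil] at h2
    simp [Rwd_step, h2]
  | cons k t =>
    have h5 : k ≠ i := fun h' => (List.isChain_cons_cons.1 h).1 h'.symm
    rw [List.length_cons] at h2
    simp [Rwd_step, h5, h2]

theorem words (I : Type) [Finite I] (L : ℕ) : ∃ (Γ : Type) (_ : Fintype Γ) (_ : Nonempty Γ)
    (s : I → Γ → Γ), (∀ i x, s i (s i x) = x) ∧
    ∀ l : List I, l.IsChain (· ≠ ·) → l ≠ [] → l.length ≤ L → ∀ x, l.foldr s x ≠ x := by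
  classical
  let X : Type := {l : List I // l.IsChain (· ≠ ·) ∧ l.length ≤ L}
  have hfin : Finite X := (List.finite_length_le I L).subset (fun l hl => hl.2)
  have hft : Fintype X := Fintype.ofFinite X
  let S : I → Equiv.Perm X := fun i =>
    Function.Involutive.toPerm (fun x : X => (⟨Rwd_step L i x.1, Rwd_ok L i x.1 x.2⟩ : X))
      (fun x => Subtype.ext (Rwd_inv L i x.1 x.2))
  have hS : ∀ i, S i * S i = 1 := by
    intro i
    ext x : 1
    exact Subtype.ext (Rwd_inv L i x.1 x.2)
  refine ⟨Equiv.Perm X, inferInstance, ⟨1⟩, fun i σ => S i * σ, ?_, ?_⟩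
  · intro i x
    change S i * (S i * x) = x
    rw [← mul_assoc, hS, one_mul]
  · intro l hl hne hlen x hx
    have h0 : ([] : List I).IsChain (· ≠ ·) ∧ ([] : List I).length ≤ L :=
      ⟨List.isChain_nil, Nat.zero_le L⟩
    have key : ∀ m : List I, ∀ hm : m.IsChain (· ≠ ·), ∀ hml : m.length ≤ L,
        ∃ P : Equiv.Perm X, (∀ σ : Equiv.Perm X, m.foldr (fun i σ => S i * σ) σ = P * σ) ∧
          (P ⟨[], h0⟩).1 = m := by
      intro m
      induction m with
      | nil =>
        intro hm hml
        exact ⟨1, fun σ => (one_mul σ).symm, rfl⟩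
      | cons i t ih =>
        intro hm hml
        rw [List.length_cons] at hml
        obtain ⟨P, hP1, hP2⟩ := ih hm.tail (by omega)
        refine ⟨S i * P, fun σ => ?_, ?_⟩
        · rw [List.foldr_cons, hP1, mul_assoc]
        · change Rwd_step L i (P ⟨[], h0⟩).1 = i :: t
          rw [hP2]
          exact Rwd_cons L i t hm (by omega)
    obtain ⟨P, hP1, hP2⟩ := key l hl hlen
    rw [hP1 x] at hx
    have h1 : P = 1 := mul_eq_right.1 hx
    rw [h1] at hP2
    exact hne hP2.symm

end Pool.Agent.H64.GI
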