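import Mathlib
import Pool.Agent.H64.GI.Rwd
import Pool.Agent.H65.GI.Top

/-!
GRGr: the graph on `V × Γ`. See `Rfn.lean`.

`gr_ex`: define the graph by the right side of `gr_ex`. Symmetric: if `q.2 = s (p.1, k) p.2` then `s (q.1, k) q.2 = p.2` (`p.1 = q.1`). Loopless:
`hs2` for the list `[(p.1, k)]`. Degree of `p = (v, x)`: the neighbours are the disjoint union of the `(u, x)`, `G.Adj v u` (there are `dG G v`
of them) and of the `(v, s (v, k) x)`, `k + dG G v < Δ` (there are `Δ - dG G v` such `k : Fin Δ`); disjoint since `s (v, k) x ≠ x` (or since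
`u ≠ v`); the map `k ↦ s (v, k) x` is injective: if `s i x = s j x`, `i ≠ j`, then `s i (s j x) = x`, contradiction to `hs2` for `[i, j]` (`2 ≤ L`).
-/

set_option autoImplicit false

namespace Pool.Agent.H64.GI

open Finset Classical
open Pool.Agent.H65.GI

/-- the degree -/
noncomputable def dG {V : Type} [Fintype V] (G : SimpleGraph V) (v : V) : ℕ :=
  (univ.filter (fun u => G.Adj v u)).card

/-- the edges of the new graph -/
def Lft {V Γ : Type} [Fintype V] (G : SimpleGraph V) (Δ : ℕ) (s : V × Fin Δ → Γ → Γ)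
    (G' : SimpleGraph (V × Γ)) : Prop :=
  ∀ p q, G'.Adj p q ↔ (G.Adj p.1 q.1 ∧ p.2 = q.2) ∨
    (p.1 = q.1 ∧ ∃ k : Fin Δ, k.1 + dG G p.1 < Δ ∧ q.2 = s (p.1, k) p.2)

private theorem Rgr_card (Δ d : ℕ) :
    (univ.filter (fun k : Fin Δ => k.1 + d < Δ)).card = Δ - d := by
  have h : (univ.filter (fun k : Fin Δ => k.1 + d < Δ)).map Fin.valEmbedding = range (Δ - d) := by
    ext j
    simp only [Finset.mem_map, Finset.mem_filter, Finset.mem_univ, true_and,
      Fin.valEmbedding_apply, Finset.mem_range]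
    constructor
    · rintro ⟨k, hk, rfl⟩
      omega
    · intro hj
      exact ⟨⟨j, by omega⟩, by simpa using (by omega : j + d < Δ), rfl⟩
  rw [← Finset.card_map Fin.valEmbedding, h, Finset.card_range]

theorem gr_ex {V Γ : Type} [Fintype V] [Fintype Γ] (G : SimpleGraph V) (Δ : ℕ)
    (hΔ : ∀ v, dG G v ≤ Δ) (s : V × Fin Δ → Γ → Γ) (hs1 : ∀ i x, s i (s i x) = x) (L : ℕ)
    (hL : 2 ≤ L) (hs2 : ∀ l : List (V × Fin Δ), l.IsChain (· ≠ ·) → l ≠ [] → l.length ≤ L →
      ∀ x, l.foldr s x ≠ x) :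
    ∃ G' : SimpleGraph (V × Γ), Lft G Δ s G' ∧ Reg G' Δ := by
  have h1 : ∀ i x, s i x ≠ x := by
    intro i x
    have := hs2 [i] (by simp) (by simp) (by simp; omega) x
    simpa using this
  have h2 : ∀ i j, i ≠ j → ∀ x, s i x ≠ s j x := by
    intro i j hij x h
    have h3 := hs2 [i, j] (by simp [hij]) (by simp) (by simp; omega) x
    apply h3
    simp only [List.foldr_cons, List.foldr_nil]
    rw [← h, hs1]
  refine ⟨{ Adj := fun p q => (G.Adj p.1 q.1 ∧ p.2 = q.2) ∨
      (p.1 = q.1 ∧ ∃ k : Fin Δ, k.1 + dG G p.1 < Δ ∧ q.2 = s (p.1, k) p.2)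
            symm := ?_
            loopless := ?_ }, fun p q => Iff.rfl, ?_⟩
  · refine ⟨?_⟩
    rintro p q (⟨h3, h4⟩ | ⟨h3, k, h4, h5⟩)
    · exact Or.inl ⟨h3.symm, h4.symm⟩
    · refine Or.inr ⟨h3.symm, k, ?_, ?_⟩
      · rw [← h3]; exact h4
      · rw [h5, ← h3, hs1]
  · refine ⟨?_⟩
    rintro p (⟨h3, -⟩ | ⟨-, k, -, h5⟩)
    · exact G.loopless.irrefl _ h3
    · exact h1 _ _ h5.symm
  · rintro ⟨v, x⟩
    have hset : (univ.filter (fun q : V × Γ => (G.Adj v q.1 ∧ x = q.2) ∨
        (v = q.1 ∧ ∃ k : Fin Δ, k.1 + dG G v < Δ ∧ q.2 = s (v, k) x))) =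
        ((univ.filter (fun u => G.Adj v u)).image (fun u => (u, x))) ∪
        ((univ.filter (fun k : Fin Δ => k.1 + dG G v < Δ)).image
          (fun k => (v, s (v, k) x))) := by
      ext ⟨u, y⟩
      simp only [Finset.mem_filter, Finset.mem_univ, true_and, Finset.mem_union,
        Finset.mem_image, Prod.mk.injEq]
      constructor
      · rintro (⟨h3, rfl⟩ | ⟨rfl, k, h4, rfl⟩)
        · exact Or.inl ⟨u, h3, rfl, rfl⟩
        · exact Or.inr ⟨k, h4, rfl, rfl⟩
      · rintro (⟨u', h3, rfl, rfl⟩ | ⟨k, h4, rfl, rfl⟩)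
        · exact Or.inl ⟨h3, rfl⟩
        · exact Or.inr ⟨rfl, k, h4, rfl⟩
    have hdis : Disjoint ((univ.filter (fun u => G.Adj v u)).image (fun u => (u, x)))
        ((univ.filter (fun k : Fin Δ => k.1 + dG G v < Δ)).image
          (fun k => (v, s (v, k) x))) := by
      rw [Finset.disjoint_left]
      intro q hq1 hq2
      obtain ⟨u, hu, rfl⟩ := Finset.mem_image.1 hq1
      obtain ⟨k, hk, hk2⟩ := Finset.mem_image.1 hq2
      rw [Prod.mk.injEq] at hk2
      exact h1 _ _ hk2.2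
    have hc : ((univ.filter (fun q : V × Γ => (G.Adj v q.1 ∧ x = q.2) ∨
        (v = q.1 ∧ ∃ k : Fin Δ, k.1 + dG G v < Δ ∧ q.2 = s (v, k) x)))).card = Δ := by
      rw [hset, Finset.card_union_of_disjoint hdis,
        Finset.card_image_of_injective _ (fun a b hab => (Prod.mk.injEq _ _ _ _ ▸ hab).1),
        Finset.card_image_of_injOn, Rgr_card]
      · have h6 : (univ.filter (fun u => G.Adj v u)).card = dG G v := rfl
        rw [h6]
        have := hΔ v
        omega
      · intro a _ b _ hab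
        simp only [Prod.mk.injEq, true_and] at hab
        by_contra hne
        exact h2 (v, a) (v, b) (fun h => hne (by simpa using h)) x hab
    convert hc

end Pool.Agent.H64.GI
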