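import Mathlib
import Pool.Agent.H64.GI.Rgr
import Pool.Agent.H64.GI.Rcy

/-!
GRGi: the girth of the graph on `V × Γ`. Use the STATEMENTS of `Rcy.lean`, `Nba.lean`.

`gi_inv`: induction on the walk. State: a reduced word `l` (the last letter in front) with `p.2 = l.foldr s a.2`, and either (A) the last step
was vertical: `l = i :: l'`, `i.1 = p.1`, `y = (p.1, l'.foldr s a.2)`, or (B) it was horizontal, and the horizontal steps since the last
letter form a walk `Nb G u c m y.1 p.1`, `m ≤ n`, from `u = ` (vertex of the last letter; `a.1` if there is none), with `y.2 = p.2`.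
Step from `p` to `q ≠ y`. Horizontal step `q = (v', p.2)`: from (A) the new walk is `Nb.base`, from (B) a step: `v' ≠ y.1` since `q ≠ y`.
Vertical step with the letter `j = (p.1, k)`, `q = (p.1, s j p.2)`: new word `j :: l`; it is reduced: suppose `l = i :: l'`, `j = i`. In
case (A): `q = (p.1, s i (s i (l'.foldr s a.2))) = y`, contradiction. In case (B): the walk `Nb G i.1 c m y.1 p.1` is closed
(`i.1 = j.1 = p.1`), so `egirth ≤ m + 1 < g` (`cy_le`), contradiction. Base case: a horizontal or a vertical edge.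
`gi_main`: `SimpleGraph.le_egirth`; a cycle of length `< g` gives (`cy_nb`) `Nb G' a b n y a` with `n + 1 < g`; by `gi_inv` with `p = a`: if `l ≠ []` then
`l.foldr s a.2 = a.2` contradicts `hs2` (`l.length ≤ n + 1 ≤ L`); if `l = []` then (A) is impossible and (B) is a closed walk
`Nb G a.1 c m y.1 a.1`, contradiction to `cy_le`.
-/

set_option autoImplicit false

namespace Pool.Agent.H64.GI

open Finset Classical
open Pool.Agent.H65.GI

theorem gi_inv {V Γ : Type} [Fintype V] (G : SimpleGraph V) (Δ g : ℕ)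
    (hg : (g : ℕ∞) ≤ G.egirth) (s : V × Fin Δ → Γ → Γ) (hs1 : ∀ i x, s i (s i x) = x)
    (G' : SimpleGraph (V × Γ)) (hG' : Lft G Δ s G') {a b y p : V × Γ} {n : ℕ}
    (h : Nb G' a b n y p) (hn : n + 1 < g) :
    ∃ l : List (V × Fin Δ), l.IsChain (· ≠ ·) ∧ l.length ≤ n + 1 ∧ p.2 = l.foldr s a.2 ∧
      ((∃ i l', l = i :: l' ∧ i.1 = p.1 ∧ y = (p.1, l'.foldr s a.2)) ∨
       ∃ c m, m ≤ n ∧ Nb G ((l.head?.map Prod.fst).getD a.1) c m y.1 p.1 ∧ y.2 = p.2) := by
  induction h with
  | base hadj =>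
    rcases (hG' _ _).1 hadj with ⟨h1, h2⟩ | ⟨h1, k, -, h2⟩
    · exact ⟨[], List.IsChain.nil, by simp, h2.symm, Or.inr ⟨b.1, 0, le_refl _, Nb.base h1, h2⟩⟩
    · refine ⟨[(a.1, k)], List.IsChain.singleton _, by simp, h2, Or.inl ⟨(a.1, k), [], rfl, h1, ?_⟩⟩
      exact Prod.ext h1 rfl
  | @step n z y x h0 hadj hne ih =>
    obtain ⟨l, hc, hl, h2, h3⟩ := ih (by omega)
    rcases (hG' _ _).1 hadj with ⟨e1, e2⟩ | ⟨e1, k, -, e2⟩
    · refine ⟨l, hc, by omega, by rw [← e2]; exact h2, Or.inr ?_⟩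
      rcases h3 with ⟨i, l', rfl, h4, h5⟩ | ⟨c, m, hm, h4, h5⟩
      · refine ⟨x.1, 0, Nat.zero_le _, ?_, e2⟩
        have h6 : (((i :: l').head?.map Prod.fst).getD a.1) = y.1 := h4
        rw [h6]
        exact Nb.base e1
      · refine ⟨c, m + 1, by omega, Nb.step h4 e1 ?_, e2⟩
        intro h6
        exact hne (Prod.ext h6 (by rw [← e2, h5]))
    · refine ⟨(y.1, k) :: l, ?_, by simp only [List.length_cons]; omega, ?_,
        Or.inl ⟨(y.1, k), l, rfl, e1, Prod.ext e1 h2⟩⟩
      · cases l with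
        | nil => exact List.IsChain.singleton _
        | cons i l' =>
          refine List.isChain_cons_cons.2 ⟨?_, hc⟩
          intro hij
          rcases h3 with ⟨i0, l0, hl0, h4, h5⟩ | ⟨c, m, hm, h4, h5⟩
          · rw [List.cons.injEq] at hl0
            obtain ⟨rfl, rfl⟩ := hl0
            apply hne
            rw [h5]
            refine Prod.ext e1.symm ?_
            change x.2 = List.foldr s a.2 l'
            rw [e2, hij, h2, List.foldr_cons, hs1]
          · have h6 : (((i :: l').head?.map Prod.fst).getD a.1) = y.1 := by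
              change i.1 = y.1
              rw [← hij]
            rw [h6] at h4
            have h7 := hg.trans (cy_le h4)
            have h8 : g ≤ m + 1 := by exact_mod_cast h7
            omega
      · rw [e2, List.foldr_cons, h2]

theorem gi_main {V Γ : Type} [Fintype V] (G : SimpleGraph V) (Δ g : ℕ)
    (hg : (g : ℕ∞) ≤ G.egirth) (s : V × Fin Δ → Γ → Γ) (hs1 : ∀ i x, s i (s i x) = x) (L : ℕ)
    (hL : g ≤ L) (hs2 : ∀ l : List (V × Fin Δ), l.IsChain (· ≠ ·) → l ≠ [] → l.length ≤ L →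
      ∀ x, l.foldr s x ≠ x)
    (G' : SimpleGraph (V × Γ)) (hG' : Lft G Δ s G') : (g : ℕ∞) ≤ G'.egirth := by
  rw [SimpleGraph.le_egirth]
  intro a w hw
  by_contra hlt
  rw [not_le] at hlt
  have hlt' : w.length < g := by exact_mod_cast hlt
  obtain ⟨b, y, n, h1, h2⟩ := cy_nb w hw
  obtain ⟨l, hc, hl, h3, h4⟩ := gi_inv G Δ g hg s hs1 G' hG' h1 (by omega)
  cases l with
  | cons i l' => exact hs2 (i :: l') hc (List.cons_ne_nil _ _) (by omega) a.2 h3.symm
  | nil =>
    rcases h4 with ⟨i, l', h5, -, -⟩ | ⟨c, m, hm, h5, -⟩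
    · cases h5
    · have h6 : Nb G a.1 c m y.1 a.1 := h5
      have h7 := hg.trans (cy_le h6)
      have h8 : g ≤ m + 1 := by exact_mod_cast h7
      omega

end Pool.Agent.H64.GI
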