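import Mathlib
import Pool.Agent.H64.GI.Rcy

/-!
GRTl: `Top.TlOfGirth`. Use the STATEMENTS of `Nba.lean` and `Rcy.lean` (`cy_le`).

`ne`: `Nb G a b n y a` with `n + 1 < 2 k` gives `egirth ≤ n + 1 < 2 k + 1`, contradiction.
`uniq`: induction on `n + n'` (or on `n`, generalizing the rest). Case `y = y'`: if `n = n' = 0` then `y = a`, `x = b = b'`. If `n = 0 < n'`:
`y = a`, and the second walk is a step from a walk `Nb G a b' (n' - 1) z a` (as `y' = y = a`), closed: contradiction to `cy_le`.
Symmetric for `n' = 0 < n`. If both are positive, strip the last steps: walks of length `n - 1`, `n' - 1` that end in `y = y'`; induction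
hypothesis. Case `y ≠ y'`: `nb_rev` of the second walk is `Nb G x y' n' b' a`; `nb_app` gives `Nb G a b (n + n' + 1) b' a`, so
`egirth ≤ n + n' + 2 ≤ 2 k`, contradiction.
-/

set_option autoImplicit false

namespace Pool.Agent.H64.GI

open Finset Classical
open Pool.Agent.H65.GI

private theorem Rtl_zero {V : Type} {G : SimpleGraph V} {a b y x : V} (h : Nb G a b 0 y x) :
    y = a ∧ x = b := by
  cases h
  exact ⟨rfl, rfl⟩

private theorem Rtl_succ {V : Type} {G : SimpleGraph V} {a b y x : V} {n : ℕ}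
    (h : Nb G a b (n + 1) y x) : ∃ z, Nb G a b n z y := by
  cases h with
  | step h1 h2 h3 => exact ⟨_, h1⟩

private theorem Rtl_no {V : Type} {G : SimpleGraph V} {k : ℕ}
    (hg : ((2 * k + 1 : ℕ) : ℕ∞) ≤ G.egirth) {a b y : V} {n : ℕ} (hn : n + 1 ≤ 2 * k)
    (h : Nb G a b n y a) : False := by
  have h1 := le_trans hg (cy_le h)
  have h2 : 2 * k + 1 ≤ n + 1 := by exact_mod_cast h1
  omega

private theorem Rtl_uniq {V : Type} {G : SimpleGraph V} {k : ℕ}
    (hg : ((2 * k + 1 : ℕ) : ℕ∞) ≤ G.egirth) (a : V) : ∀ (n : ℕ) (b b' : V) (n' : ℕ)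
    (y y' x : V), n < k → n' < k → Nb G a b n y x → Nb G a b' n' y' x →
    n = n' ∧ b = b' ∧ y = y' := by
  intro n
  induction n with
  | zero =>
    intro b b' n' y y' x hn hn' h1 h2
    by_cases hy : y = y'
    · subst hy
      obtain ⟨e1, e2⟩ := Rtl_zero h1
      cases n' with
      | zero =>
        obtain ⟨e3, e4⟩ := Rtl_zero h2
        exact ⟨rfl, e2.symm.trans e4, rfl⟩
      | succ m =>
        obtain ⟨z, hz⟩ := Rtl_succ h2
        rw [e1] at hz
        exact absurd hz (fun hz => Rtl_no hg (by omega) hz)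
    · exact absurd (nb_app h1 (fun e => hy e.symm) (nb_rev h2))
        (fun hz => Rtl_no hg (by omega) hz)
  | succ m ih =>
    intro b b' n' y y' x hn hn' h1 h2
    by_cases hy : y = y'
    · subst hy
      obtain ⟨z, hz⟩ := Rtl_succ h1
      cases n' with
      | zero =>
        obtain ⟨e3, e4⟩ := Rtl_zero h2
        rw [e3] at hz
        exact absurd hz (fun hz => Rtl_no hg (by omega) hz)
      | succ m' =>
        obtain ⟨z', hz'⟩ := Rtl_succ h2
        obtain ⟨e1, e2, e3⟩ := ih b b' m' z z' y (by omega) (by omega) hz hz'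
        exact ⟨by rw [e1], e2, rfl⟩
    · exact absurd (nb_app h1 (fun e => hy e.symm) (nb_rev h2))
        (fun hz => Rtl_no hg (by omega) hz)

theorem tl_main : Top.TlOfGirth := by
  intro V _ G k hg
  refine ⟨?_, ?_⟩
  · intro a b n y x hn h hx
    rw [hx] at h
    exact Rtl_no hg (by omega) h
  · intro a b b' n n' y y' x hn hn' h1 h2
    exact Rtl_uniq hg a n b b' n' y y' x hn hn' h1 h2

end Pool.Agent.H64.GI
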