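import Mathlib
import Pool.Agent.H65.GI.Exq
import Pool.Agent.H65.GI.Cnd

/-!
GABm: the mean of `1 / (1 + N)` for a binomial variable `N`.

`bin_dist`: induction on `A` (generalizing `g`): for `a ∉ A`, with `F ω = A.filter (ω x ≠ b)`,
`g ((insert a A).filter _) = 1[ω a ≠ b] g (insert a (F ω)) + 1[ω a = b] g (F ω)`; `ex_add`, `ex_mul` (sets `{a}`, `A`),
`ex 1[ω a ≠ b] = ex 1[ω a = b] = 1 / 2` (each is the mean of a function of one coordinate; e.g. the bijection
`ω ↦ update ω a (!ω a)` shows that both are equal, and their sum is `1`; or `ex` of a function of one coordinate by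
counting), the induction hypothesis for `g ∘ insert a` and `g`, and `Finset.sum_powerset_insert`.
`bin_mean`: `bin_dist` with `g S = 1 / (1 + #S)`, `Finset.sum_powerset_apply_card`, and with `n = #A`:
`(n + 1) ∑_{j ≤ n} C(n, j) / (j + 1) = ∑_{j ≤ n} C(n + 1, j + 1) = 2^(n + 1) - 1` (`Nat.succ_mul_choose_eq`,
`Nat.sum_range_choose`).
-/

set_option autoImplicit false

namespace Pool.Agent.H64.GI

open Finset Classical
open Pool.Agent.H65.GI

private theorem Abm_half {V : Type} [Fintype V] (a : V) (b : Bool) :
    ex (fun ω : V → Bool => if ω a ≠ b then (1 : ℝ) else 0) = 1 / 2 ∧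
    ex (fun ω : V → Bool => if ω a = b then (1 : ℝ) else 0) = 1 / 2 := by
  have h1 : ex (fun ω : V → Bool => if ω a ≠ b then (1 : ℝ) else 0) =
      ex (fun ω : V → Bool => if ω a = b then (1 : ℝ) else 0) := by
    have hinv : Function.Involutive (fun ω : V → Bool => Function.update ω a (!ω a)) := by
      intro ω
      funext x
      by_cases hx : x = a
      · subst hx
        simp
      · simp [Function.update_of_ne hx]
    unfold ex
    congr 1
    refine Fintype.sum_equiv (Function.Involutive.toPerm _ hinv) _ _ ?_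
    intro ω
    have h2 : (Function.Involutive.toPerm _ hinv) ω a = !ω a := by
      show Function.update ω a (!ω a) a = !ω a
      simp
    rw [h2]
    cases hω : ω a <;> cases b <;> simp
  have h3 : ex (fun ω : V → Bool => if ω a ≠ b then (1 : ℝ) else 0) +
      ex (fun ω : V → Bool => if ω a = b then (1 : ℝ) else 0) = 1 := by
    rw [← ex_add]
    refine Eq.trans ?_ (ex_const (Ω := V → Bool) (1 : ℝ))
    congr 1
    funext ω
    by_cases h : ω a = b
    · simp [h]
    · simp [h]
  constructor <;> linarith

private theorem Abm_loc {V α : Type} [Fintype V] (A : Finset V) (b : Bool) (g : Finset V → α) :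
    Loc (fun ω : V → Bool => g (A.filter (fun x => ω x ≠ b))) A := by
  intro ω ω' h
  have h1 : A.filter (fun x => ω x ≠ b) = A.filter (fun x => ω' x ≠ b) := by
    refine Finset.filter_congr fun x hx => ?_
    rw [h x hx]
  show g (A.filter (fun x => ω x ≠ b)) = g (A.filter (fun x => ω' x ≠ b))
  rw [h1]

theorem bin_dist {V : Type} [Fintype V] (A : Finset V) (b : Bool) (g : Finset V → ℝ) :
    ex (fun ω : V → Bool => g (A.filter (fun x => ω x ≠ b))) =
      (∑ S ∈ A.powerset, g S) / 2 ^ A.card := by
  induction A using Finset.induction_on generalizing g with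
  | empty =>
    simp only [Finset.filter_empty, Finset.powerset_empty, Finset.sum_singleton,
      Finset.card_empty, pow_zero, div_one]
    exact ex_const (Ω := V → Bool) (g ∅)
  | insert a A ha ih =>
    have hl1 : Loc (fun ω : V → Bool => if ω a ≠ b then (1 : ℝ) else 0) ({a} : Finset V) := by
      intro ω ω' h
      simp only [h a (Finset.mem_singleton_self a)]
    have hl2 : Loc (fun ω : V → Bool => if ω a = b then (1 : ℝ) else 0) ({a} : Finset V) := by
      intro ω ω' h
      simp only [h a (Finset.mem_singleton_self a)]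
    have hd : Disjoint ({a} : Finset V) A := Finset.disjoint_singleton_left.2 ha
    have h1 : (fun ω : V → Bool => g ((insert a A).filter (fun x => ω x ≠ b))) =
        fun ω => (if ω a ≠ b then (1 : ℝ) else 0) * g (insert a (A.filter (fun x => ω x ≠ b))) +
          (if ω a = b then (1 : ℝ) else 0) * g (A.filter (fun x => ω x ≠ b)) := by
      funext ω
      rw [Finset.filter_insert]
      by_cases h : ω a = b
      · simp [h]
      · simp [h]
    rw [h1, ex_add (fun ω : V → Bool => (if ω a ≠ b then (1 : ℝ) else 0) *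
        g (insert a (A.filter (fun x => ω x ≠ b))))
      (fun ω : V → Bool => (if ω a = b then (1 : ℝ) else 0) * g (A.filter (fun x => ω x ≠ b))),
      ex_mul _ _ ({a} : Finset V) A hl1 (Abm_loc A b (fun S => g (insert a S))) hd,
      ex_mul _ _ ({a} : Finset V) A hl2 (Abm_loc A b g) hd,
      (Abm_half a b).1, (Abm_half a b).2, ih (fun S => g (insert a S)), ih g,
      Finset.sum_powerset_insert ha, Finset.card_insert_of_notMem ha, pow_succ]
    field_simp
    ring

theorem bin_mean {V : Type} [Fintype V] (A : Finset V) (b : Bool) :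
    ex (fun ω : V → Bool => 1 / (1 + ((A.filter (fun x => ω x ≠ b)).card : ℝ))) =
      2 * (1 - (1 / 2) ^ (A.card + 1)) / (A.card + 1) := by
  rw [bin_dist A b (fun S => 1 / (1 + (S.card : ℝ))),
    Finset.sum_powerset_apply_card (fun j => 1 / (1 + (j : ℝ)))]
  obtain ⟨n, hn⟩ : ∃ n, n = A.card := ⟨_, rfl⟩
  rw [← hn]
  have h1 : ((n : ℝ) + 1) * ∑ j ∈ range (n + 1), n.choose j • (1 / (1 + (j : ℝ))) =
      2 ^ (n + 1) - 1 := by
    have h2 : ∀ j ∈ range (n + 1), ((n : ℝ) + 1) * (n.choose j • (1 / (1 + (j : ℝ)))) =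
        ((n + 1).choose (j + 1) : ℝ) := by
      intro j _
      have h3 : ((n + 1 : ℕ) : ℝ) * (n.choose j : ℝ) =
          ((n + 1).choose (j + 1) : ℝ) * ((j + 1 : ℕ) : ℝ) := by
        exact_mod_cast Nat.add_one_mul_choose_eq n j
      push_cast at h3
      rw [nsmul_eq_mul, mul_one_div, ← mul_div_assoc, h3]
      have h4 : (1 : ℝ) + j ≠ 0 := by positivity
      rw [add_comm (j : ℝ) 1, mul_div_assoc, div_self h4, mul_one]
    rw [Finset.mul_sum, Finset.sum_congr rfl h2]
    have h5 : ∑ j ∈ range (n + 2), (((n + 1).choose j : ℕ) : ℝ) = 2 ^ (n + 1) := by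
      have := Nat.sum_range_choose (n + 1)
      exact_mod_cast this
    rw [Finset.sum_range_succ'] at h5
    simp only [Nat.choose_zero_right, Nat.cast_one] at h5
    linarith
  have hn1 : (n : ℝ) + 1 ≠ 0 := by positivity
  have h6 : ∑ j ∈ range (n + 1), n.choose j • (1 / (1 + (j : ℝ))) =
      (2 ^ (n + 1) - 1) / ((n : ℝ) + 1) := by
    rw [eq_div_iff hn1, mul_comm]
    exact h1
  rw [h6]
  have h7 : (2 : ℝ) ^ n ≠ 0 := by positivity
  rw [one_div, inv_pow, pow_succ]
  field_simp

end Pool.Agent.H64.GI
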