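import Mathlib
import Pool.Agent.H65.GI.Top
import Pool.Agent.H65.GI.Exq
import Pool.Agent.H65.GI.Cnd
import Pool.Agent.H65.GI.Hof
import Pool.Agent.H65.GI.Chf
import Pool.Agent.H65.GI.Lll

/-!
MP_b8729f, project GI, block A (the exact base), definitions. Plan: `Pool/Agent/H64/GI/Afn.lean`.
-/

set_option autoImplicit false

namespace Pool.Agent.H64.GI

open Finset Classical
open Pool.Agent.H65.GI

noncomputable section

/-- the sign of a side -/
def sg (b : Bool) : ℝ := if b then 1 else -1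

/-- the neighbours of `v` on the other side -/
def op {V : Type} [Fintype V] (G : SimpleGraph V) (ω : V → Bool) (v : V) : Finset V :=
  univ.filter (fun u => G.Adj v u ∧ ω u ≠ ω v)

/-- the neighbours of `v` on the other side, without `w` -/
def ow {V : Type} [Fintype V] (G : SimpleGraph V) (ω : V → Bool) (v w : V) : Finset V :=
  univ.filter (fun u => G.Adj v u ∧ u ≠ w ∧ ω u ≠ ω v)

/-- `Z_0(v, w) = (ε_v / 2) (Δ / (1 + #ow) - 2)`, and `Z_(i+1)(v, w)` is the average of `Z_i(u, v)` over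
`u ∈ ow` (`0` if `ow` is empty). -/
def Zf {V : Type} [Fintype V] (G : SimpleGraph V) (Δ : ℕ) (ω : V → Bool) : ℕ → V → V → ℝ
  | 0, v, w => sg (ω v) / 2 * (Δ / (1 + ((ow G ω v w).card : ℝ)) - 2)
  | i + 1, v, w => (∑ u ∈ ow G ω v w, Zf G Δ ω i u v) / ((ow G ω v w).card : ℝ)

/-- the correction of the weight of the edge `v w` -/
def Xf {V : Type} [Fintype V] (G : SimpleGraph V) (Δ : ℕ) (ω : V → Bool) (k : ℕ) (v w : V) : ℝ :=
  sg (ω v) * ∑ i ∈ range (k + 1), (Zf G Δ ω i v w - Zf G Δ ω i w v)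

/-- the bipartite graph of the edges across the two sides -/
def Hg {V : Type} (G : SimpleGraph V) (side : V → Bool) : SimpleGraph V where
  Adj u v := G.Adj u v ∧ side u ≠ side v
  symm := ⟨fun _ _ h => ⟨h.1.symm, fun e => h.2 e.symm⟩⟩
  loopless := ⟨fun _ h => h.2 rfl⟩

/-- `2 exp (-Δ^(1/25) / 288)` -/
def EE (Δ : ℕ) : ℝ := 2 * Real.exp (-((Δ : ℝ) ^ (1 / 25 : ℝ) / 288))

/-- `Δ^(-(12/25) (i + 1))` -/
def BB (Δ : ℕ) (i : ℕ) : ℝ := (Δ : ℝ) ^ (-(12 / 25 : ℝ) * (i + 1))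

/-- points with coin `0` -/
def z0 {V : Type} {m : ℕ} (ω : V → Fin (m + 1)) (x : V) : Prop := ω x = 0

/-- the points of `D`: coin `0`, and no other point within distance `2` has coin `0` -/
def Dd {V : Type} [Fintype V] {m : ℕ} (G : SimpleGraph V) (ω : V → Fin (m + 1)) : Finset V :=
  univ.filter (fun x => ω x = 0 ∧ ∀ y ∈ bl G x 2, y ≠ x → ω y ≠ 0)

/-- the result of the signs: weights `1 + x` on the edges across, all sums `Δ / 2` up to `T` -/
structure IsSg {V : Type} [Fintype V] (G : SimpleGraph V) (Δ : ℕ) (side : V → Bool)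
    (x : V → V → ℝ) (T : V → ℝ) : Prop where
  sy : ∀ v w, x v w = x w v
  sm : ∀ v w, |x v w| ≤ 1 / 4
  dg : ∀ v, (Δ : ℝ) / 3 ≤ (op G side v).card
  su : ∀ v, ∑ w ∈ op G side v, (1 + x v w) = Δ / 2 + T v
  ti : ∀ v, (Δ : ℝ) ^ 14 * |T v| ≤ 1 / 1000

/-- the sparse set and the walks to it -/
structure IsDd {V : Type} [Fintype V] (G : SimpleGraph V) (K : ℕ) (side : V → Bool)
    (D : Finset V) : Prop where
  few : ∀ v, ((bl G v 11).filter (fun x => x ∈ D)).card ≤ K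
  sep : ∀ u ∈ D, ∀ v ∈ D, u ≠ v → ¬ G.Adj u v ∧ ∀ z, ¬ (G.Adj u z ∧ G.Adj z v)
  w13 : ∀ u, ∃ p : ℕ → V, p 0 = u ∧ p 13 ∈ D ∧ ∀ i < 13, (Hg G side).Adj (p i) (p (i + 1))
  w14 : ∀ u, ∃ p : ℕ → V, p 0 = u ∧ p 14 ∈ D ∧ ∀ i < 14, (Hg G side).Adj (p i) (p (i + 1))

end

end Pool.Agent.H64.GI
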