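import Mathlib
import Pool.Agent.H64.GI.Adf
import Pool.Agent.H64.GI.Nba

/-!
GACn: cones in graphs that look like trees (`TL G 33`). Use the STATEMENTS of `Nba.lean` and `Lll.lean` (`bl_*`).

`cone G a b k` consists of the last vertices `x` of the walks `Nb G a b n y x`, `n < k`. `cone_ne`: `TL.ne`
(`n + 1 ≤ 33 < 66`). `cone_dis`: `TL.uniq` for two walks from `a`. `cone_adj`: compare with `Nb.base : Nb G a x 0 a x`.
`nb_uniq`: join the walks (`nb_join`); induction on `m`: `uniq` gives `n + m = n + m'` and `y = y'`; for `m = 0` (then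
`Nb G z t 0 y x` gives `z = y`, `t = x`) done; otherwise both last walks are steps, from walks of length `m - 1` that end
in `y` (with last edges `y1 y` and `y1' y`): use the induction hypothesis for them. `cone_dis2` follows.
`cone_nbr`: `Nb G a b n y x`, `1 ≤ n`, `G.Adj x t`: if `t ≠ y` then `Nb G a b (n + 1) x t`; if `t = y` then the shorter
walk ends in `y`: `∃ z, Nb G a b (n - 1) z y`. `cone_bl2`: use `cone_nbr` twice; all the walks have between `0` and `4` steps.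
-/

set_option autoImplicit false

namespace Pool.Agent.H64.GI

open Finset Classical
open Pool.Agent.H65.GI

variable {V : Type} [Fintype V] {G : SimpleGraph V}

theorem cone_self {a b : V} (h : G.Adj a b) {k : ℕ} (hk : 1 ≤ k) : b ∈ cone G a b k := by
  exact mem_filter.2 ⟨mem_univ _, 0, by omega, a, Nb.base h⟩

theorem cone_mono {a b : V} {k l : ℕ} (h : k ≤ l) : cone G a b k ⊆ cone G a b l := by
  intro x hx
  obtain ⟨_, n, hn, y, hy⟩ := mem_filter.1 hx
  exact mem_filter.2 ⟨mem_univ _, n, by omega, y, hy⟩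

theorem cone_bl {a b : V} {k : ℕ} : cone G a b k ⊆ bl G a k := by
  intro x hx
  obtain ⟨_, n, hn, y, hy⟩ := mem_filter.1 hx
  exact bl_mono G a (by omega) (nb_bl hy)

private theorem Acn_bl {a b y x : V} {n : ℕ} (h : Nb G a b n y x) : x ∈ bl G b n := by
  induction h with
  | base _ => exact bl_self G b 0
  | step _ h2 _ ih => exact bl_adj G ih h2

theorem cone_bl1 {a b : V} {k : ℕ} : cone G a b (k + 1) ⊆ bl G b k := by
  intro x hx
  obtain ⟨_, n, hn, y, hy⟩ := mem_filter.1 hx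
  exact bl_mono G b (by omega) (Acn_bl hy)

theorem cone_sub {w v u : V} (h : G.Adj w v) (hu : u ≠ w) {k : ℕ} :
    cone G v u k ⊆ cone G w v (k + 1) := by
  intro x hx
  obtain ⟨_, n, hn, y, hy⟩ := mem_filter.1 hx
  exact mem_filter.2 ⟨mem_univ _, n + 1, by omega, y, nb_cons h hu hy⟩

theorem cone_ne (ht : TL G 33) {a b : V} {k : ℕ} (hk : k ≤ 33) : a ∉ cone G a b k := by
  intro hx
  obtain ⟨_, n, hn, y, hy⟩ := mem_filter.1 hx
  exact ht.ne a b n y a (by omega) hy rfl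

theorem cone_dis (ht : TL G 33) {a b b' : V} {k : ℕ} (hk : k ≤ 33) (h : b ≠ b') :
    Disjoint (cone G a b k) (cone G a b' k) := by
  rw [disjoint_left]
  intro x hx hx'
  obtain ⟨_, n, hn, y, hy⟩ := mem_filter.1 hx
  obtain ⟨_, n', hn', y', hy'⟩ := mem_filter.1 hx'
  exact h (ht.uniq a b b' n n' y y' x (by omega) (by omega) hy hy').2.1

theorem cone_adj (ht : TL G 33) {a b x : V} {k : ℕ} (hk : k ≤ 33) (hx : x ∈ cone G a b k)
    (h : G.Adj a x) : x = b := by
  obtain ⟨_, n, hn, y, hy⟩ := mem_filter.1 hx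
  exact (ht.uniq a b x n 0 y a x (by omega) (by omega) hy (Nb.base h)).2.1.symm

private theorem Acn_uniq (ht : TL G 33) {a b b' z t z' t' : V} {n : ℕ}
    (h1 : Nb G a b n z t) (h1' : Nb G a b' n z' t') (m : ℕ) :
    ∀ y x : V, n + m < 33 → Nb G z t m y x → Nb G z' t' m y x → z = z' ∧ t = t' := by
  induction m with
  | zero =>
    intro y x _ h2 h2'
    cases h2
    cases h2'
    exact ⟨rfl, rfl⟩
  | succ m ih =>
    intro y x hn h2 h2'
    rcases h2 with _ | ⟨h3, h4, h5⟩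
    rcases h2' with _ | ⟨h3', h4', h5'⟩
    have h6 := (ht.uniq a b b' (n + m) (n + m) _ _ y (by omega) (by omega) (nb_join h1 h3)
      (nb_join h1' h3')).2.2
    subst h6
    exact ih _ y (by omega) h3 h3'

theorem nb_uniq (ht : TL G 33) {a b b' z t z' t' y y' x : V} {n m m' : ℕ}
    (h1 : Nb G a b n z t) (h1' : Nb G a b' n z' t') (h2 : Nb G z t m y x)
    (h2' : Nb G z' t' m' y' x) (hn : n + m < 33) (hn' : n + m' < 33) :
    z = z' ∧ t = t' ∧ m = m' := by
  obtain ⟨h3, _, h4⟩ := ht.uniq a b b' (n + m) (n + m') y y' x hn hn' (nb_join h1 h2)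
    (nb_join h1' h2')
  have h5 : m = m' := by omega
  subst h5
  subst h4
  obtain ⟨h6, h7⟩ := Acn_uniq ht h1 h1' m y x hn h2 h2'
  exact ⟨h6, h7, rfl⟩

theorem cone_dis2 (ht : TL G 33) {a b b' z t z' t' : V} {n k : ℕ}
    (h1 : Nb G a b n z t) (h1' : Nb G a b' n z' t') (hne : t ≠ t') (hn : n + k ≤ 33) :
    Disjoint (cone G z t k) (cone G z' t' k) := by
  rw [disjoint_left]
  intro x hx hx'
  obtain ⟨_, m, hm, y, hy⟩ := mem_filter.1 hx
  obtain ⟨_, m', hm', y', hy'⟩ := mem_filter.1 hx'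
  exact hne (nb_uniq ht h1 h1' hy hy' (by omega) (by omega)).2.1

theorem cone_nbr {a b y x t : V} {n : ℕ} (h : Nb G a b n y x) (hn : 1 ≤ n) (hx : G.Adj x t) :
    ∃ k z, (k = n + 1 ∨ k + 1 = n) ∧ Nb G a b k z t := by
  by_cases hty : t = y
  · subst hty
    cases h with
    | base _ => omega
    | step h1 h2 h3 => exact ⟨_, _, Or.inr rfl, h1⟩
  · exact ⟨n + 1, x, Or.inl rfl, Nb.step h hx hty⟩

private theorem Acn_bl1 {a b y x : V} (h : Nb G a b 2 y x) {w : V} (hw : w ∈ bl G x 1) :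
    ∃ k z, 1 ≤ k ∧ k ≤ 3 ∧ Nb G a b k z w := by
  obtain ⟨_, h0⟩ := mem_filter.1 hw
  rcases h0 with h0 | ⟨u, hu, hv⟩
  · have h1 : w = x := mem_singleton.1 h0
    rw [h1]
    exact ⟨2, y, by omega, by omega, h⟩
  · have h1 : u = x := mem_singleton.1 hu
    rw [h1] at hv
    obtain ⟨k, z, hk, hz⟩ := cone_nbr h (by omega) hv
    exact ⟨k, z, by omega, by omega, hz⟩

theorem cone_bl2 {a b y x : V} (h : Nb G a b 2 y x) : bl G x 2 ⊆ cone G a b 5 := by
  intro w hw
  obtain ⟨_, hw⟩ := mem_filter.1 hw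
  rcases hw with hw | ⟨u, hu, hw⟩
  · obtain ⟨k, z, h1, h2, h3⟩ := Acn_bl1 h hw
    exact mem_filter.2 ⟨mem_univ _, k, by omega, z, h3⟩
  · obtain ⟨k, z, h1, h2, h3⟩ := Acn_bl1 h hu
    obtain ⟨l, z', hl, hz⟩ := cone_nbr h3 h1 hw
    exact mem_filter.2 ⟨mem_univ _, l, by omega, z', hz⟩

end Pool.Agent.H64.GI
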