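import Mathlib
import Pool.Agent.H65.GI.Exq
import Pool.Agent.H65.GI.Cnd

/-!
GAGp: probabilities for the coins `ω : V → Fin (m + 1)`, `p = 1 / (m + 1)`.

`co_one`: `pr (ω x = 0) = 1 / (m + 1)`: count; e.g. the `m + 1` events `ω x = j` have the same probability (bijection
`ω ↦ update ω x (swap 0 j (ω x))`) and sum `1`; or: `ex` of a function of one coordinate.
`one_pr`: the events `B x := ω x = 0 ∧ ∀ y ∈ C, y ≠ x → ω y ≠ 0`, `x ∈ X`, exclude each other (`X ⊆ C`), so
`1[∃ x ∈ X, B x] ≥ ∑_{x ∈ X} 1[B x]` (in fact equal), `pr (∃ x ∈ X, B x) ≥ ∑_{x ∈ X} pr (B x)` (`ex_ind`, `ex_sum`, `ex_mono`), and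
`pr (B x) = p (1 - p)^(#C - 1) ≥ p (1 - #C p)` by `pr_forall` (the events `ω x = 0`, `ω y ≠ 0` for `y ∈ C`, with `S y = {y}`),
`pr_not` and Bernoulli (`one_add_mul_le_pow`; for `#C p > 1` the left side is negative and nothing is to be shown).
-/

set_option autoImplicit false

namespace Pool.Agent.H64.GI

open Finset Classical
open Pool.Agent.H65.GI

theorem co_one {V : Type} [Fintype V] (m : ℕ) (x : V) :
    pr (fun ω : V → Fin (m + 1) => ω x = 0) = 1 / ((m : ℝ) + 1) := by
  obtain ⟨A, hA⟩ : ∃ A : Fin (m + 1) → (V → Fin (m + 1)) → Prop, ∀ j ω, A j ω ↔ ω x = j :=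
    ⟨fun j ω => ω x = j, fun _ _ => Iff.rfl⟩
  have e : (fun ω : V → Fin (m + 1) => ω x = 0) = A 0 := by
    funext ω
    exact propext (hA 0 ω).symm
  rw [e]
  have hj : ∀ j, (univ.filter (A j)).card = (univ.filter (A 0)).card := by
    intro j
    refine Finset.card_bij (fun ω _ => fun v => Equiv.swap 0 j (ω v)) ?_ ?_ ?_
    · intro ω h
      rw [Finset.mem_filter, hA] at h ⊢
      refine ⟨Finset.mem_univ _, ?_⟩
      show Equiv.swap 0 j (ω x) = 0
      rw [h.2, Equiv.swap_apply_right]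
    · intro ω _ ω' _ h
      funext v
      exact (Equiv.swap 0 j).injective (congrFun h v)
    · intro ω h
      rw [Finset.mem_filter, hA] at h
      refine ⟨fun v => Equiv.swap 0 j (ω v), ?_, ?_⟩
      · rw [Finset.mem_filter, hA]
        refine ⟨Finset.mem_univ _, ?_⟩
        show Equiv.swap 0 j (ω x) = j
        rw [h.2, Equiv.swap_apply_left]
      · funext v
        show Equiv.swap 0 j (Equiv.swap 0 j (ω v)) = ω v
        rw [Equiv.swap_apply_self]
  have h1 : (univ : Finset (V → Fin (m + 1))).card =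
      ∑ j : Fin (m + 1), (univ.filter (fun ω : V → Fin (m + 1) => ω x = j)).card :=
    Finset.card_eq_sum_card_fiberwise fun _ _ => Finset.mem_univ _
  have h5 : ∀ j : Fin (m + 1), (univ.filter (fun ω : V → Fin (m + 1) => ω x = j)).card =
      (univ.filter (A 0)).card := by
    intro j
    rw [← hj j]
    exact congrArg Finset.card (Finset.filter_congr fun ω _ => (hA j ω).symm)
  rw [Finset.sum_congr rfl (fun j _ => h5 j), Finset.sum_const, Finset.card_univ,
    Finset.card_univ, Fintype.card_fin, smul_eq_mul] at h1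
  unfold pr
  have h2 : (Fintype.card (V → Fin (m + 1)) : ℝ) =
      ((m : ℝ) + 1) * ((univ.filter (A 0)).card : ℝ) := by
    exact_mod_cast h1
  have h3 : (Fintype.card (V → Fin (m + 1)) : ℝ) ≠ 0 := by
    have : 0 < Fintype.card (V → Fin (m + 1)) := Fintype.card_pos
    exact_mod_cast this.ne'
  rw [div_eq_div_iff h3 (by positivity), h2]
  ring

private theorem Agp_loc {V : Type} {m : ℕ} (x y : V) :
    Loc (fun ω : V → Fin (m + 1) => if y = x then ω y = 0 else ω y ≠ 0) {y} := by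
  intro ω ω' h
  simp only [h y (Finset.mem_singleton_self y)]

private theorem Agp_B {V : Type} [Fintype V] (m : ℕ) (C : Finset V) (x : V) (hx : x ∈ C) :
    1 / ((m : ℝ) + 1) * (1 - C.card / ((m : ℝ) + 1)) ≤
      pr (fun ω : V → Fin (m + 1) => ω x = 0 ∧ ∀ y ∈ C, y ≠ x → ω y ≠ 0) := by
  have h0 : (fun ω : V → Fin (m + 1) => ω x = 0 ∧ ∀ y ∈ C, y ≠ x → ω y ≠ 0) =
      (fun ω : V → Fin (m + 1) => ∀ y ∈ C, if y = x then ω y = 0 else ω y ≠ 0) := by
    funext ω
    apply propext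
    constructor
    · rintro ⟨h1, h2⟩ y hy
      by_cases hyx : y = x
      · rw [if_pos hyx, hyx]
        exact h1
      · rw [if_neg hyx]
        exact h2 y hy hyx
    · intro h
      refine ⟨?_, fun y hy hyx => ?_⟩
      · have h1 := h x hx
        rw [if_pos rfl] at h1
        exact h1
      · have h1 := h y hy
        rw [if_neg hyx] at h1
        exact h1
  rw [h0, pr_forall C (fun y (ω : V → Fin (m + 1)) => if y = x then ω y = 0 else ω y ≠ 0)
    (fun y => {y}) (fun y _ => Agp_loc x y)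
    (fun y _ y' _ h => Finset.disjoint_singleton.2 h), ← Finset.mul_prod_erase C _ hx]
  have h1 : pr (fun ω : V → Fin (m + 1) => if x = x then ω x = 0 else ω x ≠ 0) =
      1 / ((m : ℝ) + 1) := by
    simp only [if_true]
    exact co_one m x
  have h2 : ∀ y ∈ C.erase x, pr (fun ω : V → Fin (m + 1) => if y = x then ω y = 0 else ω y ≠ 0) =
      1 - 1 / ((m : ℝ) + 1) := by
    intro y hy
    have hyx := Finset.ne_of_mem_erase hy
    simp only [if_neg hyx]
    rw [← co_one m y]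
    exact pr_not (fun ω : V → Fin (m + 1) => ω y = 0)
  rw [h1, Finset.prod_congr rfl h2, Finset.prod_const]
  have hp0 : (0 : ℝ) < 1 / ((m : ℝ) + 1) := by positivity
  have hp1 : 1 / ((m : ℝ) + 1) ≤ 1 := by
    rw [div_le_one (by positivity)]
    have : (0 : ℝ) ≤ m := Nat.cast_nonneg _
    linarith
  refine mul_le_mul_of_nonneg_left ?_ hp0.le
  have h3 := one_add_mul_le_pow (show (-2 : ℝ) ≤ -(1 / ((m : ℝ) + 1)) by linarith)
    (C.erase x).card
  have h4 : ((C.erase x).card : ℝ) ≤ C.card := by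
    exact_mod_cast Finset.card_le_card (Finset.erase_subset x C)
  have h5 := mul_le_mul_of_nonneg_right h4 hp0.le
  have h6 : (C.card : ℝ) / ((m : ℝ) + 1) = C.card * (1 / ((m : ℝ) + 1)) := by ring
  rw [← sub_eq_add_neg] at h3
  rw [h6]
  linarith

theorem one_pr {V : Type} [Fintype V] (m : ℕ) (C X : Finset V) (hX : X ⊆ C) :
    (X.card : ℝ) / ((m : ℝ) + 1) * (1 - C.card / ((m : ℝ) + 1)) ≤
      pr (fun ω : V → Fin (m + 1) => ∃ x ∈ X, ω x = 0 ∧ ∀ y ∈ C, y ≠ x → ω y ≠ 0) := by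
  have h1 : ∑ x ∈ X, pr (fun ω : V → Fin (m + 1) => ω x = 0 ∧ ∀ y ∈ C, y ≠ x → ω y ≠ 0) ≤
      pr (fun ω : V → Fin (m + 1) => ∃ x ∈ X, ω x = 0 ∧ ∀ y ∈ C, y ≠ x → ω y ≠ 0) := by
    rw [ex_ind]
    simp only [ex_ind (fun ω : V → Fin (m + 1) => ω _ = 0 ∧ _)]
    rw [← ex_sum]
    apply ex_mono
    intro ω
    by_cases h : ∃ x ∈ X, ω x = 0 ∧ ∀ y ∈ C, y ≠ x → ω y ≠ 0
    · rw [if_pos h]
      obtain ⟨x, hx, h2, h3⟩ := h
      rw [Finset.sum_eq_single_of_mem x hx]
      · split_ifs <;> norm_num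
      · intro y hy hyx
        rw [if_neg]
        rintro ⟨h4, -⟩
        exact h3 y (hX hy) hyx h4
    · rw [if_neg h, Finset.sum_eq_zero]
      intro x hx
      rw [if_neg]
      intro h2
      exact h ⟨x, hx, h2⟩
  refine le_trans ?_ h1
  have h2 := Finset.sum_le_sum (fun x hx => Agp_B m C x (hX hx))
  rw [Finset.sum_const, nsmul_eq_mul] at h2
  refine le_trans (le_of_eq ?_) h2
  ring

end Pool.Agent.H64.GI
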