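import Mathlib
import Pool.Agent.H64.GI.Acn

/-!
GAWk: counting non-backtracking walks in the bipartite graph `Hg G side`. Use the STATEMENTS of `Nba.lean`, `Acn.lean`.

`wk_two`: the pairs `(z, x)` with `H.Adj g z`, `z ≠ y`, `H.Adj z x`, `x ≠ g` (at least `m * m`, as all degrees in `H = Hg G side` are
`≥ m + 1`; note that `(op G side v)` is the `H`-neighbourhood of `v`): the map `(z, x) ↦ x` is injective by `TL.uniq` for the
walks `Nb G g z 1 z x` from `g`. So the sets of the `x` for the different `z` are disjoint (`card_biUnion`).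
`wk_cnt`: induction on `n`; `S n = {x | ∃ b y, Nb H a b n y x}`. `S 0` contains the `H`-neighbours of `a`. For `x ∈ S n` choose
`b, y`; then `S (n + 1)` contains all `t` with `H.Adj x t`, `t ≠ y` (at least `m`); for different `x` these sets are disjoint by
`TL.uniq` (with the walks as walks of `G`, `nb_mono`; both have `n + 2` steps `< 34`: `n + 1 < 33`).
-/

set_option autoImplicit false

namespace Pool.Agent.H64.GI

open Finset Classical
open Pool.Agent.H65.GI

variable {V : Type} [Fintype V] {G : SimpleGraph V}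

/-- the `H`-grandchildren of `g`, seen from `y` -/
noncomputable def gc (G : SimpleGraph V) (side : V → Bool) (y g : V) : Finset V :=
  univ.filter (fun x => ∃ z, z ≠ y ∧ (Hg G side).Adj g z ∧ (Hg G side).Adj z x ∧ x ≠ g)

theorem gc_cone (side : V → Bool) {y g : V} (h : G.Adj y g) :
    gc G side y g ⊆ cone G y g 5 := by
  intro x hx
  obtain ⟨_, z, h1, h2, h3, h4⟩ := mem_filter.1 hx
  exact mem_filter.2 ⟨mem_univ _, 2, by omega, z, Nb.step (Nb.step (Nb.base h) h2.1 h1) h3.1 h4⟩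

private theorem Awk_er {side : V → Bool} {m : ℕ} (hd : ∀ v, m + 1 ≤ (op G side v).card)
    (v y : V) : m ≤ ((op G side v).erase y).card := by
  have h1 := pred_card_le_card_erase (s := op G side v) (a := y)
  have h2 := hd v
  omega

private theorem Awk_bi {S : Finset V} {X : V → Finset V} {m k : ℕ} (hS : k ≤ S.card)
    (hX : ∀ x ∈ S, m ≤ (X x).card) (hdis : ∀ x ∈ S, ∀ x' ∈ S, x ≠ x' → Disjoint (X x) (X x')) :
    k * m ≤ (S.biUnion X).card := by
  rw [card_biUnion hdis]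
  calc k * m ≤ S.card * m := Nat.mul_le_mul_right m hS
    _ = ∑ _x ∈ S, m := by rw [sum_const, smul_eq_mul]
    _ ≤ ∑ x ∈ S, (X x).card := sum_le_sum hX

theorem wk_two (ht : TL G 33) (side : V → Bool) (m : ℕ)
    (hd : ∀ v, m + 1 ≤ (op G side v).card) (y g : V) : m ^ 2 ≤ (gc G side y g).card := by
  have h1 : m * m ≤ (((op G side g).erase y).biUnion (fun z => (op G side z).erase g)).card := by
    refine Awk_bi (Awk_er hd g y) (fun z _ => Awk_er hd z g) ?_
    intro z hz z' hz' hne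
    rw [disjoint_left]
    intro x hx hx'
    obtain ⟨_, hz1⟩ := mem_erase.1 hz
    obtain ⟨_, hz2, _⟩ := mem_filter.1 hz1
    obtain ⟨_, hz1'⟩ := mem_erase.1 hz'
    obtain ⟨_, hz2', _⟩ := mem_filter.1 hz1'
    obtain ⟨hx0, hx1⟩ := mem_erase.1 hx
    obtain ⟨_, hx2, _⟩ := mem_filter.1 hx1
    obtain ⟨_, hx1'⟩ := mem_erase.1 hx'
    obtain ⟨_, hx2', _⟩ := mem_filter.1 hx1'
    exact hne (ht.uniq g z z' 1 1 z z' x (by omega) (by omega)
      (Nb.step (Nb.base hz2) hx2 hx0) (Nb.step (Nb.base hz2') hx2' hx0)).2.1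
  rw [sq]
  refine h1.trans (card_le_card ?_)
  intro x hx
  obtain ⟨z, hz, hx⟩ := mem_biUnion.1 hx
  obtain ⟨hz0, hz1⟩ := mem_erase.1 hz
  obtain ⟨_, hz2, hz3⟩ := mem_filter.1 hz1
  obtain ⟨hx0, hx1⟩ := mem_erase.1 hx
  obtain ⟨_, hx2, hx3⟩ := mem_filter.1 hx1
  exact mem_filter.2 ⟨mem_univ _, z, hz0, ⟨hz2, fun e => hz3 e.symm⟩, ⟨hx2, fun e => hx3 e.symm⟩, hx0⟩

theorem wk_cnt (ht : TL G 33) (side : V → Bool) (m : ℕ)
    (hd : ∀ v, m + 1 ≤ (op G side v).card) (a : V) (n : ℕ) (hn : n < 33) :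
    m ^ (n + 1) ≤ (univ.filter (fun x => ∃ b y, Nb (Hg G side) a b n y x)).card := by
  have hm : ∀ u v, (Hg G side).Adj u v → G.Adj u v := fun u v h => h.1
  induction n with
  | zero =>
    rw [zero_add, pow_one]
    refine le_trans ?_ (card_le_card (s := op G side a) ?_)
    · have := hd a
      omega
    · intro t h1
      obtain ⟨_, h2, h3⟩ := mem_filter.1 h1
      exact mem_filter.2 ⟨mem_univ _, t, a, Nb.base ⟨h2, fun e => h3 e.symm⟩⟩
  | succ n ih =>
    have ih := ih (by omega)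
    set S := univ.filter (fun x => ∃ b y, Nb (Hg G side) a b n y x) with hS
    have h1 : ∀ x, ∃ y, x ∈ S → ∃ b, Nb (Hg G side) a b n y x := by
      intro x
      by_cases hx : x ∈ S
      · obtain ⟨_, b, y, h⟩ := mem_filter.1 hx
        exact ⟨y, fun _ => ⟨b, h⟩⟩
      · exact ⟨x, fun h => absurd h hx⟩
    choose Y hY using h1
    have h2 : m ^ (n + 1) * m ≤ (S.biUnion (fun x => (op G side x).erase (Y x))).card := by
      refine Awk_bi ih (fun x _ => Awk_er hd x (Y x)) ?_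
      intro x hx x' hx' hne
      rw [disjoint_left]
      intro t h3 h3'
      obtain ⟨b, hb⟩ := hY x hx
      obtain ⟨b', hb'⟩ := hY x' hx'
      obtain ⟨h4, h5⟩ := mem_erase.1 h3
      obtain ⟨_, h6, _⟩ := mem_filter.1 h5
      obtain ⟨h4', h5'⟩ := mem_erase.1 h3'
      obtain ⟨_, h6', _⟩ := mem_filter.1 h5'
      exact hne (ht.uniq a b b' (n + 1) (n + 1) x x' t hn hn (Nb.step (nb_mono hm hb) h6 h4)
        (Nb.step (nb_mono hm hb') h6' h4')).2.2
    rw [pow_succ]
    refine h2.trans (card_le_card ?_)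
    intro t h3
    obtain ⟨x, hx, h3⟩ := mem_biUnion.1 h3
    obtain ⟨b, hb⟩ := hY x hx
    obtain ⟨h4, h5⟩ := mem_erase.1 h3
    obtain ⟨_, h6, h7⟩ := mem_filter.1 h5
    exact mem_filter.2 ⟨mem_univ _, b, x, Nb.step hb ⟨h6, fun e => h7 e.symm⟩ h4⟩

end Pool.Agent.H64.GI
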