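import Mathlib
import Pool.Agent.H64.GI.Awk
import Pool.Agent.H64.GI.Agp

/-!
GAEv: probability that no alternating walk of length `L + 2` from `u` ends in the random set `Dd`. Use the STATEMENTS of `Nba`,
`Acn`, `Awk`, `Agp`, `Cnd`, `Exq`.

`H = Hg G side`. Let `J = {g | ∃ b y, Nb H u b (L - 1) y g}`, `m0^L ≤ #J` (`wk_cnt` with `n = L - 1`). For `g ∈ J` choose `b g`, `y g`, let
`C g = cone G (y g) g 5` and `X g = gc G side (y g) g ⊆ C g` (`gc_cone`), `A g := ∃ x ∈ X g, ω x = 0 ∧ ∀ t ∈ C g, t ≠ x → ω t ≠ 0`.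
(1) If `A g` holds for some `g ∈ J` then there is a walk: for the `x` (with the middle vertex `z`) we have `Nb H u b (L + 1) z x`
(two steps from the walk to `g`), so `nb_seq` gives `p` with `p 0 = u`, `p (L + 2) = x`, `H.Adj (p i) (p (i + 1))` for `i ≤ L + 1`; and
`x ∈ Dd G ω`, because `bl G x 2 ⊆ C g` (`cone_bl2` for `Nb G (y g) g 2 z x`).
(2) The sets `C g` are disjoint for different `g ∈ J` (`cone_dis2` with `n = L - 1`, `k = 5`; walks of `H` are walks of `G`), and `A g` is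
`Loc` on `C g`. So by `pr_forall`, `pr_not`: `pr (∀ g ∈ J, ¬ A g) = ∏ (1 - pr (A g)) ≤ ∏ exp (- pr (A g)) ≤ exp (- #J a)`, where
`pr (A g) ≥ a := m0² / (m + 1) (1 - (Δ + 1)^5 / (m + 1)) ≥ 0` by `one_pr` (`#C g ≤ (Δ + 1)^5` by `cone_bl`, `bl_card`; `#X g ≥ m0²` by `wk_two`).
-/

set_option autoImplicit false

namespace Pool.Agent.H64.GI

open Finset Classical
open Pool.Agent.H65.GI

theorem ev_walk {V : Type} [Fintype V] (G : SimpleGraph V) (Δ : ℕ) (hG : Reg G Δ) (ht : TL G 33)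
    (side : V → Bool) (m0 : ℕ) (hd : ∀ v, m0 + 1 ≤ (op G side v).card) (L : ℕ) (hL1 : 1 ≤ L)
    (hL2 : L ≤ 12) (u : V) (m : ℕ) (hm : (Δ + 1) ^ 5 ≤ m + 1) :
    pr (fun ω : V → Fin (m + 1) => ¬ ∃ p : ℕ → V, p 0 = u ∧ p (L + 2) ∈ Dd G ω ∧
      ∀ i < L + 2, (Hg G side).Adj (p i) (p (i + 1))) ≤
    Real.exp (-((m0 : ℝ) ^ L * ((m0 : ℝ) ^ 2 / ((m : ℝ) + 1) *
      (1 - ((Δ : ℝ) + 1) ^ 5 / ((m : ℝ) + 1))))) := by
  have hmono : ∀ a b, (Hg G side).Adj a b → G.Adj a b := fun a b h => h.1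
  obtain ⟨J, hJ⟩ : ∃ J : Finset V, J = univ.filter (fun x => ∃ b y, Nb (Hg G side) u b (L - 1) y x) :=
    ⟨_, rfl⟩
  have hcnt : m0 ^ L ≤ J.card := by
    have h := wk_cnt ht side m0 hd u (L - 1) (by omega)
    rw [hJ]
    have hL : L - 1 + 1 = L := by omega
    rw [hL] at h
    exact h
  have hex : ∀ g : V, g ∈ J → ∃ y b : V, Nb (Hg G side) u b (L - 1) y g := by
    intro g hg
    rw [hJ] at hg
    obtain ⟨_, b, y, h⟩ := mem_filter.1 hg
    exact ⟨y, b, h⟩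
  choose! yy bb hyy using hex
  have hGw : ∀ g ∈ J, Nb G u (bb g) (L - 1) (yy g) g := fun g hg => nb_mono hmono (hyy g hg)
  have hadj : ∀ g ∈ J, G.Adj (yy g) g := fun g hg => nb_adj (hGw g hg)
  have hsub : ∀ g ∈ J, gc G side (yy g) g ⊆ cone G (yy g) g 5 := fun g hg =>
    gc_cone side (hadj g hg)
  have hC : ∀ g ∈ J, ((cone G (yy g) g 5).card : ℝ) ≤ ((Δ : ℝ) + 1) ^ 5 := by
    intro g _
    have h1 : (cone G (yy g) g 5).card ≤ (Δ + 1) ^ 5 :=
      (card_le_card cone_bl).trans (bl_card G Δ hG (yy g) 5)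
    exact_mod_cast h1
  have hm1 : (0 : ℝ) < (m : ℝ) + 1 := by positivity
  have hmR : ((Δ : ℝ) + 1) ^ 5 ≤ (m : ℝ) + 1 := by exact_mod_cast hm
  have hfac : 0 ≤ 1 - ((Δ : ℝ) + 1) ^ 5 / ((m : ℝ) + 1) := by
    have : ((Δ : ℝ) + 1) ^ 5 / ((m : ℝ) + 1) ≤ 1 := (div_le_one hm1).2 hmR
    linarith
  obtain ⟨a, ha⟩ : ∃ a : ℝ, a = (m0 : ℝ) ^ 2 / ((m : ℝ) + 1) *
      (1 - ((Δ : ℝ) + 1) ^ 5 / ((m : ℝ) + 1)) := ⟨_, rfl⟩
  have ha0 : 0 ≤ a := by
    rw [ha]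
    exact mul_nonneg (by positivity) hfac
  have hone : ∀ g ∈ J, a ≤ pr (fun ω : V → Fin (m + 1) => ∃ x ∈ gc G side (yy g) g,
      ω x = 0 ∧ ∀ t ∈ cone G (yy g) g 5, t ≠ x → ω t ≠ 0) := by
    intro g hg
    refine le_trans ?_ (one_pr m (cone G (yy g) g 5) (gc G side (yy g) g) (hsub g hg))
    rw [ha]
    have hX : (m0 : ℝ) ^ 2 ≤ ((gc G side (yy g) g).card : ℝ) := by
      exact_mod_cast wk_two ht side m0 hd (yy g) g
    apply mul_le_mul
    · exact div_le_div_of_nonneg_right hX hm1.le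
    · have := div_le_div_of_nonneg_right (hC g hg) hm1.le
      linarith
    · exact hfac
    · positivity
  have hstep : pr (fun ω : V → Fin (m + 1) => ¬ ∃ p : ℕ → V, p 0 = u ∧ p (L + 2) ∈ Dd G ω ∧
      ∀ i < L + 2, (Hg G side).Adj (p i) (p (i + 1))) ≤
      pr (fun ω : V → Fin (m + 1) => ∀ g ∈ J, ¬ ∃ x ∈ gc G side (yy g) g,
        ω x = 0 ∧ ∀ t ∈ cone G (yy g) g 5, t ≠ x → ω t ≠ 0) := by
    apply pr_mono
    rintro ω hω g hg ⟨x, hx, hx0, hx1⟩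
    apply hω
    unfold gc at hx
    obtain ⟨_, z, hz1, hz2, hz3, hz4⟩ := mem_filter.1 hx
    have hw := Nb.step (Nb.step (hyy g hg) hz2 hz1) hz3 hz4
    obtain ⟨p, hp0, _, _, hp3, hp4, _⟩ := nb_seq hw
    have hL : L - 1 + 1 + 1 = L + 1 := by omega
    rw [hL] at hp3 hp4
    refine ⟨p, hp0, ?_, ?_⟩
    · have hp3' : p (L + 2) = x := hp3
      rw [hp3']
      unfold Dd
      refine mem_filter.2 ⟨mem_univ _, hx0, ?_⟩
      intro t ht' htx
      have hw2 : Nb G (yy g) g 2 z x :=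
        Nb.step (Nb.step (Nb.base (hadj g hg)) (hmono _ _ hz2) hz1) (hmono _ _ hz3) hz4
      exact hx1 t (cone_bl2 hw2 ht') htx
    · intro i hi
      exact hp4 i (by omega)
  have hprod : pr (fun ω : V → Fin (m + 1) => ∀ g ∈ J, ¬ ∃ x ∈ gc G side (yy g) g,
        ω x = 0 ∧ ∀ t ∈ cone G (yy g) g 5, t ≠ x → ω t ≠ 0) =
      ∏ g ∈ J, pr (fun ω : V → Fin (m + 1) => ¬ ∃ x ∈ gc G side (yy g) g,
        ω x = 0 ∧ ∀ t ∈ cone G (yy g) g 5, t ≠ x → ω t ≠ 0) := by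
    apply pr_forall J (fun g (ω : V → Fin (m + 1)) => ¬ ∃ x ∈ gc G side (yy g) g,
        ω x = 0 ∧ ∀ t ∈ cone G (yy g) g 5, t ≠ x → ω t ≠ 0) (fun g => cone G (yy g) g 5)
    · intro g hg ω ω' hωω
      apply propext
      apply not_congr
      constructor
      · rintro ⟨x, hx, h1, h2⟩
        refine ⟨x, hx, ?_, ?_⟩
        · rw [← hωω x (hsub g hg hx)]
          exact h1
        · intro t ht' htx
          rw [← hωω t ht']
          exact h2 t ht' htx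
      · rintro ⟨x, hx, h1, h2⟩
        refine ⟨x, hx, ?_, ?_⟩
        · rw [hωω x (hsub g hg hx)]
          exact h1
        · intro t ht' htx
          rw [hωω t ht']
          exact h2 t ht' htx
    · intro g hg g' hg' hne
      exact cone_dis2 ht (hGw g hg) (hGw g' hg') hne (by omega)
  have hle : ∏ g ∈ J, pr (fun ω : V → Fin (m + 1) => ¬ ∃ x ∈ gc G side (yy g) g,
        ω x = 0 ∧ ∀ t ∈ cone G (yy g) g 5, t ≠ x → ω t ≠ 0) ≤ ∏ _g ∈ J, Real.exp (-a) := by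
    apply Finset.prod_le_prod
    · intro g _
      exact pr_nonneg _
    · intro g hg
      rw [pr_not]
      have h1 := hone g hg
      have h2 := Real.add_one_le_exp (-a)
      linarith
  rw [← ha]
  refine hstep.trans (hprod.le.trans (hle.trans ?_))
  rw [Finset.prod_const, ← Real.exp_nat_mul]
  apply Real.exp_le_exp.2
  have hcR : (m0 : ℝ) ^ L ≤ (J.card : ℝ) := by exact_mod_cast hcnt
  have := mul_le_mul_of_nonneg_right hcR ha0
  linarith

end Pool.Agent.H64.GI
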