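import Mathlib
import Pool.Agent.H64.GI.Adf

/-!
GALv: the local lemma with one coin for every vertex. Use the STATEMENT of `lll_bl` (`Pool/Agent/H65/GI/Lll.lean`).

Apply `lll_bl` with `A = Unit`, `κ`, and the events `ω ↦ E v (fun x => ω (x, ()))`. The bijection
`(V × Unit → κ) ≃ (V → κ)` (`Equiv.arrowCongr (Equiv.prodPUnit V) (Equiv.refl κ)` or by hand) shows that the
probabilities are the same (`pr_eqv`).
-/

set_option autoImplicit false

namespace Pool.Agent.H64.GI

open Finset Classical
open Pool.Agent.H65.GI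

theorem pr_eqv {Ω Ω' : Type} [Fintype Ω] [Fintype Ω'] (e : Ω ≃ Ω') (A : Ω' → Prop) :
    pr (fun ω => A (e ω)) = pr A := by
  have h1 : (univ.filter (fun ω => A (e ω))).card = (univ.filter A).card := by
    apply Finset.card_equiv e
    intro ω
    simp
  have h2 : Fintype.card Ω = Fintype.card Ω' := Fintype.card_congr e
  simp only [pr, h1, h2]

theorem lll_v {V κ : Type} [Fintype V] [Fintype κ] [Nonempty κ]
    (G : SimpleGraph V) (Δ : ℕ) (hG : Reg G Δ) (r : ℕ) (E : V → (V → κ) → Prop)
    (hloc : ∀ v, Loc (E v) (bl G v r)) (q : ℝ) (hq0 : 0 ≤ q)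
    (hq : ∀ v, pr (E v) ≤ q) (h4 : 4 * q * ((Δ : ℝ) + 1) ^ (2 * r) ≤ 1) :
    ∃ ω : V → κ, ∀ v, ¬ E v ω := by
  let e : (V × Unit → κ) ≃ (V → κ) :=
    { toFun := fun ω x => ω (x, ())
      invFun := fun ω p => ω p.1
      left_inv := by
        intro ω
        funext p
        rcases p with ⟨x, y⟩
        rfl
      right_inv := by
        intro ω
        rfl }
  obtain ⟨ω, hω⟩ := lll_bl (A := Unit) (κ := κ) G Δ hG r (fun v ω => E v (e ω)) (by
      intro v ω ω' h
      have := hloc v (e ω) (e ω') (by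
        intro i hi
        exact h (i, ()) (by simp [hi]))
      exact this) q hq0 (by
      intro v
      have hpr : ∀ inst : Fintype (V × Unit → κ), @pr _ inst (fun ω => E v (e ω)) ≤ q := fun inst =>
        le_trans (le_of_eq (@pr_eqv (V × Unit → κ) (V → κ) inst _ e (E v))) (hq v)
      exact hpr _) h4
  exact ⟨e ω, hω⟩

end Pool.Agent.H64.GI
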