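import Mathlib

/-!
GANv: numerics for the sparse set. `m0 = Δ / 4` (natural division, `≥ Δ / 5` for `Δ ≥ 20`), `m + 1 = Δ^12`.

For large `Δ`: `(Δ + 1)^k ≤ 2^k Δ^k`; `(Δ + 1)^5 / Δ^12 ≤ 1 / 2`; `L ∈ {11, 12}`:
`m0^L m0² / Δ^12 * (1 / 2) ≥ (Δ / 5)^13 / (2 Δ^12) = Δ / (2 * 5^13)`, and `exp (-Δ / (2 * 5^13)) ≤ Δ^(-40)` for large `Δ`
(`Real.tendsto_pow_mul_exp_neg_atTop_nhds_zero` or `Real.tendsto_mul_exp_add_div_pow_atTop`, or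
`Real.pow_div_factorial_le_exp`).
-/

set_option autoImplicit false

namespace Pool.Agent.H64.GI

private lemma Anv_frac {x : ℝ} (hx : 100 ≤ x) : (x + 1) ^ 5 / x ^ 12 ≤ 1 / 2 := by
  have hx0 : 0 < x := by linarith
  rw [div_le_iff₀ (by positivity)]
  have h1 : (x + 1) ^ 5 ≤ (2 * x) ^ 5 := pow_le_pow_left₀ (by linarith) (by linarith) 5
  have h2 : (100 : ℝ) ^ 7 ≤ x ^ 7 := pow_le_pow_left₀ (by norm_num) hx 7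
  have h3 : (2 * x) ^ 5 = 32 * x ^ 5 := by ring
  have h4 : (1 : ℝ) / 2 * x ^ 12 = (1 / 2 * x ^ 7) * x ^ 5 := by ring
  rw [h4]
  rw [h3] at h1
  refine h1.trans (mul_le_mul_of_nonneg_right ?_ (by positivity))
  have h5 : (64 : ℝ) ≤ 100 ^ 7 := by norm_num
  linarith

private lemma Anv_m0 {Δ : ℕ} (h : 100 ≤ Δ) : (Δ : ℝ) / 5 ≤ ((Δ / 4 : ℕ) : ℝ) := by
  have h1 : Δ ≤ 5 * (Δ / 4) := by omega
  have h2 : (Δ : ℝ) ≤ 5 * ((Δ / 4 : ℕ) : ℝ) := by exact_mod_cast h1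
  linarith

private lemma Anv_low {x m : ℝ} (hx : 100 ≤ x) (hm : x / 5 ≤ m) :
    x / (2 * 5 ^ 13) ≤ m ^ 11 * (m ^ 2 / x ^ 12 * (1 - (x + 1) ^ 5 / x ^ 12)) := by
  have hx0 : 0 < x := by linarith
  have hm0 : 0 ≤ m := by linarith
  have hf := Anv_frac hx
  have e1 : x / (2 * 5 ^ 13) = (x / 5) ^ 13 / x ^ 12 * (1 / 2) := by
    field_simp
  have e2 : m ^ 11 * (m ^ 2 / x ^ 12 * (1 - (x + 1) ^ 5 / x ^ 12)) =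
      m ^ 13 / x ^ 12 * (1 - (x + 1) ^ 5 / x ^ 12) := by ring
  rw [e1, e2]
  refine mul_le_mul ?_ (by linarith) (by norm_num) (by positivity)
  refine div_le_div_of_nonneg_right ?_ (by positivity)
  exact pow_le_pow_left₀ (by positivity) hm 13

private lemma Anv_main {x : ℝ} (hx : (2 : ℝ) ^ 60 ≤ x) :
    4 * ((x + 1) ^ 11 / x ^ 12) ^ 40 * (x + 1) ^ (2 * 16) ≤ 1 / 2 := by
  have h20 : (1 : ℝ) ≤ 2 ^ 60 := one_le_pow₀ (by norm_num)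
  have hx1 : 1 ≤ x := h20.trans hx
  have hx0 : 0 < x := by linarith
  obtain ⟨y, hy⟩ : ∃ y : ℝ, y = x + 1 := ⟨_, rfl⟩
  rw [← hy]
  have e1 : 4 * (y ^ 11 / x ^ 12) ^ 40 * y ^ (2 * 16) = 4 * y ^ 472 / x ^ 480 := by
    rw [div_pow, ← pow_mul, ← pow_mul, mul_div_assoc', div_mul_eq_mul_div, mul_assoc, ← pow_add]
  rw [e1, div_le_iff₀ (by positivity)]
  have h1 : y ^ 472 ≤ (2 * x) ^ 472 := pow_le_pow_left₀ (by linarith) (by linarith) 472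
  have h2 : ((2 : ℝ) ^ 60) ^ 8 ≤ x ^ 8 := pow_le_pow_left₀ (by positivity) hx 8
  have h3 : (2 * x) ^ 472 = 2 ^ 472 * x ^ 472 := mul_pow _ _ _
  have h4 : x ^ 480 = x ^ 8 * x ^ 472 := by rw [← pow_add]
  rw [h3] at h1
  rw [h4]
  have h5 : (8 : ℝ) * 2 ^ 472 ≤ (2 ^ 60) ^ 8 := by
    rw [← pow_mul]
    have e8 : (8 : ℝ) = 2 ^ 3 := by norm_num
    rw [e8, ← pow_add]
    exact pow_le_pow_right₀ (by norm_num) (by norm_num)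
  have h6 : (0 : ℝ) ≤ x ^ 472 := by positivity
  have h7 := mul_le_mul_of_nonneg_right (h5.trans h2) h6
  linarith

private lemma Anv_last {x : ℝ} (hx : 100 ≤ x) : (x + 1) ^ 14 ≤ 2 * x ^ 14 := by
  have hx0 : 0 < x := by linarith
  have h1 : x + 1 ≤ (101 / 100) * x := by linarith
  have h2 : (x + 1) ^ 14 ≤ ((101 / 100) * x) ^ 14 := pow_le_pow_left₀ (by linarith) h1 14
  rw [mul_pow] at h2
  have h3 : ((101 : ℝ) / 100) ^ 14 ≤ 2 := by norm_num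
  exact h2.trans (mul_le_mul_of_nonneg_right h3 (by positivity))

private lemma Anv_ev : ∀ᶠ Δ : ℕ in Filter.atTop,
    Real.exp (-((Δ : ℝ) / (2 * 5 ^ 13))) * ((Δ : ℝ) + 1) ^ (2 * 16) ≤ 1 / 16 := by
  have hc : (0 : ℝ) < 1 / (2 * 5 ^ 13) := by positivity
  have t1 : Filter.Tendsto (fun n : ℕ => (1 / (2 * 5 ^ 13) : ℝ) * (n : ℝ)) Filter.atTop
      Filter.atTop := tendsto_natCast_atTop_atTop.const_mul_atTop hc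
  have t2 := (Real.tendsto_pow_mul_exp_neg_atTop_nhds_zero 32).comp t1
  have hpos : (0 : ℝ) < (1 / (2 * 5 ^ 13)) ^ 32 / (16 * 2 ^ 32) := by positivity
  have t3 := t2.eventually (ge_mem_nhds hpos)
  filter_upwards [t3, Filter.eventually_ge_atTop 1] with n hn h1
  have hx1 : (1 : ℝ) ≤ (n : ℝ) := by exact_mod_cast h1
  simp only [Function.comp] at hn
  have e1 : (1 / (2 * 5 ^ 13) : ℝ) * (n : ℝ) = (n : ℝ) / (2 * 5 ^ 13) := by ring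
  have h2 : ((n : ℝ) + 1) ^ (2 * 16) ≤ (2 * (n : ℝ)) ^ 32 :=
    pow_le_pow_left₀ (by linarith) (by linarith) 32
  have h3 : (2 * (n : ℝ)) ^ 32 = 2 ^ 32 * (n : ℝ) ^ 32 := mul_pow _ _ _
  rw [mul_pow, e1] at hn
  have hE : 0 < Real.exp (-((n : ℝ) / (2 * 5 ^ 13))) := Real.exp_pos _
  obtain ⟨E, hEd⟩ : ∃ E : ℝ, E = Real.exp (-((n : ℝ) / (2 * 5 ^ 13))) := ⟨_, rfl⟩
  obtain ⟨c, hcd⟩ : ∃ c : ℝ, c = (1 / (2 * 5 ^ 13)) ^ 32 := ⟨_, rfl⟩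
  have hc0 : 0 < c := by
    rw [hcd]
    positivity
  rw [← hEd] at hn hE ⊢
  rw [← hcd] at hn
  have h4 : (n : ℝ) ^ 32 * E ≤ 1 / (16 * 2 ^ 32) := by
    have h5 : c * ((n : ℝ) ^ 32 * E) ≤ c * (1 / (16 * 2 ^ 32)) := by
      calc c * ((n : ℝ) ^ 32 * E) = c * (n : ℝ) ^ 32 * E := by ring
        _ ≤ c / (16 * 2 ^ 32) := hn
        _ = c * (1 / (16 * 2 ^ 32)) := by ring
    exact le_of_mul_le_mul_left h5 hc0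
  calc E * ((n : ℝ) + 1) ^ (2 * 16) ≤ E * (2 * (n : ℝ)) ^ 32 :=
        mul_le_mul_of_nonneg_left h2 hE.le
    _ = 2 ^ 32 * ((n : ℝ) ^ 32 * E) := by rw [h3]; ring
    _ ≤ 2 ^ 32 * (1 / (16 * 2 ^ 32)) := mul_le_mul_of_nonneg_left h4 (by positivity)
    _ = 1 / 16 := by norm_num

theorem nv_all : ∃ Δ0 : ℕ, ∀ Δ : ℕ, Δ0 ≤ Δ → 100 ≤ Δ ∧ (Δ + 1) ^ 5 ≤ Δ ^ 12 ∧
    (Δ / 4 : ℕ) + 1 ≤ (Δ : ℝ) / 3 ∧
    4 * ((((Δ : ℝ) + 1) ^ 11 / (Δ : ℝ) ^ 12) ^ 40 +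
      (Real.exp (-(((Δ / 4 : ℕ) : ℝ) ^ 11 * (((Δ / 4 : ℕ) : ℝ) ^ 2 / (Δ : ℝ) ^ 12 *
        (1 - ((Δ : ℝ) + 1) ^ 5 / (Δ : ℝ) ^ 12)))) +
       Real.exp (-(((Δ / 4 : ℕ) : ℝ) ^ 12 * (((Δ / 4 : ℕ) : ℝ) ^ 2 / (Δ : ℝ) ^ 12 *
        (1 - ((Δ : ℝ) + 1) ^ 5 / (Δ : ℝ) ^ 12)))))) * ((Δ : ℝ) + 1) ^ (2 * 16) ≤ 1 ∧
    ((Δ : ℝ) + 1) ^ 14 ≤ 2 * (Δ : ℝ) ^ 14 := by
  obtain ⟨N, hN⟩ := Filter.eventually_atTop.1 Anv_ev
  refine ⟨max N (2 ^ 60), fun Δ hΔ => ?_⟩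
  have h1 : N ≤ Δ := (le_max_left _ _).trans hΔ
  have h2 : 2 ^ 60 ≤ Δ := (le_max_right _ _).trans hΔ
  have hx : (2 : ℝ) ^ 60 ≤ (Δ : ℝ) := by exact_mod_cast h2
  have h100 : 100 ≤ Δ := le_trans (by norm_num) h2
  have hx1 : (100 : ℝ) ≤ (Δ : ℝ) := by exact_mod_cast h100
  have hfr := Anv_frac hx1
  have hm := Anv_m0 h100
  have hexp := hN Δ h1
  refine ⟨h100, ?_, ?_, ?_, ?_⟩
  · have h3 : (Δ + 1) ^ 5 ≤ (2 * Δ) ^ 5 := Nat.pow_le_pow_left (by omega) 5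
    have h4 : (2 * Δ) ^ 5 ≤ Δ ^ 12 := by
      calc (2 * Δ) ^ 5 ≤ (Δ * Δ) ^ 5 := Nat.pow_le_pow_left (Nat.mul_le_mul_right _ (by omega)) 5
        _ = Δ ^ 10 := by ring
        _ ≤ Δ ^ 12 := Nat.pow_le_pow_right (by omega) (by norm_num)
    exact h3.trans h4
  · have h3 : ((Δ / 4 : ℕ) : ℝ) ≤ (Δ : ℝ) / 4 := Nat.cast_div_le
    linarith
  · obtain ⟨x, hxd⟩ : ∃ x : ℝ, x = (Δ : ℝ) := ⟨_, rfl⟩
    obtain ⟨m, hmd⟩ : ∃ m : ℝ, m = ((Δ / 4 : ℕ) : ℝ) := ⟨_, rfl⟩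
    rw [← hxd] at hx hx1 hfr hexp hm ⊢
    rw [← hmd] at hm ⊢
    have hx0 : 0 < x := by linarith
    have hm1 : 1 ≤ m := by linarith
    have e1 : Real.exp (-(m ^ 11 * (m ^ 2 / x ^ 12 * (1 - (x + 1) ^ 5 / x ^ 12)))) ≤
        Real.exp (-(x / (2 * 5 ^ 13))) := Real.exp_le_exp.2 (neg_le_neg (Anv_low hx1 hm))
    have e2 : Real.exp (-(m ^ 12 * (m ^ 2 / x ^ 12 * (1 - (x + 1) ^ 5 / x ^ 12)))) ≤
        Real.exp (-(x / (2 * 5 ^ 13))) := by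
      refine Real.exp_le_exp.2 (neg_le_neg ((Anv_low hx1 hm).trans ?_))
      have h5 : 0 ≤ m ^ 2 / x ^ 12 * (1 - (x + 1) ^ 5 / x ^ 12) := by
        refine mul_nonneg (by positivity) ?_
        linarith
      have h6 : m ^ 11 ≤ m ^ 12 := pow_le_pow_right₀ hm1 (by norm_num)
      exact mul_le_mul_of_nonneg_right h6 h5
    have e3 := Anv_main hx
    obtain ⟨y, hy⟩ : ∃ y : ℝ, y = x + 1 := ⟨_, rfl⟩
    rw [← hy] at e1 e2 e3 hexp ⊢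
    have hy0 : 0 < y := by linarith
    have hp : (0 : ℝ) ≤ y ^ (2 * 16) := by positivity
    calc 4 * ((y ^ 11 / x ^ 12) ^ 40 +
          (Real.exp (-(m ^ 11 * (m ^ 2 / x ^ 12 * (1 - y ^ 5 / x ^ 12)))) +
          Real.exp (-(m ^ 12 * (m ^ 2 / x ^ 12 * (1 - y ^ 5 / x ^ 12)))))) *
            y ^ (2 * 16)
        ≤ 4 * ((y ^ 11 / x ^ 12) ^ 40 + (Real.exp (-(x / (2 * 5 ^ 13))) +
          Real.exp (-(x / (2 * 5 ^ 13))))) * y ^ (2 * 16) := by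
          refine mul_le_mul_of_nonneg_right ?_ hp
          linarith
      _ = 4 * (y ^ 11 / x ^ 12) ^ 40 * y ^ (2 * 16) +
          8 * (Real.exp (-(x / (2 * 5 ^ 13))) * y ^ (2 * 16)) := by ring
      _ ≤ 1 / 2 + 1 / 2 := add_le_add e3 (by linarith)
      _ = 1 := by norm_num
  · obtain ⟨x, hxd⟩ : ∃ x : ℝ, x = (Δ : ℝ) := ⟨_, rfl⟩
    rw [← hxd] at hx1 ⊢
    exact Anv_last hx1

end Pool.Agent.H64.GI
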