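import Mathlib
import Pool.Agent.H64.GI.Aev
import Pool.Agent.H64.GI.Alv
import Pool.Agent.H64.GI.Anv

/-!
GADd: the sparse set (`IsDd`, `Adf.lean`). Use the STATEMENTS of `Aev`, `Alv` (`lll_v`), `Anv`, `Agp` (`co_one`), `Chf.lean` (`few_le`), `Cnd`.

Given `side` with `Δ / 3 ≤ #(op G side v)`, so `Δ / 4 + 1 ≤ #op` (natural division; `nv_all`). Let `m = Δ^12 - 1`, so
`m + 1 = Δ^12`. `lll_v` with `κ = Fin (m + 1)`, `r = 16` and `E v := E1 ∨ E2 ∨ E3`: `E1`: at least `40` points `x ∈ bl G v 11` with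
`ω x = 0`; `E2`, `E3`: no walk `p` of length `13`, `14` from `v` to `Dd G ω` (see `ev_walk`, `L = 11`, `12`).
`pr E1 ≤ ((Δ + 1)^11 / Δ^12)^40`: `few_le` with `J = bl G v 11` (`bl_card`), `S x = {x}`, `p = 1 / (m + 1)` (`co_one`). `pr E2, pr E3`:
`ev_walk`. `Loc`: `p (L + 2) ∈ bl G v 14` (`bl_adj`), and `x ∈ Dd G ω` depends on `ω` in `bl G x 2 ⊆ bl G v 16` (`bl_bl`).
Result: `D := Dd G ω`. `few` with `K = 40` (points of `Dd` have coin `0`). `sep`: for `u, v ∈ D`, `u ≠ v`: if adjacent, or with a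
common neighbour, `v ∈ bl G u 2`, so `ω v ≠ 0`, contradiction.
-/

set_option autoImplicit false

namespace Pool.Agent.H64.GI

open Finset Classical
open Pool.Agent.H65.GI

private theorem Add_inst {α : Type} (s : Finset α) (p : α → Prop) (i1 i2 : DecidablePred p) :
    @filter α p i1 s = @filter α p i2 s := by
  rw [Subsingleton.elim i1 i2]

private theorem Add_ball {V : Type} [Fintype V] (G : SimpleGraph V) (side : V → Bool) (v : V)
    (p : ℕ → V) (n : ℕ) (h0 : p 0 = v) (h : ∀ i < n, (Hg G side).Adj (p i) (p (i + 1))) :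
    ∀ i ≤ n, p i ∈ bl G v i := by
  intro i
  induction i with
  | zero =>
    intro _
    rw [h0]
    exact bl_self G v 0
  | succ i ih =>
    intro hi
    exact bl_adj G (ih (Nat.le_of_succ_le hi)) (h i (Nat.lt_of_succ_le hi)).1

private theorem Add_Dd {V : Type} [Fintype V] {m : ℕ} (G : SimpleGraph V) (v x : V)
    (hx : x ∈ bl G v 14) (ω ω' : V → Fin (m + 1)) (h : ∀ i ∈ bl G v 16, ω i = ω' i)
    (hd : x ∈ Dd G ω) : x ∈ Dd G ω' := by
  unfold Dd at hd ⊢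
  rw [mem_filter] at hd ⊢
  obtain ⟨-, h1, h2⟩ := hd
  refine ⟨mem_univ _, ?_, ?_⟩
  · rw [← h x (bl_mono G v (by norm_num) hx)]
    exact h1
  · intro y hy hyx
    rw [← h y (bl_bl G (k := 14) (l := 2) hx hy)]
    exact h2 y hy hyx

private theorem Add_w {V : Type} [Fintype V] {m : ℕ} (G : SimpleGraph V) (side : V → Bool)
    (n : ℕ) (hn : n ≤ 14) (v : V) (ω ω' : V → Fin (m + 1)) (h : ∀ i ∈ bl G v 16, ω i = ω' i)
    (hp : ∃ p : ℕ → V, p 0 = v ∧ p n ∈ Dd G ω ∧ ∀ i < n, (Hg G side).Adj (p i) (p (i + 1))) :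
    ∃ p : ℕ → V, p 0 = v ∧ p n ∈ Dd G ω' ∧ ∀ i < n, (Hg G side).Adj (p i) (p (i + 1)) := by
  obtain ⟨p, h0, h1, h2⟩ := hp
  refine ⟨p, h0, ?_, h2⟩
  exact Add_Dd G v (p n) (bl_mono G v hn (Add_ball G side v p n h0 h2 n le_rfl)) ω ω' h h1

private theorem Add_loc {V : Type} [Fintype V] (m : ℕ) (G : SimpleGraph V) (side : V → Bool)
    (n : ℕ) (hn : n ≤ 14) (v : V) :
    Loc (fun ω : V → Fin (m + 1) => ¬ ∃ p : ℕ → V, p 0 = v ∧ p n ∈ Dd G ω ∧
      ∀ i < n, (Hg G side).Adj (p i) (p (i + 1))) (bl G v 16) := by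
  intro ω ω' h
  apply propext
  constructor
  · intro h1 h2
    exact h1 (Add_w G side n hn v ω' ω (fun i hi => (h i hi).symm) h2)
  · intro h1 h2
    exact h1 (Add_w G side n hn v ω ω' h h2)

theorem dd_main : ∃ Δ0 : ℕ, ∀ Δ, Δ0 ≤ Δ → ∀ (V : Type) [Fintype V] (G : SimpleGraph V), Reg G Δ →
    TL G 33 → ∀ side : V → Bool, (∀ v, (Δ : ℝ) / 3 ≤ (op G side v).card) →
    ∃ D : Finset V, IsDd G 40 side D := by
  obtain ⟨Δ0, hΔ0⟩ := nv_all
  refine ⟨Δ0, fun Δ hΔ V _ G hG ht side hop => ?_⟩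
  obtain ⟨h100, h5, h3, h4, -⟩ := hΔ0 Δ hΔ
  obtain ⟨m, hm⟩ : ∃ m, m + 1 = Δ ^ 12 :=
    ⟨Δ ^ 12 - 1, Nat.sub_add_cancel (Nat.one_le_pow _ _ (by omega))⟩
  have hmR : (m : ℝ) + 1 = (Δ : ℝ) ^ 12 := by exact_mod_cast hm
  have hd : ∀ v, Δ / 4 + 1 ≤ (op G side v).card := by
    intro v
    have h1 := h3.trans (hop v)
    exact_mod_cast h1
  have hm5 : (Δ + 1) ^ 5 ≤ m + 1 := by
    rw [hm]
    exact h5
  obtain ⟨E, hE⟩ : ∃ E : V → (V → Fin (m + 1)) → Prop, ∀ v ω, E v ω ↔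
      (40 ≤ ((bl G v 11).filter (fun x => ω x = 0)).card ∨
      ((¬ ∃ p : ℕ → V, p 0 = v ∧ p (11 + 2) ∈ Dd G ω ∧
        ∀ i < 11 + 2, (Hg G side).Adj (p i) (p (i + 1))) ∨
      (¬ ∃ p : ℕ → V, p 0 = v ∧ p (12 + 2) ∈ Dd G ω ∧
        ∀ i < 12 + 2, (Hg G side).Adj (p i) (p (i + 1))))) := ⟨_, fun _ _ => Iff.rfl⟩
  have hloc : ∀ v, Loc (E v) (bl G v 16) := by
    intro v ω ω' h
    have e1 : (bl G v 11).filter (fun x => ω x = 0) = (bl G v 11).filter (fun x => ω' x = 0) := by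
      apply filter_congr
      intro x hx
      rw [h x (bl_mono G v (by norm_num) hx)]
    have e2 := Add_loc m G side (11 + 2) (by norm_num) v ω ω' h
    have e3 := Add_loc m G side (12 + 2) (by norm_num) v ω ω' h
    apply propext
    rw [hE, hE, e1]
    exact or_congr Iff.rfl (or_congr (iff_of_eq e2) (iff_of_eq e3))
  have hq : ∀ v, pr (E v) ≤ (((Δ : ℝ) + 1) ^ 11 / (Δ : ℝ) ^ 12) ^ 40 +
      (Real.exp (-(((Δ / 4 : ℕ) : ℝ) ^ 11 * (((Δ / 4 : ℕ) : ℝ) ^ 2 / (Δ : ℝ) ^ 12 *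
        (1 - ((Δ : ℝ) + 1) ^ 5 / (Δ : ℝ) ^ 12)))) +
       Real.exp (-(((Δ / 4 : ℕ) : ℝ) ^ 12 * (((Δ / 4 : ℕ) : ℝ) ^ 2 / (Δ : ℝ) ^ 12 *
        (1 - ((Δ : ℝ) + 1) ^ 5 / (Δ : ℝ) ^ 12))))) := by
    intro v
    have e0 := pr_mono (fun ω h => (hE v ω).1 h)
    have e1 : pr (fun ω : V → Fin (m + 1) =>
        40 ≤ ((bl G v 11).filter (fun x => ω x = 0)).card) ≤
        (((Δ : ℝ) + 1) ^ 11 / (Δ : ℝ) ^ 12) ^ 40 := by
      have h1 := few_le (bl G v 11) (fun x (ω : V → Fin (m + 1)) => ω x = 0) (fun x => {x})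
        (by
          intro x _ ω ω' h
          change (ω x = 0) = (ω' x = 0)
          rw [h x (mem_singleton_self x)])
        (by
          intro x _ y _ hxy
          exact disjoint_singleton.2 hxy)
        (1 / ((m : ℝ) + 1)) (by positivity) (fun x _ => (co_one m x).le) ((Δ + 1) ^ 11) 40
        (bl_card G Δ hG v 11)
      have h2 : (((Δ + 1) ^ 11 : ℕ) : ℝ) * (1 / ((m : ℝ) + 1)) =
          ((Δ : ℝ) + 1) ^ 11 / (Δ : ℝ) ^ 12 := by
        rw [hmR]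
        push_cast
        ring
      rw [h2] at h1
      refine (pr_mono (fun ω h => ?_)).trans h1
      refine le_trans h (le_of_eq ?_)
      congr 1
      exact Add_inst _ _ _ _
    have e2 := ev_walk G Δ hG ht side (Δ / 4) hd 11 (by norm_num) (by norm_num) v m hm5
    have e3 := ev_walk G Δ hG ht side (Δ / 4) hd 12 (by norm_num) (by norm_num) v m hm5
    rw [hmR] at e2 e3
    have e4 := pr_or (fun ω : V → Fin (m + 1) =>
      40 ≤ ((bl G v 11).filter (fun x => ω x = 0)).card)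
      (fun ω => ((¬ ∃ p : ℕ → V, p 0 = v ∧ p (11 + 2) ∈ Dd G ω ∧
        ∀ i < 11 + 2, (Hg G side).Adj (p i) (p (i + 1))) ∨
      (¬ ∃ p : ℕ → V, p 0 = v ∧ p (12 + 2) ∈ Dd G ω ∧
        ∀ i < 12 + 2, (Hg G side).Adj (p i) (p (i + 1)))))
    have e5 := pr_or (fun ω : V → Fin (m + 1) => ¬ ∃ p : ℕ → V, p 0 = v ∧ p (11 + 2) ∈ Dd G ω ∧
        ∀ i < 11 + 2, (Hg G side).Adj (p i) (p (i + 1)))
      (fun ω => ¬ ∃ p : ℕ → V, p 0 = v ∧ p (12 + 2) ∈ Dd G ω ∧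
        ∀ i < 12 + 2, (Hg G side).Adj (p i) (p (i + 1)))
    exact e0.trans (e4.trans (add_le_add e1 (e5.trans (add_le_add e2 e3))))
  obtain ⟨ω, hω⟩ := lll_v G Δ hG 16 E hloc _ (by positivity) hq h4
  have hωE : ∀ v, ¬ _ := fun v h => hω v ((hE v ω).2 h)
  have hD : ∀ x, x ∈ Dd G ω ↔ ω x = 0 ∧ ∀ y ∈ bl G x 2, y ≠ x → ω y ≠ 0 := by
    intro x
    unfold Dd
    rw [mem_filter]
    exact ⟨fun h => h.2, fun h => ⟨mem_univ _, h⟩⟩
  refine ⟨Dd G ω, ?_, ?_, ?_, ?_⟩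
  · intro v
    have h1 : ¬ 40 ≤ ((bl G v 11).filter (fun x => ω x = 0)).card :=
      fun h => hωE v (Or.inl h)
    have h2 : ((bl G v 11).filter (fun x => x ∈ Dd G ω)).card ≤
        ((bl G v 11).filter (fun x => ω x = 0)).card := by
      apply card_le_card
      intro x hx
      rw [mem_filter] at hx ⊢
      exact ⟨hx.1, ((hD x).1 hx.2).1⟩
    omega
  · intro u hu v hv huv
    have hu1 := (hD u).1 hu
    have hv1 := (hD v).1 hv
    refine ⟨fun h => ?_, fun z h => ?_⟩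
    · refine hu1.2 v ?_ huv.symm hv1.1
      exact bl_mono G u (by norm_num : 1 ≤ 2) (bl_adj G (bl_self G u 0) h)
    · refine hu1.2 v ?_ huv.symm hv1.1
      exact bl_adj G (bl_adj G (bl_self G u 0) h.1) h.2
  · intro u
    by_contra h
    exact hωE u (Or.inr (Or.inl h))
  · intro u
    by_contra h
    exact hωE u (Or.inr (Or.inr h))

end Pool.Agent.H64.GI
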