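import Mathlib
import Pool.Agent.H28.Konig

/-!
GAKg: the subgraph `F` (degrees `q`, or `q - 1`, `q` on `D`) is a union of `q` matchings, given as involutions.

Use `Pool.Agent.H28.konig` with `R a b := side a = true ∧ F.Adj a b` (so `side b = false`) and the number `q`: it gives
`c : V → V → ℕ`, proper. For `j < q` let `M j v := w` if `F.Adj v w` and the colour of the edge is `j` (the colour is `c v w` if
`side v = true`, and `c w v` otherwise; `w` is unique), and `M j v := v` if there is no such edge. `M j (M j v) = v`.
The `j` with `M j v ≠ v` are the colours of the edges at `v`: different edges at `v` have different colours, so their number is the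
degree of `v` in `F` (the map from the neighbours to `Fin q` is injective).
-/

set_option autoImplicit false

namespace Pool.Agent.H64.GI

open Finset Classical

theorem koenig {V : Type} [Fintype V] (F : SimpleGraph V) (side : V → Bool)
    (hb : ∀ u v, F.Adj u v → side u ≠ side v) (q : ℕ)
    (hq : ∀ v, (univ.filter (fun w => F.Adj v w)).card ≤ q) :
    ∃ M : Fin q → V → V, (∀ j v, M j (M j v) = v) ∧ (∀ j v, M j v ≠ v → F.Adj v (M j v)) ∧
      (∀ i j v, i ≠ j → M i v ≠ v → M i v ≠ M j v) ∧
      ∀ v, (univ.filter (fun j => M j v = v)).card + (univ.filter (fun w => F.Adj v w)).card =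
        q := by
  have hN : ∀ (v : V) (Q : V → Prop), (∀ w, Q w → F.Adj v w) → {w | Q w}.ncard ≤ q := by
    intro v Q hQ
    refine le_trans ?_ (hq v)
    rw [← Set.ncard_coe_finset]
    refine Set.ncard_le_ncard ?_ (Finset.finite_toSet _)
    intro w hw
    simp only [Finset.coe_filter, Finset.mem_univ, true_and, Set.mem_ofPred_eq]
    exact hQ w hw
  obtain ⟨c, hc1, hc2, hc3⟩ := Pool.Agent.H28.konig (fun a b => side a = true ∧ F.Adj a b) q
    (fun a => hN a _ fun b h => h.2) (fun b => hN b _ fun a h => h.2.symm)
  obtain ⟨col, hcol⟩ : ∃ col : V → V → ℕ, col = fun v w => if side v = true then c v w else c w v :=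
    ⟨_, rfl⟩
  have hside : ∀ v w, F.Adj v w → side v ≠ true → side w = true := by
    intro v w h hv
    have := hb v w h
    cases h1 : side v <;> cases h2 : side w <;> simp_all
  have hside' : ∀ v w, F.Adj v w → side v = true → side w ≠ true := by
    intro v w h hv hw
    exact hb v w h (hv.trans hw.symm)
  have hsymm : ∀ v w, F.Adj v w → col v w = col w v := by
    intro v w h
    rw [hcol]
    show (if side v = true then c v w else c w v) = (if side w = true then c w v else c v w)
    by_cases hv : side v = true
    · rw [if_pos hv, if_neg (hside' v w h hv)]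
    · rw [if_neg hv, if_pos (hside v w h hv)]
  have hlt : ∀ v w, F.Adj v w → col v w < q := by
    intro v w h
    rw [hcol]
    show (if side v = true then c v w else c w v) < q
    by_cases hv : side v = true
    · rw [if_pos hv]; exact hc1 v w ⟨hv, h⟩
    · rw [if_neg hv]; exact hc1 w v ⟨hside v w h hv, h.symm⟩
  have hne : ∀ v w w', F.Adj v w → F.Adj v w' → w ≠ w' → col v w ≠ col v w' := by
    intro v w w' h h' hww
    rw [hcol]
    show (if side v = true then c v w else c w v) ≠ (if side v = true then c v w' else c w' v)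
    by_cases hv : side v = true
    · rw [if_pos hv, if_pos hv]; exact hc2 v w w' ⟨hv, h⟩ ⟨hv, h'⟩ hww
    · rw [if_neg hv, if_neg hv]
      exact hc3 w w' v ⟨hside v w h hv, h.symm⟩ ⟨hside v w' h' hv, h'.symm⟩ hww
  obtain ⟨M, hM⟩ : ∃ M : Fin q → V → V, M = fun j v =>
      if h : ∃ w, F.Adj v w ∧ col v w = j.1 then h.choose else v := ⟨_, rfl⟩
  have hM1 : ∀ (j : Fin q) v w, F.Adj v w → col v w = j.1 → M j v = w := by
    intro j v w h hw
    have hex : ∃ w, F.Adj v w ∧ col v w = j.1 := ⟨w, h, hw⟩
    have e : M j v = hex.choose := by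
      rw [hM]
      exact dif_pos hex
    have hs := hex.choose_spec
    rw [e]
    by_contra hcon
    exact hne v _ _ hs.1 h hcon (hs.2.trans hw.symm)
  have hM2 : ∀ (j : Fin q) v, M j v ≠ v → F.Adj v (M j v) ∧ col v (M j v) = j.1 := by
    intro j v h
    by_cases hex : ∃ w, F.Adj v w ∧ col v w = j.1
    · obtain ⟨w, hw1, hw2⟩ := hex
      have := hM1 j v w hw1 hw2
      rw [this]
      exact ⟨hw1, hw2⟩
    · exfalso
      apply h
      rw [hM]
      exact dif_neg hex
  have hM3 : ∀ i j v, i ≠ j → M i v ≠ v → M i v ≠ M j v := by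
    intro i j v hij h he
    have h1 := hM2 i v h
    rw [he] at h
    have h2 := hM2 j v h
    rw [← he] at h2
    exact hij (Fin.ext (h1.2.symm.trans h2.2))
  refine ⟨M, ?_, fun j v h => (hM2 j v h).1, hM3, ?_⟩
  · intro j v
    by_cases h : M j v = v
    · rw [h, h]
    · have h1 := hM2 j v h
      exact hM1 j _ v h1.1.symm ((hsymm v _ h1.1).symm.trans h1.2)
  · intro v
    have h4 : (univ.filter (fun j => ¬ M j v = v)).card =
        (univ.filter (fun w => F.Adj v w)).card := by
      refine Finset.card_bij (fun j _ => M j v) ?_ ?_ ?_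
      · intro j hj
        rw [Finset.mem_filter] at hj ⊢
        exact ⟨Finset.mem_univ _, (hM2 j v hj.2).1⟩
      · intro i hi j hj he
        rw [Finset.mem_filter] at hi
        by_contra hij
        exact hM3 i j v hij hi.2 he
      · intro w hw
        rw [Finset.mem_filter] at hw
        have h5 := hM1 ⟨col v w, hlt v w hw.2⟩ v w hw.2 rfl
        refine ⟨⟨col v w, hlt v w hw.2⟩, ?_, h5⟩
        rw [Finset.mem_filter, h5]
        exact ⟨Finset.mem_univ _, fun h => F.loopless.irrefl v (h ▸ hw.2)⟩
    have h6 := Finset.card_filter_add_card_filter_not (s := (univ : Finset (Fin q)))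
      (fun j => M j v = v)
    rw [Finset.card_univ, Fintype.card_fin] at h6
    rw [← h4]
    exact h6

end Pool.Agent.H64.GI
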