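import Mathlib

/-!
GARd: rounding of a fractional subgraph of a bipartite graph.

Call `y : V → V → ℝ` feasible if it satisfies `hs, h0, h1, hH, hoff, hon`. The set `P` of the feasible `y` is compact, convex and not
empty, so it has an extreme point `y` (`IsCompact.extremePoints_nonempty`; alternatively choose a feasible `y` with the smallest
number of fractional pairs plus fractional sums). Let `Fr = {(v, w) : 0 < y v w < 1}`, `S = {v ∈ D : q - 1 < ∑_w y v w < q}`.
(1) If `z : V → V → ℝ` is symmetric, `0` outside of `Fr`, with `∑_w z v w = 0` for all `v ∉ S`, then `z = 0`: for small `ε > 0`,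
`y + ε z` and `y - ε z` are feasible.
(2) Every `v ∉ S` with a pair `(v, w) ∈ Fr` has at least two of them, since `∑_w y v w` is an integer.
(3) Suppose `Fr ≠ ∅`. Let `E = {(v, w) ∈ Fr : side v = true}` (so `side w = false`), `W` the set of vertices in a pair of `Fr`,
`A : (E → ℝ) → (W \ S → ℝ)`, `(A z) v = ∑_{e ∈ E, v ∈ e} z e`. By (1) `A` is injective, so `#E ≤ #(W \ S)`; by (2)
`2 #E ≥ 2 #(W \ S) + #(W ∩ S)`. Hence `W ∩ S = ∅`, `#E = #W`, and `A` is onto `(W → ℝ)`. But
`∑_{side v = true} (A z) v = ∑_e z e = ∑_{side v = false} (A z) v`, so the indicator function of one `v ∈ W` is not in the image.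
So `Fr = ∅`; `F.Adj v w := y v w = 1`, the sums are the degrees (natural numbers in `[q - 1, q]` for `v ∈ D`).
-/

set_option autoImplicit false

namespace Pool.Agent.H64.GI

open Finset Classical

section Aux

variable {V : Type} [Fintype V] (H : SimpleGraph V) (q : ℕ) (D : Finset V)

/-- The feasible fractional subgraphs. -/
private def Ard_P : Set (V → V → ℝ) :=
  {y | (∀ v w, y v w = y w v) ∧ (∀ v w, 0 ≤ y v w) ∧ (∀ v w, y v w ≤ 1) ∧
    (∀ v w, ¬ H.Adj v w → y v w = 0) ∧ (∀ v, v ∉ D → ∑ w, y v w = q) ∧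
    ∀ v, v ∈ D → (q : ℝ) - 1 ≤ ∑ w, y v w ∧ ∑ w, y v w ≤ q}

private theorem Ard_compact : IsCompact (Ard_P H q D) := by
  have h1 : IsCompact (Set.Icc (0 : V → V → ℝ) 1) := isCompact_Icc
  refine h1.of_isClosed_subset ?_ ?_
  · have c1 : ∀ v w, Continuous (fun y : V → V → ℝ => y v w) := fun v w =>
      (continuous_apply w).comp (continuous_apply v)
    have c2 : ∀ v, Continuous (fun y : V → V → ℝ => ∑ w, y v w) := fun v =>
      continuous_finsetSum _ fun w _ => c1 v w
    have e : Ard_P H q D = (⋂ v, ⋂ w, {y : V → V → ℝ | y v w = y w v}) ∩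
        ((⋂ v, ⋂ w, {y : V → V → ℝ | 0 ≤ y v w}) ∩
        ((⋂ v, ⋂ w, {y : V → V → ℝ | y v w ≤ 1}) ∩
        ((⋂ v, ⋂ w, ⋂ (_ : ¬ H.Adj v w), {y : V → V → ℝ | y v w = 0}) ∩
        ((⋂ v, ⋂ (_ : v ∉ D), {y : V → V → ℝ | ∑ w, y v w = q}) ∩
        (⋂ v, ⋂ (_ : v ∈ D), ({y : V → V → ℝ | (q : ℝ) - 1 ≤ ∑ w, y v w} ∩
          {y : V → V → ℝ | ∑ w, y v w ≤ q})))))) := by
      ext y
      simp only [Ard_P, Set.mem_inter_iff, Set.mem_iInter, Set.mem_ofPred_eq]
    rw [e]
    refine (isClosed_iInter fun v => isClosed_iInter fun w => isClosed_eq (c1 v w) (c1 w v)).inter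
      ((isClosed_iInter fun v => isClosed_iInter fun w => isClosed_le continuous_const (c1 v w)).inter
      ((isClosed_iInter fun v => isClosed_iInter fun w => isClosed_le (c1 v w) continuous_const).inter
      ((isClosed_iInter fun v => isClosed_iInter fun w => isClosed_iInter fun _ =>
        isClosed_eq (c1 v w) continuous_const).inter
      ((isClosed_iInter fun v => isClosed_iInter fun _ =>
        isClosed_eq (c2 v) continuous_const).inter
      (isClosed_iInter fun v => isClosed_iInter fun _ =>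
        (isClosed_le continuous_const (c2 v)).inter (isClosed_le (c2 v) continuous_const))))))
  · intro y hy
    exact ⟨fun v w => hy.2.1 v w, fun v w => hy.2.2.1 v w⟩

variable {H q D}

private theorem Ard_move {y z : V → V → ℝ} (hy : y ∈ Ard_P H q D) (hzs : ∀ v w, z v w = z w v)
    (hz0 : ∀ v w, ¬ (0 < y v w ∧ y v w < 1) → z v w = 0)
    (hzS : ∀ v, ¬ (v ∈ D ∧ (q : ℝ) - 1 < ∑ w, y v w ∧ ∑ w, y v w < q) → ∑ w, z v w = 0) :
    ∀ᶠ t in nhds (0 : ℝ), (fun v w => y v w + t * z v w) ∈ Ard_P H q D := by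
  obtain ⟨y1, y2, y3, y4, y5, y6⟩ := hy
  have hc : ∀ a b : ℝ, Filter.Tendsto (fun t : ℝ => a + t * b) (nhds 0) (nhds a) := by
    intro a b
    have h1 : Continuous (fun t : ℝ => a + t * b) := by fun_prop
    have h2 := h1.tendsto 0
    rw [zero_mul, add_zero] at h2
    exact h2
  have hsum : ∀ v (t : ℝ), ∑ w, (y v w + t * z v w) = ∑ w, y v w + t * ∑ w, z v w := by
    intro v t
    rw [Finset.sum_add_distrib, Finset.mul_sum]
  have e1 : ∀ᶠ t in nhds (0 : ℝ), ∀ v w, 0 ≤ y v w + t * z v w := by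
    refine Filter.eventually_all.2 fun v => Filter.eventually_all.2 fun w => ?_
    by_cases h : 0 < y v w ∧ y v w < 1
    · exact ((hc (y v w) (z v w)).eventually_const_le h.1)
    · refine Filter.Eventually.of_forall fun t => ?_
      rw [hz0 v w h, mul_zero, add_zero]
      exact y2 v w
  have e2 : ∀ᶠ t in nhds (0 : ℝ), ∀ v w, y v w + t * z v w ≤ 1 := by
    refine Filter.eventually_all.2 fun v => Filter.eventually_all.2 fun w => ?_
    by_cases h : 0 < y v w ∧ y v w < 1
    · exact ((hc (y v w) (z v w)).eventually_le_const h.2)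
    · refine Filter.Eventually.of_forall fun t => ?_
      rw [hz0 v w h, mul_zero, add_zero]
      exact y3 v w
  have e3 : ∀ᶠ t in nhds (0 : ℝ), ∀ v, v ∈ D →
      (q : ℝ) - 1 ≤ ∑ w, (y v w + t * z v w) ∧ ∑ w, (y v w + t * z v w) ≤ q := by
    refine Filter.eventually_all.2 fun v => ?_
    by_cases h : v ∈ D ∧ (q : ℝ) - 1 < ∑ w, y v w ∧ ∑ w, y v w < q
    · have h1 := (hc (∑ w, y v w) (∑ w, z v w)).eventually_const_le h.2.1
      have h2 := (hc (∑ w, y v w) (∑ w, z v w)).eventually_le_const h.2.2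
      filter_upwards [h1, h2] with t ht1 ht2 _
      rw [hsum]
      exact ⟨ht1, ht2⟩
    · refine Filter.Eventually.of_forall fun t hv => ?_
      rw [hsum, hzS v h, mul_zero, add_zero]
      exact y6 v hv
  filter_upwards [e1, e2, e3] with t h1 h2 h3
  refine ⟨fun v w => ?_, h1, h2, fun v w h => ?_, fun v hv => ?_, h3⟩
  · show y v w + t * z v w = y w v + t * z w v
    rw [y1 v w, hzs v w]
  · show y v w + t * z v w = 0
    have h5 : ¬ (0 < y v w ∧ y v w < 1) := by
      rw [y4 v w h]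
      exact fun h6 => lt_irrefl _ h6.1
    rw [y4 v w h, hz0 v w h5, mul_zero, add_zero]
  · show ∑ w, (y v w + t * z v w) = q
    rw [hsum, y5 v hv, hzS v (fun h => hv h.1), mul_zero, add_zero]

private theorem Ard_ext (hne : (Ard_P H q D).Nonempty) : ∃ y ∈ Ard_P H q D, ∀ z : V → V → ℝ,
    (∀ v w, z v w = z w v) → (∀ v w, ¬ (0 < y v w ∧ y v w < 1) → z v w = 0) →
    (∀ v, ¬ (v ∈ D ∧ (q : ℝ) - 1 < ∑ w, y v w ∧ ∑ w, y v w < q) → ∑ w, z v w = 0) → z = 0 := by
  obtain ⟨y, hy⟩ := (Ard_compact H q D).extremePoints_nonempty hne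
  refine ⟨y, hy.1, fun z h1 h2 h3 => ?_⟩
  have e1 := Ard_move hy.1 h1 h2 h3
  have e2 := Ard_move (z := fun v w => - z v w) hy.1 (fun v w => by rw [h1 v w])
    (fun v w h => by rw [h2 v w h, neg_zero])
    (fun v h => by rw [Finset.sum_neg_distrib, h3 v h, neg_zero])
  have e3 : ∀ᶠ t in nhdsWithin (0 : ℝ) (Set.Ioi 0), ((fun v w => y v w + t * z v w) ∈ Ard_P H q D ∧
      (fun v w => y v w + t * -z v w) ∈ Ard_P H q D) ∧ t ∈ Set.Ioi (0 : ℝ) :=
    ((e1.and e2).filter_mono nhdsWithin_le_nhds).and self_mem_nhdsWithin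
  obtain ⟨t, ⟨ht1, ht2⟩, ht⟩ := e3.exists
  have ht0 : (0 : ℝ) < t := ht
  have h4 := hy.2 ht1 ht2 ⟨1 / 2, 1 / 2, by norm_num, by norm_num, by norm_num, by
    funext v w
    show (1 / 2 : ℝ) * (y v w + t * z v w) + (1 / 2 : ℝ) * (y v w + t * -z v w) = y v w
    ring⟩
  funext v w
  have h5 : y v w + t * z v w = y v w := congrFun (congrFun h4 v) w
  have h6 : t * z v w = 0 := by linarith
  exact (mul_eq_zero.1 h6).resolve_left ht0.ne'

/-- A vertex with an integral sum has no or at least two fractional pairs. -/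
private theorem Ard_two {y : V → V → ℝ} (hy : y ∈ Ard_P H q D) {v : V}
    (hv : ¬ (v ∈ D ∧ (q : ℝ) - 1 < ∑ w, y v w ∧ ∑ w, y v w < q))
    (hd : 0 < (univ.filter (fun w => 0 < y v w ∧ y v w < 1)).card) :
    2 ≤ (univ.filter (fun w => 0 < y v w ∧ y v w < 1)).card := by
  obtain ⟨y1, y2, y3, y4, y5, y6⟩ := hy
  by_contra hlt
  have h1 : (univ.filter (fun w => 0 < y v w ∧ y v w < 1)).card = 1 := by omega
  obtain ⟨w₀, hw₀⟩ := Finset.card_eq_one.1 h1
  have hint : ∃ n : ℤ, ∑ w, y v w = n := by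
    by_cases hD : v ∈ D
    · obtain ⟨h2, h3⟩ := y6 v hD
      rcases lt_or_eq_of_le h2 with h4 | h4
      · rcases lt_or_eq_of_le h3 with h5 | h5
        · exact absurd ⟨hD, h4, h5⟩ hv
        · exact ⟨q, by rw [h5]; push_cast; rfl⟩
      · exact ⟨(q : ℤ) - 1, by rw [← h4]; push_cast; rfl⟩
    · exact ⟨q, by rw [y5 v hD]; push_cast; rfl⟩
  obtain ⟨n, hn⟩ := hint
  have h2 : w₀ ∈ univ.filter (fun w => 0 < y v w ∧ y v w < 1) := by
    rw [hw₀]
    exact Finset.mem_singleton_self _
  have h3 := (Finset.mem_filter.1 h2).2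
  have h4 : ∑ w ∈ univ.erase w₀, y v w = ((∑ w ∈ univ.erase w₀, if y v w = 1 then 1 else 0 : ℤ) : ℝ) := by
    push_cast
    refine Finset.sum_congr rfl fun w hw => ?_
    have h5 : w ∉ univ.filter (fun w => 0 < y v w ∧ y v w < 1) := by
      rw [hw₀, Finset.mem_singleton]
      exact (Finset.mem_erase.1 hw).1
    have h6 : ¬ (0 < y v w ∧ y v w < 1) := fun h => h5 (Finset.mem_filter.2 ⟨Finset.mem_univ _, h⟩)
    by_cases h7 : y v w = 1
    · rw [if_pos h7, h7]
    · rw [if_neg h7]
      by_contra h8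
      exact h6 ⟨lt_of_le_of_ne (y2 v w) (Ne.symm h8), lt_of_le_of_ne (y3 v w) h7⟩
  rw [← Finset.add_sum_erase _ _ (Finset.mem_univ w₀), h4] at hn
  obtain ⟨m, hm⟩ : ∃ m : ℤ, m = ∑ w ∈ univ.erase w₀, if y v w = 1 then 1 else 0 := ⟨_, rfl⟩
  rw [← hm] at hn
  have h5 : y v w₀ = ((n - m : ℤ) : ℝ) := by
    push_cast
    linarith
  rw [h5] at h3
  have h6 : (0 : ℤ) < n - m := by exact_mod_cast h3.1
  have h7 : n - m < (1 : ℤ) := by exact_mod_cast h3.2
  omega

private theorem Ard_none (side : V → Bool) (hb : ∀ u v, H.Adj u v → side u ≠ side v)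
    {y : V → V → ℝ} (hy : y ∈ Ard_P H q D) (hz : ∀ z : V → V → ℝ,
    (∀ v w, z v w = z w v) → (∀ v w, ¬ (0 < y v w ∧ y v w < 1) → z v w = 0) →
    (∀ v, ¬ (v ∈ D ∧ (q : ℝ) - 1 < ∑ w, y v w ∧ ∑ w, y v w < q) → ∑ w, z v w = 0) → z = 0) :
    ∀ v w, ¬ (0 < y v w ∧ y v w < 1) := by
  intro v₀ w₀ hfr
  have hside : ∀ v w, 0 < y v w ∧ y v w < 1 → side v ≠ side w := by
    intro v w h
    apply hb
    by_contra h1
    rw [hy.2.2.2.1 v w h1] at h
    exact lt_irrefl _ h.1
  have hsym : ∀ v w, (0 < y v w ∧ y v w < 1) ↔ (0 < y w v ∧ y w v < 1) := by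
    intro v w
    rw [hy.1 v w]
  obtain ⟨deg, hdeg⟩ : ∃ deg : V → ℕ, deg =
      fun v => (univ.filter (fun w => 0 < y v w ∧ y v w < 1)).card := ⟨_, rfl⟩
  obtain ⟨E, hE⟩ : ∃ E : Finset (V × V), E =
      univ.filter (fun p => side p.1 = true ∧ 0 < y p.1 p.2 ∧ y p.1 p.2 < 1) := ⟨_, rfl⟩
  have hmE : ∀ v w, (v, w) ∈ E ↔ side v = true ∧ 0 < y v w ∧ y v w < 1 := by
    intro v w
    rw [hE, Finset.mem_filter]
    exact ⟨fun h => h.2, fun h => ⟨Finset.mem_univ _, h⟩⟩
  -- the number of edges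
  have hcE : ∑ v, deg v = 2 * E.card := by
    have h1 : E.card = ∑ v, ∑ w, if side v = true ∧ 0 < y v w ∧ y v w < 1 then 1 else 0 := by
      rw [hE, Finset.card_filter, Fintype.sum_prod_type]
    have h2 : E.card = ∑ v, ∑ w, if side w = true ∧ 0 < y v w ∧ y v w < 1 then 1 else 0 := by
      rw [h1, Finset.sum_comm]
      refine Finset.sum_congr rfl fun v _ => Finset.sum_congr rfl fun w _ => ?_
      rw [hy.1 w v]
    have h3 : ∀ v, deg v = ∑ w, if 0 < y v w ∧ y v w < 1 then 1 else 0 := by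
      intro v
      rw [hdeg]
      exact Finset.card_filter _ _
    rw [two_mul]
    conv_rhs => 
      congr
      · rw [h1]
      · rw [h2]
    rw [← Finset.sum_add_distrib]
    refine Finset.sum_congr rfl fun v _ => ?_
    rw [h3, ← Finset.sum_add_distrib]
    refine Finset.sum_congr rfl fun w _ => ?_
    by_cases h : 0 < y v w ∧ y v w < 1
    · have h4 := hside v w h
      rw [if_pos h]
      by_cases hv : side v = true
      · rw [if_pos ⟨hv, h⟩, if_neg (fun h5 => h4 (hv.trans h5.1.symm))]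
      · have hw : side w = true := by
          by_contra hw
          exact h4 (((Bool.not_eq_true _).mp hv).trans ((Bool.not_eq_true _).mp hw).symm)
        rw [if_neg (fun h5 => hv h5.1), if_pos ⟨hw, h⟩]
    · rw [if_neg h, if_neg (fun h5 => h h5.2), if_neg (fun h5 => h h5.2)]
  obtain ⟨W, hW⟩ : ∃ W : Finset V, W = univ.filter (fun v => 0 < deg v ∧
      ¬ (v ∈ D ∧ (q : ℝ) - 1 < ∑ w, y v w ∧ ∑ w, y v w < q)) := ⟨_, rfl⟩
  obtain ⟨W', hW'⟩ : ∃ W' : Finset V, W' = univ.filter (fun v => 0 < deg v ∧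
      (v ∈ D ∧ (q : ℝ) - 1 < ∑ w, y v w ∧ ∑ w, y v w < q)) := ⟨_, rfl⟩
  have hcW : 2 * W.card + W'.card ≤ 2 * E.card := by
    rw [← hcE]
    have h1 : 2 * W.card + W'.card = ∑ v, ((if v ∈ W then 2 else 0) + if v ∈ W' then 1 else 0) := by
      rw [Finset.sum_add_distrib, ← Finset.sum_filter, ← Finset.sum_filter, Finset.sum_const,
        Finset.sum_const, smul_eq_mul, smul_eq_mul, mul_one, Finset.filter_mem_eq_inter,
        Finset.filter_mem_eq_inter, Finset.univ_inter, Finset.univ_inter, mul_comm]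
    rw [h1]
    refine Finset.sum_le_sum fun v _ => ?_
    by_cases hv : v ∈ W
    · have hv' : v ∉ W' := by
        intro h2
        rw [hW, Finset.mem_filter] at hv
        rw [hW', Finset.mem_filter] at h2
        exact hv.2.2 h2.2.2
      rw [if_pos hv, if_neg hv', add_zero]
      rw [hW, Finset.mem_filter] at hv
      have h3 := hv.2.1
      rw [hdeg] at h3 ⊢
      exact Ard_two hy hv.2.2 h3
    · rw [if_neg hv, zero_add]
      by_cases hv' : v ∈ W'
      · rw [if_pos hv']
        rw [hW', Finset.mem_filter] at hv'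
        exact hv'.2.1
      · rw [if_neg hv']
        exact Nat.zero_le _
  have hd₀ : 0 < deg v₀ := by
    rw [hdeg]
    exact Finset.card_pos.2 ⟨w₀, Finset.mem_filter.2 ⟨Finset.mem_univ _, hfr⟩⟩
  -- the equations
  obtain ⟨R, hR⟩ : ∃ R : Finset V, R = if W' = ∅ then W.erase v₀ else W := ⟨_, rfl⟩
  have hcR : R.card < E.card := by
    by_cases h : W' = ∅
    · rw [hR, if_pos h]
      have h1 : v₀ ∈ W := by
        rw [hW, Finset.mem_filter]
        refine ⟨Finset.mem_univ _, hd₀, fun h2 => ?_⟩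
        have h3 : v₀ ∈ W' := by
          rw [hW', Finset.mem_filter]
          exact ⟨Finset.mem_univ _, hd₀, h2⟩
        rw [h] at h3
        exact absurd h3 (Finset.notMem_empty _)
      have h2 := Finset.card_erase_lt_of_mem h1
      omega
    · rw [hR, if_neg h]
      have h1 := Finset.card_pos.2 (Finset.nonempty_iff_ne_empty.2 h)
      omega
  let ec := Function.ExtendByZero.linearMap ℝ (Subtype.val : {p // p ∈ E} → V × V)
  have hec1 : ∀ c p (h : p ∈ E), ec c p = c ⟨p, h⟩ := by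
    intro c p h
    exact Subtype.val_injective.extend_apply c 0 ⟨p, h⟩
  have hec0 : ∀ c p, p ∉ E → ec c p = 0 := by
    intro c p h
    have h1 := Function.extend_apply' (f := (Subtype.val : {p // p ∈ E} → V × V)) c
      (0 : V × V → ℝ) p (by
        rintro ⟨a, rfl⟩
        exact h a.2)
    exact h1
  let A : ({p // p ∈ E} → ℝ) →ₗ[ℝ] ({v // v ∈ R} → ℝ) :=
    { toFun := fun c v => ∑ w, (ec c (v.1, w) + ec c (w, v.1))
      map_add' := by
        intro c c'
        funext v
        show ∑ w, (ec (c + c') (v.1, w) + ec (c + c') (w, v.1)) =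
          ∑ w, (ec c (v.1, w) + ec c (w, v.1)) + ∑ w, (ec c' (v.1, w) + ec c' (w, v.1))
        rw [← Finset.sum_add_distrib, map_add]
        refine Finset.sum_congr rfl fun w _ => ?_
        rw [Pi.add_apply, Pi.add_apply]
        ring
      map_smul' := by
        intro r c
        funext v
        show ∑ w, (ec (r • c) (v.1, w) + ec (r • c) (w, v.1)) =
          r * ∑ w, (ec c (v.1, w) + ec c (w, v.1))
        rw [Finset.mul_sum, map_smul]
        refine Finset.sum_congr rfl fun w _ => ?_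
        rw [Pi.smul_apply, Pi.smul_apply, smul_eq_mul, smul_eq_mul]
        ring }
  have hker : LinearMap.ker A ≠ ⊥ := by
    apply LinearMap.ker_ne_bot_of_finrank_lt
    rw [Module.finrank_fintype_fun_eq_card, Module.finrank_fintype_fun_eq_card, Fintype.card_coe,
      Fintype.card_coe]
    exact hcR
  obtain ⟨c, hcA, hc0⟩ := (Submodule.ne_bot_iff _).1 hker
  apply hc0
  have hcR0 : ∀ v ∈ R, ∑ w, (ec c (v, w) + ec c (w, v)) = 0 := by
    intro v hv
    exact congrFun (LinearMap.mem_ker.1 hcA) ⟨v, hv⟩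
  have hsup : ∀ v w, ¬ (0 < y v w ∧ y v w < 1) → ec c (v, w) + ec c (w, v) = 0 := by
    intro v w h
    rw [hec0 c (v, w) (fun h1 => h ((hmE v w).1 h1).2), hec0 c (w, v) (fun h1 => h
      ((hsym v w).2 ((hmE w v).1 h1).2)), add_zero]
  have hzero : ∀ v, deg v = 0 → ∑ w, (ec c (v, w) + ec c (w, v)) = 0 := by
    intro v hv
    refine Finset.sum_eq_zero fun w _ => hsup v w fun h => ?_
    rw [hdeg] at hv
    have h1 : w ∈ univ.filter (fun w => 0 < y v w ∧ y v w < 1) :=
      Finset.mem_filter.2 ⟨Finset.mem_univ _, h⟩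
    rw [Finset.card_eq_zero.1 hv] at h1
    exact absurd h1 (Finset.notMem_empty _)
  have hsig : ∑ v, (if side v = true then (1 : ℝ) else -1) *
      ∑ w, (ec c (v, w) + ec c (w, v)) = 0 := by
    have h1 : ∑ v, (if side v = true then (1 : ℝ) else -1) * ∑ w, (ec c (v, w) + ec c (w, v)) =
        ∑ v, ∑ w, (if side v = true then (1 : ℝ) else -1) * ec c (v, w) +
        ∑ v, ∑ w, (if side v = true then (1 : ℝ) else -1) * ec c (w, v) := by
      rw [← Finset.sum_add_distrib]
      refine Finset.sum_congr rfl fun v _ => ?_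
      rw [Finset.mul_sum, ← Finset.sum_add_distrib]
      refine Finset.sum_congr rfl fun w _ => ?_
      ring
    rw [h1, Finset.sum_comm (f := fun v w => (if side v = true then (1 : ℝ) else -1) *
      ec c (w, v)), ← Finset.sum_add_distrib]
    refine Finset.sum_eq_zero fun v _ => ?_
    rw [← Finset.sum_add_distrib]
    refine Finset.sum_eq_zero fun w _ => ?_
    by_cases h : (v, w) ∈ E
    · obtain ⟨h2, h3⟩ := (hmE v w).1 h
      have h4 := hside v w h3
      have h5 : ¬ side w = true := fun h6 => h4 (h2.trans h6.symm)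
      rw [if_pos h2, if_neg h5]
      ring
    · rw [hec0 c _ h]
      ring
  have hall : ∀ v, ¬ (v ∈ D ∧ (q : ℝ) - 1 < ∑ w, y v w ∧ ∑ w, y v w < q) →
      ∑ w, (ec c (v, w) + ec c (w, v)) = 0 := by
    intro v hv
    rcases Nat.eq_zero_or_pos (deg v) with hd | hd
    · exact hzero v hd
    have hvW : v ∈ W := by
      rw [hW, Finset.mem_filter]
      exact ⟨Finset.mem_univ _, hd, hv⟩
    by_cases h : W' = ∅
    · rw [if_pos h] at hR
      by_cases hv0 : v = v₀
      · have h1 : ∑ v, (if side v = true then (1 : ℝ) else -1) *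
            ∑ w, (ec c (v, w) + ec c (w, v)) = (if side v₀ = true then (1 : ℝ) else -1) *
            ∑ w, (ec c (v₀, w) + ec c (w, v₀)) := by
          refine Finset.sum_eq_single v₀ (fun u _ hu => ?_) (fun h2 => absurd (Finset.mem_univ _) h2)
          have h3 : ∑ w, (ec c (u, w) + ec c (w, u)) = 0 := by
            rcases Nat.eq_zero_or_pos (deg u) with hdu | hdu
            · exact hzero u hdu
            apply hcR0
            rw [hR, Finset.mem_erase, hW, Finset.mem_filter]
            refine ⟨hu, Finset.mem_univ _, hdu, fun h4 => ?_⟩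
            have h5 : u ∈ W' := by
              rw [hW', Finset.mem_filter]
              exact ⟨Finset.mem_univ _, hdu, h4⟩
            rw [h] at h5
            exact absurd h5 (Finset.notMem_empty _)
          rw [h3, mul_zero]
        rw [hsig] at h1
        rw [hv0]
        have h2 := (mul_eq_zero.1 h1.symm).resolve_left (by
          split_ifs <;> norm_num)
        exact h2
      · apply hcR0
        rw [hR, Finset.mem_erase]
        exact ⟨hv0, hvW⟩
    · rw [if_neg h] at hR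
      apply hcR0
      rw [hR]
      exact hvW
  have hfin := hz (fun v w => ec c (v, w) + ec c (w, v)) (fun v w => add_comm _ _) hsup hall
  funext ⟨⟨v, w⟩, hp⟩
  have h1 : ec c (v, w) + ec c (w, v) = 0 := congrFun (congrFun hfin v) w
  obtain ⟨h2, h3⟩ := (hmE v w).1 hp
  have h4 : (w, v) ∉ E := by
    intro h5
    exact hside v w h3 (h2.trans ((hmE w v).1 h5).1.symm)
  rw [hec0 c _ h4, add_zero, hec1 c _ hp] at h1
  exact h1

end Aux

theorem rounding {V : Type} [Fintype V] (H : SimpleGraph V) (side : V → Bool)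
    (hb : ∀ u v, H.Adj u v → side u ≠ side v) (q : ℕ) (D : Finset V) (y : V → V → ℝ)
    (hs : ∀ v w, y v w = y w v) (h0 : ∀ v w, 0 ≤ y v w) (h1 : ∀ v w, y v w ≤ 1)
    (hH : ∀ v w, ¬ H.Adj v w → y v w = 0) (hoff : ∀ v, v ∉ D → ∑ w, y v w = q)
    (hon : ∀ v ∈ D, (q : ℝ) - 1 ≤ ∑ w, y v w ∧ ∑ w, y v w ≤ q) :
    ∃ F : SimpleGraph V, (∀ u v, F.Adj u v → H.Adj u v) ∧
      (∀ v, v ∉ D → (univ.filter (fun w => F.Adj v w)).card = q) ∧
      ∀ v ∈ D, q ≤ (univ.filter (fun w => F.Adj v w)).card + 1 ∧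
        (univ.filter (fun w => F.Adj v w)).card ≤ q := by
  obtain ⟨x, hx, hz⟩ := Ard_ext (H := H) (q := q) (D := D)
    ⟨y, hs, h0, h1, hH, hoff, fun v hv => hon v hv⟩
  have hn := Ard_none side hb hx hz
  obtain ⟨x1, x2, x3, x4, x5, x6⟩ := hx
  have h01 : ∀ v w, x v w = if x v w = 1 then 1 else 0 := by
    intro v w
    by_cases h : x v w = 1
    · rw [if_pos h, h]
    · rw [if_neg h]
      by_contra h2
      exact hn v w ⟨lt_of_le_of_ne (x2 v w) (Ne.symm h2), lt_of_le_of_ne (x3 v w) h⟩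
  have hcard : ∀ v, ((univ.filter (fun w => x v w = 1)).card : ℝ) = ∑ w, x v w := by
    intro v
    rw [Finset.card_filter]
    push_cast
    exact Finset.sum_congr rfl fun w _ => (h01 v w).symm
  refine ⟨{ Adj := fun v w => x v w = 1
            symm := ⟨fun v w h => by rw [x1 w v]; exact h⟩
            loopless := ⟨fun v h => by
              have h2 := x4 v v (H.irrefl)
              rw [h] at h2
              exact one_ne_zero h2⟩ }, ?_, ?_, ?_⟩
  · intro u v huv
    by_contra h2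
    have h3 := x4 u v h2
    have h4 : x u v = 1 := huv
    rw [h4] at h3
    exact one_ne_zero h3
  · intro v hv
    have h2 := hcard v
    rw [x5 v hv] at h2
    exact_mod_cast h2
  · intro v hv
    have h2 := hcard v
    obtain ⟨h3, h4⟩ := x6 v hv
    rw [← h2] at h3 h4
    refine ⟨?_, ?_⟩
    · have h5 : (q : ℝ) ≤ ((univ.filter (fun w => x v w = 1)).card : ℝ) + 1 := by linarith
      exact_mod_cast h5
    · exact_mod_cast h4

end Pool.Agent.H64.GI
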