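import Mathlib
import Pool.Agent.H64.GI.Adf

/-!
GARt: routing. Every vertex `u` sends its residual `δ u` along one alternating walk to `D`.

`ro_tel` (one walk `p 0, ..., p L` of `H = Hg G side`): for `i < L` let `g i v w := 1` if `(p i = v ∧ p (i + 1) = w) ∨ (p i = w ∧ p (i + 1) = v)`,
else `0`. Then `∑_{w ∈ op v} g i v w = 1[p i = v] + 1[p (i + 1) = v]` (as `p i ≠ p (i + 1)` are `H`-adjacent), so
`∑_{w ∈ op v} ∑_{i < L} (-1)^(i+1) g i v w = - 1[p 0 = v] + (-1)^L 1[p L = v]` (induction on `L`).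
`routing`: for every `u` take the walk `p u` of length `L u = 13` if `0 < δ u`, and `14` otherwise, so `(-1)^(L u) δ u = - |δ u|`.
`y v w := y0 v w + ∑_u δ u ∑_{i < L u} (-1)^(i+1) g_u i v w`. Symmetric. Sum at `v`: `q + δ v - δ v - ∑_{u : p u (L u) = v} |δ u|`; the last
sum is empty for `v ∉ D`; in general only `u ∈ bl G v 14` occur (walks of length at most `14`: `bl_adj`, `bl_symm`, `bl_mono`), and there
are at most `(Δ + 1)^14` of them (`bl_card`), each with `|δ u| ≤ η / (Δ + 1)^14`; so it is between `0` and `η`.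
`|y v w - y0 v w| ≤ ∑_{u ∈ bl G v 14} |δ u| * 14 ≤ 14 η`: if `g_u i v w ≠ 0` then `v` is on the walk.
-/

set_option autoImplicit false

namespace Pool.Agent.H64.GI

open Finset Classical
open Pool.Agent.H65.GI

/-- the indicator of the step `i` of the walk `p` on the pair `v w` -/
private noncomputable def gg {V : Type} (p : ℕ → V) (i : ℕ) (v w : V) : ℝ :=
  if (p i = v ∧ p (i + 1) = w) ∨ (p i = w ∧ p (i + 1) = v) then 1 else 0

private theorem gg_symm {V : Type} (p : ℕ → V) (i : ℕ) (v w : V) : gg p i v w = gg p i w v := by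
  unfold gg
  simp only [or_comm]

private theorem gg_nonneg {V : Type} (p : ℕ → V) (i : ℕ) (v w : V) : 0 ≤ gg p i v w := by
  unfold gg
  split_ifs <;> norm_num

private theorem gg_le {V : Type} (p : ℕ → V) (i : ℕ) (v w : V) : gg p i v w ≤ 1 := by
  unfold gg
  split_ifs <;> norm_num

private theorem Art_step {V : Type} [Fintype V] (G : SimpleGraph V) (side : V → Bool) (a b : V)
    (h : (Hg G side).Adj a b) (v : V) :
    ∑ w ∈ op G side v, (if (a = v ∧ b = w) ∨ (a = w ∧ b = v) then (1 : ℝ) else 0) =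
      (if a = v then 1 else 0) + (if b = v then 1 else 0) := by
  have hab : a ≠ b := h.1.ne
  by_cases hav : a = v
  · subst hav
    have hba : b ≠ a := fun e => hab e.symm
    have h1 : ∀ w ∈ op G side a, (if (a = a ∧ b = w) ∨ (a = w ∧ b = a) then (1 : ℝ) else 0) =
        if b = w then 1 else 0 := by
      intro w _
      by_cases hw : b = w
      · rw [if_pos (Or.inl ⟨rfl, hw⟩), if_pos hw]
      · rw [if_neg, if_neg hw]
        rintro (⟨_, e⟩ | ⟨_, e⟩)
        · exact hw e
        · exact hba e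
    rw [Finset.sum_congr rfl h1, if_pos rfl, if_neg hba, Finset.sum_ite_eq, if_pos, add_zero]
    exact mem_filter.2 ⟨mem_univ _, h.1, fun e => h.2 e.symm⟩
  · by_cases hbv : b = v
    · subst hbv
      have h1 : ∀ w ∈ op G side b, (if (a = b ∧ b = w) ∨ (a = w ∧ b = b) then (1 : ℝ) else 0) =
          if a = w then 1 else 0 := by
        intro w _
        by_cases hw : a = w
        · rw [if_pos (Or.inr ⟨hw, rfl⟩), if_pos hw]
        · rw [if_neg, if_neg hw]
          rintro (⟨e, _⟩ | ⟨e, _⟩)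
          · exact hav e
          · exact hw e
      rw [Finset.sum_congr rfl h1, if_neg hav, if_pos rfl, Finset.sum_ite_eq, if_pos, zero_add]
      exact mem_filter.2 ⟨mem_univ _, h.1.symm, h.2⟩
    · rw [if_neg hav, if_neg hbv, add_zero]
      refine Finset.sum_eq_zero fun w _ => ?_
      rw [if_neg]
      rintro (⟨e, _⟩ | ⟨_, e⟩)
      · exact hav e
      · exact hbv e

theorem ro_tel {V : Type} [Fintype V] (G : SimpleGraph V) (side : V → Bool) (p : ℕ → V) (L : ℕ)
    (hp : ∀ i < L, (Hg G side).Adj (p i) (p (i + 1))) (v : V) :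
    ∑ w ∈ op G side v, ∑ i ∈ range L, (-1 : ℝ) ^ (i + 1) *
      (if (p i = v ∧ p (i + 1) = w) ∨ (p i = w ∧ p (i + 1) = v) then 1 else 0) =
    -(if p 0 = v then 1 else 0) + (-1) ^ L * (if p L = v then 1 else 0) := by
  induction L with
  | zero => simp
  | succ L ih =>
    have h1 := ih (fun i hi => hp i (Nat.lt_succ_of_lt hi))
    have h2 := Art_step G side (p L) (p (L + 1)) (hp L (Nat.lt_succ_self L)) v
    simp only [Finset.sum_range_succ, Finset.sum_add_distrib]
    rw [h1, ← Finset.mul_sum, h2, pow_succ]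
    ring

private theorem Art_mem {V : Type} [Fintype V] (G : SimpleGraph V) (side : V → Bool) (p : ℕ → V)
    (L : ℕ) (hp : ∀ i < L, (Hg G side).Adj (p i) (p (i + 1))) :
    ∀ i ≤ L, p i ∈ bl G (p 0) i := by
  intro i
  induction i with
  | zero => intro _; exact bl_self G _ 0
  | succ i ih => intro hi; exact bl_adj G (ih (by omega)) (hp i (by omega)).1

theorem routing {V : Type} [Fintype V] (G : SimpleGraph V) (Δ : ℕ) (hG : Reg G Δ)
    (side : V → Bool) (K : ℕ) (D : Finset V) (hD : IsDd G K side D) (y0 : V → V → ℝ)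
    (hsy : ∀ v w, y0 v w = y0 w v) (q : ℝ) (δ : V → ℝ)
    (hsu : ∀ v, ∑ w ∈ op G side v, y0 v w = q + δ v) (η : ℝ)
    (hδ : ∀ v, ((Δ : ℝ) + 1) ^ 14 * |δ v| ≤ η) :
    ∃ y : V → V → ℝ, (∀ v w, y v w = y w v) ∧ (∀ v w, |y v w - y0 v w| ≤ 14 * η) ∧
      (∀ v, v ∉ D → ∑ w ∈ op G side v, y v w = q) ∧
      ∀ v ∈ D, q - η ≤ ∑ w ∈ op G side v, y v w ∧ ∑ w ∈ op G side v, y v w ≤ q := by
  -- the walks
  have hw : ∀ u : V, ∃ (L : ℕ) (p : ℕ → V), L ≤ 14 ∧ (-1 : ℝ) ^ L * δ u = -|δ u| ∧ p 0 = u ∧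
      p L ∈ D ∧ ∀ i < L, (Hg G side).Adj (p i) (p (i + 1)) := by
    intro u
    by_cases hu : 0 < δ u
    · obtain ⟨p, h0, h1, h2⟩ := hD.w13 u
      refine ⟨13, p, by norm_num, ?_, h0, h1, h2⟩
      rw [abs_of_pos hu]
      norm_num
    · obtain ⟨p, h0, h1, h2⟩ := hD.w14 u
      refine ⟨14, p, le_rfl, ?_, h0, h1, h2⟩
      rw [abs_of_nonpos (not_lt.1 hu)]
      norm_num
  choose L p hL hsg hp0 hpD hpa using hw
  have hball : ∀ u : V, ∀ i ≤ L u, u ∈ bl G (p u i) 14 := by
    intro u i hi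
    have h1 := Art_mem G side (p u) (L u) (hpa u) i hi
    rw [hp0] at h1
    exact bl_symm G (bl_mono G u (le_trans hi (hL u)) h1)
  -- the sum of the residuals in a ball
  have hsum : ∀ v : V, ∑ u ∈ bl G v 14, |δ u| ≤ η := by
    intro v
    have hpos : (0 : ℝ) < ((Δ : ℝ) + 1) ^ 14 := by positivity
    have hη : 0 ≤ η := le_trans (by positivity) (hδ v)
    have h1 : ((Δ : ℝ) + 1) ^ 14 * ∑ u ∈ bl G v 14, |δ u| ≤ ((Δ : ℝ) + 1) ^ 14 * η := by
      rw [Finset.mul_sum]
      refine le_trans (Finset.sum_le_sum fun u _ => hδ u) ?_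
      rw [Finset.sum_const, nsmul_eq_mul]
      refine mul_le_mul_of_nonneg_right ?_ hη
      exact_mod_cast bl_card G Δ hG v 14
    exact le_of_mul_le_mul_left h1 hpos
  set S : V → V → V → ℝ := fun u v w => ∑ i ∈ range (L u), (-1 : ℝ) ^ (i + 1) * gg (p u) i v w
    with hS
  have hSb : ∀ u v w, |S u v w| ≤ 14 := by
    intro u v w
    calc |S u v w| ≤ ∑ i ∈ range (L u), |(-1 : ℝ) ^ (i + 1) * gg (p u) i v w| :=
          Finset.abs_sum_le_sum_abs _ _
      _ ≤ ∑ i ∈ range (L u), (1 : ℝ) := by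
          refine Finset.sum_le_sum fun i _ => ?_
          rw [abs_mul, abs_pow, abs_neg, abs_one, one_pow, one_mul, abs_of_nonneg (gg_nonneg _ _ _ _)]
          exact gg_le _ _ _ _
      _ = L u := by simp
      _ ≤ 14 := by exact_mod_cast hL u
  have hS0 : ∀ u v w, u ∉ bl G v 14 → S u v w = 0 := by
    intro u v w huv
    refine Finset.sum_eq_zero fun i hi => ?_
    have hi' := Finset.mem_range.1 hi
    have h1 : gg (p u) i v w = 0 := by
      unfold gg
      rw [if_neg]
      rintro (⟨e, _⟩ | ⟨_, e⟩)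
      · exact huv (e ▸ hball u i hi'.le)
      · exact huv (e ▸ hball u (i + 1) hi')
    rw [h1, mul_zero]
  have hStel : ∀ u v, ∑ w ∈ op G side v, S u v w =
      -(if p u 0 = v then 1 else 0) + (-1) ^ (L u) * (if p u (L u) = v then 1 else 0) :=
    fun u v => ro_tel G side (p u) (L u) (hpa u) v
  refine ⟨fun v w => y0 v w + ∑ u, δ u * S u v w, fun v w => ?_, fun v w => ?_, ?_⟩
  · show y0 v w + ∑ u, δ u * S u v w = y0 w v + ∑ u, δ u * S u w v
    rw [hsy v w]
    congr 1
    refine Finset.sum_congr rfl fun u _ => ?_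
    rw [hS]
    simp only [gg_symm (p u) _ v w]
  · show |y0 v w + ∑ u, δ u * S u v w - y0 v w| ≤ 14 * η
    rw [add_sub_cancel_left]
    have h1 : ∑ u, δ u * S u v w = ∑ u ∈ bl G v 14, δ u * S u v w := by
      symm
      refine Finset.sum_subset (subset_univ _) fun u _ hu => ?_
      rw [hS0 u v w hu, mul_zero]
    rw [h1]
    calc |∑ u ∈ bl G v 14, δ u * S u v w| ≤ ∑ u ∈ bl G v 14, |δ u * S u v w| :=
          Finset.abs_sum_le_sum_abs _ _
      _ ≤ ∑ u ∈ bl G v 14, |δ u| * 14 := by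
          refine Finset.sum_le_sum fun u _ => ?_
          rw [abs_mul]
          exact mul_le_mul_of_nonneg_left (hSb u v w) (abs_nonneg _)
      _ = 14 * ∑ u ∈ bl G v 14, |δ u| := by rw [← Finset.sum_mul, mul_comm]
      _ ≤ 14 * η := mul_le_mul_of_nonneg_left (hsum v) (by norm_num)
  · -- the sums
    have hkey : ∀ v, ∑ w ∈ op G side v, (y0 v w + ∑ u, δ u * S u v w) =
        q - ∑ u, |δ u| * (if p u (L u) = v then 1 else 0) := by
      intro v
      rw [Finset.sum_add_distrib, hsu v, Finset.sum_comm]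
      have h1 : ∀ u ∈ (univ : Finset V), ∑ w ∈ op G side v, δ u * S u v w =
          -(if u = v then δ u else 0) - |δ u| * (if p u (L u) = v then 1 else 0) := by
        intro u _
        rw [← Finset.mul_sum, hStel u v, hp0 u]
        have h2 := hsg u
        by_cases e : u = v
        · rw [if_pos e, if_pos e]
          linear_combination (if p u (L u) = v then (1 : ℝ) else 0) * h2
        · rw [if_neg e, if_neg e]
          linear_combination (if p u (L u) = v then (1 : ℝ) else 0) * h2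
      rw [Finset.sum_congr rfl h1, Finset.sum_sub_distrib, Finset.sum_neg_distrib,
        Finset.sum_ite_eq', if_pos (mem_univ v)]
      ring
    have hnn : ∀ v, 0 ≤ ∑ u, |δ u| * (if p u (L u) = v then (1 : ℝ) else 0) := fun v =>
      Finset.sum_nonneg fun u _ => mul_nonneg (abs_nonneg _) (by split_ifs <;> norm_num)
    have hle : ∀ v, ∑ u, |δ u| * (if p u (L u) = v then (1 : ℝ) else 0) ≤ η := by
      intro v
      refine le_trans ?_ (hsum v)
      have h1 : ∑ u, |δ u| * (if p u (L u) = v then (1 : ℝ) else 0) =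
          ∑ u ∈ bl G v 14, |δ u| * (if p u (L u) = v then (1 : ℝ) else 0) := by
        symm
        refine Finset.sum_subset (subset_univ _) fun u _ hu => ?_
        rw [if_neg, mul_zero]
        intro e
        exact hu (e ▸ hball u (L u) le_rfl)
      rw [h1]
      refine Finset.sum_le_sum fun u _ => ?_
      split_ifs
      · rw [mul_one]
      · rw [mul_zero]; exact abs_nonneg _
    refine ⟨fun v hv => ?_, fun v _ => ?_⟩
    · show ∑ w ∈ op G side v, (y0 v w + ∑ u, δ u * S u v w) = q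
      rw [hkey v]
      have h1 : ∑ u, |δ u| * (if p u (L u) = v then (1 : ℝ) else 0) = 0 := by
        refine Finset.sum_eq_zero fun u _ => ?_
        rw [if_neg, mul_zero]
        intro e
        exact hv (e ▸ hpD u)
      rw [h1, sub_zero]
    · show q - η ≤ ∑ w ∈ op G side v, (y0 v w + ∑ u, δ u * S u v w) ∧
        ∑ w ∈ op G side v, (y0 v w + ∑ u, δ u * S u v w) ≤ q
      rw [hkey v]
      exact ⟨by linarith [hle v], by linarith [hnn v]⟩

end Pool.Agent.H64.GI
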