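import Mathlib
import Pool.Agent.H64.GI.Adf

/-!
GAId: the weights `Xf` are symmetric and their sums at the vertices are known. Definitions: `Adf.lean`.

`xf_sym`: `sg (ω w) = - sg (ω v)` for `ω w ≠ ω v`.
`xf_sum`: let `O = op G ω v`, `d = #O ≥ 2`, `ε = sg (ω v)`. For `w ∈ O`: `ow G ω v w = O.erase w`, of size `d - 1`. So
`Zf 0 v w = ε / 2 (Δ / d - 2)`, with sum `ε (Δ / 2 - d)` over `w ∈ O`; `Zf (i + 1) v w = (∑_{u ∈ O} Zf i u v - Zf i w v) / (d - 1)`,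
with sum over `w ∈ O` equal to `T_i := ∑_{u ∈ O} Zf i u v`. Hence, with `S_i := ∑_{w ∈ O} Zf i v w`,
`∑_{w ∈ O} Xf k v w = ε ∑_{i ≤ k} (S_i - T_i)`, `S_{i+1} = T_i`, telescoping (induction on `k`): `= ε (S_0 - T_k)`.
-/

set_option autoImplicit false

namespace Pool.Agent.H64.GI

open Finset Classical
open Pool.Agent.H65.GI

private theorem Aid_sg_sq (b : Bool) : sg b * sg b = 1 := by
  cases b <;> norm_num [sg]

private theorem Aid_sg_neg (a b : Bool) (h : a ≠ b) : sg a = -sg b := by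
  cases a <;> cases b <;> simp_all [sg]

private theorem Aid_ow {V : Type} [Fintype V] (G : SimpleGraph V) (ω : V → Bool) (v w : V) :
    ow G ω v w = (op G ω v).erase w := by
  ext u
  simp only [ow, op, Finset.mem_filter, Finset.mem_univ, true_and, Finset.mem_erase]
  tauto

private theorem Aid_card {V : Type} [Fintype V] (G : SimpleGraph V) (ω : V → Bool) (v w : V)
    (hw : w ∈ op G ω v) : ((ow G ω v w).card : ℝ) = ((op G ω v).card : ℝ) - 1 := by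
  rw [Aid_ow, ← Finset.card_erase_add_one hw]
  push_cast
  ring

private theorem Aid_S0 {V : Type} [Fintype V] (G : SimpleGraph V) (Δ : ℕ) (ω : V → Bool) (v : V)
    (hd : 2 ≤ (op G ω v).card) :
    ∑ w ∈ op G ω v, Zf G Δ ω 0 v w = sg (ω v) * ((Δ : ℝ) / 2 - ((op G ω v).card : ℝ)) := by
  have hd0 : ((op G ω v).card : ℝ) ≠ 0 := by
    have h1 : (op G ω v).card ≠ 0 := by omega
    exact_mod_cast h1
  have h1 : ∀ w ∈ op G ω v, Zf G Δ ω 0 v w =
      sg (ω v) / 2 * ((Δ : ℝ) / ((op G ω v).card : ℝ) - 2) := by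
    intro w hw
    have e : (1 : ℝ) + (((op G ω v).card : ℝ) - 1) = ((op G ω v).card : ℝ) := by ring
    rw [Zf, Aid_card G ω v w hw, e]
  rw [Finset.sum_congr rfl h1, Finset.sum_const, nsmul_eq_mul]
  field_simp

private theorem Aid_S {V : Type} [Fintype V] (G : SimpleGraph V) (Δ : ℕ) (ω : V → Bool) (v : V)
    (hd : 2 ≤ (op G ω v).card) (i : ℕ) :
    ∑ w ∈ op G ω v, Zf G Δ ω (i + 1) v w = ∑ w ∈ op G ω v, Zf G Δ ω i w v := by
  have hd0 : ((op G ω v).card : ℝ) - 1 ≠ 0 := by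
    have h1 : (2 : ℝ) ≤ ((op G ω v).card : ℝ) := by exact_mod_cast hd
    linarith
  have h1 : ∀ w ∈ op G ω v, Zf G Δ ω (i + 1) v w =
      ((∑ u ∈ op G ω v, Zf G Δ ω i u v) - Zf G Δ ω i w v) / (((op G ω v).card : ℝ) - 1) := by
    intro w hw
    rw [Zf, Aid_card G ω v w hw, Aid_ow, ← Finset.add_sum_erase _ _ hw]
    congr 1
    ring
  rw [Finset.sum_congr rfl h1, ← Finset.sum_div, Finset.sum_sub_distrib, Finset.sum_const,
    nsmul_eq_mul, div_eq_iff hd0]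
  ring

private theorem Aid_tel {V : Type} [Fintype V] (G : SimpleGraph V) (Δ : ℕ) (ω : V → Bool) (v : V)
    (hd : 2 ≤ (op G ω v).card) (k : ℕ) :
    ∑ i ∈ range (k + 1), (∑ w ∈ op G ω v, Zf G Δ ω i v w - ∑ w ∈ op G ω v, Zf G Δ ω i w v) =
      sg (ω v) * ((Δ : ℝ) / 2 - ((op G ω v).card : ℝ)) - ∑ w ∈ op G ω v, Zf G Δ ω k w v := by
  induction k with
  | zero =>
    rw [Finset.sum_range_one, Aid_S0 G Δ ω v hd]
  | succ k ih =>
    rw [Finset.sum_range_succ, ih, Aid_S G Δ ω v hd k]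
    ring

theorem xf_sym {V : Type} [Fintype V] (G : SimpleGraph V) (Δ : ℕ) (ω : V → Bool) (k : ℕ) (v w : V)
    (h : ω w ≠ ω v) : Xf G Δ ω k v w = Xf G Δ ω k w v := by
  unfold Xf
  rw [Aid_sg_neg _ _ h, neg_mul, ← mul_neg, ← Finset.sum_neg_distrib]
  congr 1
  apply Finset.sum_congr rfl
  intro i _
  ring

theorem xf_sum {V : Type} [Fintype V] (G : SimpleGraph V) (Δ : ℕ) (ω : V → Bool) (k : ℕ) (v : V)
    (hd : 2 ≤ (op G ω v).card) :
    ∑ w ∈ op G ω v, (1 + Xf G Δ ω k v w) =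
      (Δ : ℝ) / 2 - sg (ω v) * ∑ w ∈ op G ω v, Zf G Δ ω k w v := by
  have h1 : ∑ w ∈ op G ω v, (1 + Xf G Δ ω k v w) = ((op G ω v).card : ℝ) +
      sg (ω v) * ∑ i ∈ range (k + 1),
        (∑ w ∈ op G ω v, Zf G Δ ω i v w - ∑ w ∈ op G ω v, Zf G Δ ω i w v) := by
    have e : ∀ i, (∑ w ∈ op G ω v, Zf G Δ ω i v w - ∑ w ∈ op G ω v, Zf G Δ ω i w v) =
        ∑ w ∈ op G ω v, (Zf G Δ ω i v w - Zf G Δ ω i w v) := fun i =>
      (Finset.sum_sub_distrib _ _).symm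
    rw [Finset.sum_add_distrib, Finset.sum_const, nsmul_eq_mul, mul_one]
    simp only [Xf, e]
    rw [← Finset.mul_sum, Finset.sum_comm]
  rw [h1, Aid_tel G Δ ω v hd k, mul_sub, ← mul_assoc, Aid_sg_sq]
  ring

end Pool.Agent.H64.GI
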