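import Mathlib
import Pool.Agent.H64.GI.Adf

/-!
GANu: the numerical conditions, for all large `Δ`.

`an_ee`: `EE Δ * Δ^N → 0`: with `x = Δ^(1/25) / 288`, `exp (-x) ≤ (k)! / x^k` for `k` with `k / 25 > N`
(`Real.pow_div_factorial_le_exp`), or `Real.tendsto_pow_mul_exp_neg_atTop_nhds_zero` composed with `Δ ↦ Δ^(1/25)`.
`an_two`: `(1/2)^Δ * Δ^N → 0` (`tendsto_pow_const_mul_const_pow_of_abs_lt_one`).
`an_all`: take `Δ` with `EE Δ * Δ^200 ≤ 1`, `(1/2)^Δ * Δ^200 ≤ 1`; `Δ + 3 ≤ 2 Δ`, `Δ + 1 ≤ 2 Δ`;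
`BB Δ (i + 1) ≥ Δ^(-(12/25) 32) ≥ Δ^(-16)` for `i ≤ 30`; `BB Δ 0 = Δ^(-12/25) → 0`; `Δ^14 (Δ BB Δ 31) = Δ^(15 - 384/25) = Δ^(-9/25) → 0`.
(C1): `3 (Δ / 2 (Δ + 3)^i EE) ≤ 2 Δ (2 Δ)^30 Δ^(-200) ≤ Δ^(-17)`, ... (C2): `4 * 33 Δ (2 Δ)^31 Δ^(-200) (2 Δ)^64 ≤ 1`.
-/

set_option autoImplicit false

namespace Pool.Agent.H64.GI

open Finset Classical
open Pool.Agent.H65.GI

theorem an_ee (N : ℕ) : ∃ Δ0 : ℕ, ∀ Δ : ℕ, Δ0 ≤ Δ → EE Δ * (Δ : ℝ) ^ N ≤ 1 := by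
  have h1 : Filter.Tendsto (fun Δ : ℕ => (Δ : ℝ) ^ (1 / 25 : ℝ) / 288) Filter.atTop Filter.atTop :=
    ((tendsto_rpow_atTop (by norm_num : (0 : ℝ) < 1 / 25)).comp
      tendsto_natCast_atTop_atTop).atTop_div_const (by norm_num)
  have h2 := (Real.tendsto_pow_mul_exp_neg_atTop_nhds_zero (25 * N)).comp h1
  have h3 := h2.const_mul (2 * (288 : ℝ) ^ (25 * N))
  rw [mul_zero] at h3
  have h4 := h3.eventually (gt_mem_nhds (zero_lt_one : (0 : ℝ) < 1))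
  obtain ⟨Δ0, hΔ0⟩ := Filter.eventually_atTop.1 h4
  refine ⟨Δ0, fun Δ hΔ => ?_⟩
  have h5 := hΔ0 Δ hΔ
  simp only [Function.comp] at h5
  have h6 : (Δ : ℝ) ^ N = ((Δ : ℝ) ^ (1 / 25 : ℝ)) ^ (25 * N) := by
    rw [pow_mul, ← Real.rpow_natCast ((Δ : ℝ) ^ (1 / 25 : ℝ)) 25, ← Real.rpow_mul (Nat.cast_nonneg Δ)]
    norm_num
  have h7 : EE Δ * (Δ : ℝ) ^ N = 2 * (288 : ℝ) ^ (25 * N) *
      (((Δ : ℝ) ^ (1 / 25 : ℝ) / 288) ^ (25 * N) * Real.exp (-((Δ : ℝ) ^ (1 / 25 : ℝ) / 288))) := by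
    rw [h6, EE, div_pow]
    have h8 : (288 : ℝ) ^ (25 * N) ≠ 0 := by positivity
    field_simp
  rw [h7]
  exact h5.le

theorem an_two (N : ℕ) : ∃ Δ0 : ℕ, ∀ Δ : ℕ, Δ0 ≤ Δ → (1 / 2 : ℝ) ^ Δ * (Δ : ℝ) ^ N ≤ 1 := by
  have h1 := tendsto_pow_const_mul_const_pow_of_abs_lt_one N
    (show |(1 / 2 : ℝ)| < 1 by rw [abs_of_pos (by norm_num)]; norm_num)
  have h4 := h1.eventually (gt_mem_nhds (zero_lt_one : (0 : ℝ) < 1))
  obtain ⟨Δ0, hΔ0⟩ := Filter.eventually_atTop.1 h4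
  refine ⟨Δ0, fun Δ hΔ => ?_⟩
  have h5 := hΔ0 Δ hΔ
  rw [mul_comm]
  exact h5.le

private theorem Anu_neg {c : ℝ} (hc : 0 < c) {e : ℝ} (he : 0 < e) :
    ∃ Δ0 : ℕ, ∀ Δ : ℕ, Δ0 ≤ Δ → (Δ : ℝ) ^ (-c) ≤ e := by
  have h1 := (tendsto_rpow_neg_atTop hc).comp (tendsto_natCast_atTop_atTop (R := ℝ))
  have h4 := h1.eventually (gt_mem_nhds he)
  obtain ⟨Δ0, hΔ0⟩ := Filter.eventually_atTop.1 h4
  exact ⟨Δ0, fun Δ hΔ => (hΔ0 Δ hΔ).le⟩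

theorem an_all : ∃ Δ0 : ℕ, ∀ Δ : ℕ, Δ0 ≤ Δ → 100 ≤ Δ ∧
    (∀ i ≤ 30, 3 * ((Δ : ℝ) / 2 * (((Δ : ℝ) + 3) ^ i * EE Δ)) + (1 / 2) ^ Δ ≤
      BB Δ (i + 1) / 2) ∧
    4 * ((Δ : ℝ) * (EE Δ + 32 * (((Δ : ℝ) + 3) ^ 31 * EE Δ))) * ((Δ : ℝ) + 1) ^ (2 * 32) ≤ 1 ∧
    64 * BB Δ 0 ≤ 1 / 4 ∧ (∀ i ≤ 31, BB Δ i ≤ BB Δ 0) ∧
    (Δ : ℝ) ^ 14 * (Δ * BB Δ 31) ≤ 1 / 1000 := by
  obtain ⟨D1, h1⟩ := an_ee 200
  obtain ⟨D2, h2⟩ := an_two 200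
  obtain ⟨D3, h3⟩ := Anu_neg (show (0 : ℝ) < 12 / 25 by norm_num) (show (0 : ℝ) < 1 / 256 by norm_num)
  obtain ⟨D4, h4⟩ := Anu_neg (show (0 : ℝ) < 9 / 25 by norm_num) (show (0 : ℝ) < 1 / 1000 by norm_num)
  refine ⟨max 100 (max (max D1 D2) (max D3 D4)), fun Δ hΔ => ?_⟩
  have g0 : 100 ≤ Δ := (le_max_left _ _).trans hΔ
  have g1 := h1 Δ (((le_max_left _ _).trans (le_max_left _ _)).trans ((le_max_right _ _).trans hΔ))
  have g2 := h2 Δ (((le_max_right _ _).trans (le_max_left _ _)).trans ((le_max_right _ _).trans hΔ))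
  have g3 := h3 Δ (((le_max_left _ _).trans (le_max_right _ _)).trans ((le_max_right _ _).trans hΔ))
  have g4 := h4 Δ (((le_max_right _ _).trans (le_max_right _ _)).trans ((le_max_right _ _).trans hΔ))
  have hBB : ∀ i : ℕ, BB Δ i = (Δ : ℝ) ^ (-(12 / 25 : ℝ) * (i + 1)) := fun _ => rfl
  have hE0 : 0 ≤ EE Δ := by
    unfold EE
    positivity
  have hq0 : (0 : ℝ) ≤ (1 / 2) ^ Δ := by positivity
  obtain ⟨D, hD⟩ : ∃ D : ℝ, D = (Δ : ℝ) := ⟨_, rfl⟩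
  have hD100 : (100 : ℝ) ≤ D := by
    rw [hD]
    exact_mod_cast g0
  have hD1 : (1 : ℝ) ≤ D := by linarith
  have hD0 : (0 : ℝ) < D := by linarith
  obtain ⟨e, he⟩ : ∃ e : ℝ, e = EE Δ := ⟨_, rfl⟩
  obtain ⟨q, hq⟩ : ∃ q : ℝ, q = (1 / 2 : ℝ) ^ Δ := ⟨_, rfl⟩
  simp only [hBB]
  rw [← hD] at g1 g2 g3 g4
  rw [← he] at g1 hE0
  rw [← hq] at g2 hq0
  rw [← hD, ← he, ← hq]
  have h2D : D + 3 ≤ 2 * D := by linarith
  have h2D' : D + 1 ≤ 2 * D := by linarith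
  have h12D : (1 : ℝ) ≤ 2 * D := by linarith
  have hD200 : (0 : ℝ) < D ^ 200 := by positivity
  have hD5 : (2 : ℝ) ^ 30 ≤ D ^ 5 :=
    le_trans (by norm_num : (2 : ℝ) ^ 30 ≤ 100 ^ 5) (pow_le_pow_left₀ (by norm_num) hD100 5)
  have hD15 : (2 : ℝ) ^ 95 ≤ D ^ 15 :=
    le_trans (by norm_num : (2 : ℝ) ^ 95 ≤ 100 ^ 15) (pow_le_pow_left₀ (by norm_num) hD100 15)
  refine ⟨g0, ?_, ?_, ?_, ?_, ?_⟩
  · intro i hi
    have hB : D ^ (-(16 : ℝ)) ≤ D ^ (-(12 / 25 : ℝ) * (((i + 1 : ℕ) : ℝ) + 1)) := by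
      apply Real.rpow_le_rpow_of_exponent_le hD1
      have hi' : (i : ℝ) ≤ 30 := by exact_mod_cast hi
      push_cast
      nlinarith
    have hB' : (D ^ 16)⁻¹ ≤ D ^ (-(12 / 25 : ℝ) * (((i + 1 : ℕ) : ℝ) + 1)) := by
      refine le_trans (le_of_eq ?_) hB
      rw [Real.rpow_neg hD0.le]
      congr 1
      exact_mod_cast (Real.rpow_natCast D 16).symm
    refine le_trans ?_ (div_le_div_of_nonneg_right hB' (by norm_num : (0 : ℝ) ≤ 2))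
    have hp : (D + 3) ^ i ≤ D ^ 35 := by
      calc (D + 3) ^ i ≤ (2 * D) ^ i := pow_le_pow_left₀ (by linarith) h2D i
        _ ≤ (2 * D) ^ 30 := pow_le_pow_right₀ h12D hi
        _ = 2 ^ 30 * D ^ 30 := by rw [mul_pow]
        _ ≤ D ^ 5 * D ^ 30 := mul_le_mul_of_nonneg_right hD5 (by positivity)
        _ = D ^ 35 := by ring
    have hpe : D / 2 * ((D + 3) ^ i * e) ≤ D / 2 * (D ^ 35 * e) :=
      mul_le_mul_of_nonneg_left (mul_le_mul_of_nonneg_right hp hE0) (by positivity)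
    have hee : e ≤ (D ^ 200)⁻¹ := by
      rw [← one_div, le_div_iff₀ hD200]
      exact g1
    have hqq : q ≤ (D ^ 200)⁻¹ := by
      rw [← one_div, le_div_iff₀ hD200]
      exact g2
    have hpe2 : D / 2 * (D ^ 35 * e) ≤ D / 2 * (D ^ 35 * (D ^ 200)⁻¹) :=
      mul_le_mul_of_nonneg_left (mul_le_mul_of_nonneg_left hee (by positivity)) (by positivity)
    have h184 : (5 : ℝ) ≤ D ^ 148 := by
      calc (5 : ℝ) ≤ D := by linarith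
        _ = D ^ 1 := (pow_one D).symm
        _ ≤ D ^ 148 := pow_le_pow_right₀ hD1 (by norm_num)
    have hfin : 3 * (D / 2 * (D ^ 35 * (D ^ 200)⁻¹)) + (D ^ 200)⁻¹ ≤ (D ^ 16)⁻¹ / 2 := by
      have e1 : 3 * (D / 2 * (D ^ 35 * (D ^ 200)⁻¹)) + (D ^ 200)⁻¹ =
          (3 / 2 * D ^ 36 + 1) * (D ^ 200)⁻¹ := by ring
      have e2 : (D ^ 16)⁻¹ / 2 = (D ^ 184 / 2) * (D ^ 200)⁻¹ := by
        have : D ^ 200 = D ^ 184 * D ^ 16 := by ring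
        rw [this]
        field_simp
      rw [e1, e2]
      refine mul_le_mul_of_nonneg_right ?_ (by positivity)
      have e3 : D ^ 184 = D ^ 36 * D ^ 148 := by ring
      have e4 : (1 : ℝ) ≤ D ^ 36 := one_le_pow₀ hD1
      rw [e3]
      nlinarith
    linarith
  · have hee : e ≤ (D ^ 200)⁻¹ := by
      rw [← one_div, le_div_iff₀ hD200]
      exact g1
    have hp : (D + 3) ^ 31 ≤ (2 * D) ^ 31 := pow_le_pow_left₀ (by linarith) h2D 31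
    have hp1 : (1 : ℝ) ≤ (2 * D) ^ 31 := one_le_pow₀ h12D
    have hr : (D + 1) ^ (2 * 32) ≤ (2 * D) ^ 64 := by
      have := pow_le_pow_left₀ (by linarith) h2D' 64
      norm_num at this ⊢
      exact this
    have s1 : e + 32 * ((D + 3) ^ 31 * e) ≤ 33 * (2 * D) ^ 31 * (D ^ 200)⁻¹ := by
      calc e + 32 * ((D + 3) ^ 31 * e) = (1 + 32 * (D + 3) ^ 31) * e := by ring
        _ ≤ (33 * (2 * D) ^ 31) * e := mul_le_mul_of_nonneg_right (by linarith) hE0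
        _ ≤ (33 * (2 * D) ^ 31) * (D ^ 200)⁻¹ := mul_le_mul_of_nonneg_left hee (by positivity)
    calc 4 * (D * (e + 32 * ((D + 3) ^ 31 * e))) * (D + 1) ^ (2 * 32) ≤
          4 * (D * (33 * (2 * D) ^ 31 * (D ^ 200)⁻¹)) * (2 * D) ^ 64 := by
          refine mul_le_mul ?_ hr (by positivity) (by positivity)
          refine mul_le_mul_of_nonneg_left (mul_le_mul_of_nonneg_left s1 hD0.le) (by norm_num)
      _ = 132 * (2 : ℝ) ^ 95 * D ^ 96 * (D ^ 200)⁻¹ := by ring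
      _ ≤ D ^ 2 * D ^ 15 * D ^ 96 * (D ^ 200)⁻¹ := by
          refine mul_le_mul_of_nonneg_right (mul_le_mul_of_nonneg_right (mul_le_mul ?_ hD15
            (by positivity) (by positivity)) (by positivity)) (by positivity)
          nlinarith
      _ = D ^ 113 * (D ^ 200)⁻¹ := by ring
      _ ≤ D ^ 200 * (D ^ 200)⁻¹ :=
          mul_le_mul_of_nonneg_right (pow_le_pow_right₀ hD1 (by norm_num)) (by positivity)
      _ = 1 := mul_inv_cancel₀ hD200.ne'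
  · have e1 : (-(12 / 25 : ℝ) * (((0 : ℕ) : ℝ) + 1)) = -(12 / 25) := by
      push_cast
      ring
    rw [e1]
    linarith
  · intro i _
    apply Real.rpow_le_rpow_of_exponent_le hD1
    have hi' : (0 : ℝ) ≤ i := Nat.cast_nonneg i
    push_cast
    nlinarith
  · have e1 : (-(12 / 25 : ℝ) * (((31 : ℕ) : ℝ) + 1)) = -(9 / 25) - 15 := by
      push_cast
      ring
    rw [e1, Real.rpow_sub hD0]
    have e2 : D ^ (15 : ℝ) = D ^ 15 := by exact_mod_cast Real.rpow_natCast D 15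
    rw [e2]
    have e3 : D ^ 14 * (D * (D ^ (-(9 / 25) : ℝ) / D ^ 15)) = D ^ (-(9 / 25) : ℝ) := by
      field_simp
    rw [e3]
    exact g4

end Pool.Agent.H64.GI
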