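import Mathlib
import Pool.Agent.H64.GI.Adf
import Pool.Agent.H64.GI.Acn

/-!
GALc: `Zf i v w` only depends on the sides in the cone, and it is bounded. Use the STATEMENTS of `Acn.lean`.

`zf_loc`: induction on `i`. `ow G ω v w` depends on `ω` at `v` and at the neighbours `u ≠ w` of `v`; these are in
`cone G w v 2` (`Nb G w v 0 w v`, `Nb G w v 1 v u`), and `cone G v u (i + 2) ⊆ cone G w v (i + 3)` by `cone_sub` (if
`ω, ω'` agree on the cone then `ow` is the same set, and the terms agree by the induction hypothesis).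
`zf_abs`: `0 < Δ / (1 + m) ≤ Δ` for `i = 0`; averages of numbers in `[- Δ / 2, Δ / 2]` for `i + 1` (and `0 / 0 = 0`).
`ow_ov`: for `u ≠ v` we have `ov {v} ω0 ω u = ω u`.
-/

set_option autoImplicit false

namespace Pool.Agent.H64.GI

open Finset Classical
open Pool.Agent.H65.GI

private lemma alc_ow {V : Type} [Fintype V] (G : SimpleGraph V) {v w : V} (h : G.Adj w v)
    (k : ℕ) {ω ω' : V → Bool} (hag : ∀ x ∈ cone G w v (k + 2), ω x = ω' x) :
    ow G ω v w = ow G ω' v w := by
  have hv : v ∈ cone G w v (k + 2) := by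
    simp only [cone, mem_filter, mem_univ, true_and]
    exact ⟨0, by omega, w, Nb.base h⟩
  have hu : ∀ u, G.Adj v u → u ≠ w → u ∈ cone G w v (k + 2) := by
    intro u h1 h2
    simp only [cone, mem_filter, mem_univ, true_and]
    exact ⟨1, by omega, v, Nb.step (Nb.base h) h1 h2⟩
  ext u
  simp only [ow, mem_filter, mem_univ, true_and]
  constructor
  · rintro ⟨h1, h2, h3⟩
    exact ⟨h1, h2, by rw [← hag u (hu u h1 h2), ← hag v hv]; exact h3⟩
  · rintro ⟨h1, h2, h3⟩
    exact ⟨h1, h2, by rw [hag u (hu u h1 h2), hag v hv]; exact h3⟩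

theorem zf_loc {V : Type} [Fintype V] (G : SimpleGraph V) (Δ : ℕ) (i : ℕ) {v w : V}
    (h : G.Adj w v) : Loc (fun ω : V → Bool => Zf G Δ ω i v w) (cone G w v (i + 2)) := by
  induction i generalizing v w with
  | zero =>
    intro ω ω' hag
    have hv : v ∈ cone G w v (0 + 2) := by
      simp only [cone, mem_filter, mem_univ, true_and]
      exact ⟨0, by omega, w, Nb.base h⟩
    simp only [Zf]
    rw [alc_ow G h 0 hag, hag v hv]
  | succ i ih =>
    intro ω ω' hag
    have h1 : ow G ω v w = ow G ω' v w := by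
      apply alc_ow G h (i + 1)
      intro x hx
      exact hag x hx
    simp only [Zf]
    rw [h1]
    congr 1
    apply Finset.sum_congr rfl
    intro u hu
    simp only [ow, mem_filter, mem_univ, true_and] at hu
    exact ih hu.1 ω ω' (fun x hx => hag x (cone_sub h hu.2.1 hx))

theorem zf_abs {V : Type} [Fintype V] (G : SimpleGraph V) (Δ : ℕ) (hΔ : 2 ≤ Δ) (ω : V → Bool)
    (i : ℕ) (v w : V) : |Zf G Δ ω i v w| ≤ (Δ : ℝ) / 2 := by
  have hD : (2 : ℝ) ≤ Δ := by exact_mod_cast hΔ
  induction i generalizing v w with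
  | zero =>
    simp only [Zf]
    have hs : |sg (ω v) / 2| = 1 / 2 := by
      unfold sg
      split_ifs <;> norm_num [abs_div]
    rw [abs_mul, hs]
    have h0 : (0 : ℝ) ≤ ((ow G ω v w).card : ℝ) := Nat.cast_nonneg _
    have h1 : 0 ≤ (Δ : ℝ) / (1 + ((ow G ω v w).card : ℝ)) := by positivity
    have h2 : (Δ : ℝ) / (1 + ((ow G ω v w).card : ℝ)) ≤ Δ :=
      div_le_self (by linarith) (by linarith)
    have h3 : |(Δ : ℝ) / (1 + ((ow G ω v w).card : ℝ)) - 2| ≤ Δ := by
      rw [abs_le]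
      constructor <;> linarith
    linarith
  | succ i ih =>
    simp only [Zf]
    rw [abs_div, Nat.abs_cast]
    have h1 : |∑ u ∈ ow G ω v w, Zf G Δ ω i u v| ≤ ((ow G ω v w).card : ℝ) * (Δ / 2) := by
      refine (Finset.abs_sum_le_sum_abs _ _).trans ?_
      rw [← nsmul_eq_mul]
      exact Finset.sum_le_card_nsmul _ _ _ (fun u _ => ih u v)
    rcases Nat.eq_zero_or_pos (ow G ω v w).card with h2 | h2
    · rw [h2, Nat.cast_zero, div_zero]
      linarith
    · have h3 : (0 : ℝ) < ((ow G ω v w).card : ℝ) := by exact_mod_cast h2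
      rw [div_le_iff₀ h3]
      linarith

theorem ow_ov {V : Type} [Fintype V] (G : SimpleGraph V) (ω0 ω : V → Bool) (v w : V) :
    ow G (ov {v} ω0 ω) v w =
      (univ.filter (fun u => G.Adj v u ∧ u ≠ w)).filter (fun u => ω u ≠ ω0 v) := by
  ext u
  simp only [ow, mem_filter, mem_univ, true_and]
  have hv : ov {v} ω0 ω v = ω0 v := by simp [ov]
  constructor
  · rintro ⟨h1, h2, h3⟩
    have hu : ov {v} ω0 ω u = ω u := by simp [ov, h1.ne']
    rw [hu, hv] at h3
    exact ⟨⟨h1, h2⟩, h3⟩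
  · rintro ⟨⟨h1, h2⟩, h3⟩
    have hu : ov {v} ω0 ω u = ω u := by simp [ov, h1.ne']
    rw [hu, hv]
    exact ⟨h1, h2, h3⟩

end Pool.Agent.H64.GI
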