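import Mathlib
import Pool.Agent.H64.GI.Alc
import Pool.Agent.H64.GI.Abm

/-!
GAZo: mean and concentration of `Zf 0`. Use the STATEMENTS of `Alc.lean` (`ow_ov`), `Abm.lean` (`bin_mean`) and `Hof.lean` (`hoef`).

Let `A = {u : G.Adj v u ∧ u ≠ w}`, `#A = Δ - 1` (`Reg`, `G.Adj v w`), `m = #(A.filter (ω u ≠ ω0 v)) = #ow` (`ow_ov`).
`zo_ex`: `Zf 0 = (ε / 2) (Δ / (1 + m) - 2)`, mean `(ε / 2) (Δ 2 (1 - 2^(-Δ)) / Δ - 2) = - ε 2^(-Δ)`.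
`zo_ow`: `hoef` with `J = A`, `f u ω = 1[ω u ≠ ω0 v]` (depends on the coordinate `u`), `n = Δ`, `c = 1`,
`t = Δ^(13/25) / 6`; the mean of each `f u` is `1 / 2` (`bin_dist` for `{u}`), so `∑ ex f = (Δ - 1) / 2`;
`2 exp (-(t² / (8 Δ))) = 2 exp (- Δ^(26/25 - 1) / 288) = EE Δ` (`Real.rpow_add`, ...).
`zo_pr`: if `|m - (Δ - 1) / 2| ≤ t = Δ^(13/25) / 6` then `1 + m ≥ Δ / 2 + 1 / 2 - Δ / 6 ≥ Δ / 3` and
`|Zf 0| = |Δ - 2 - 2 m| / (2 (1 + m)) ≤ (2 t + 1) * 3 / (2 Δ) = Δ^(-12/25) / 2 + 3 / (2 Δ) ≤ Δ^(-12/25) = BB Δ 0`, since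
`3 ≤ Δ^(13/25)`. Hence the event is contained in that of `zo_ow`.
`zo_big`: the same inclusion gives `#ow ≥ (Δ - 1) / 2 - Δ^(13/25) / 6 ≥ Δ / 3` for `Δ ≥ 9`, `3 ≤ Δ^(13/25)`
(if `Δ ≥ 100` then `Δ^(13/25) / 6 ≤ Δ / 12`: `Δ^(12/25) ≥ 2`; the hypothesis `100 ≤ Δ` is enough for everything).
-/

set_option autoImplicit false

namespace Pool.Agent.H64.GI

open Finset Classical
open Pool.Agent.H65.GI

variable {V : Type} [Fintype V] (G : SimpleGraph V) (Δ : ℕ)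

theorem Azo_card (hG : Reg G Δ) {v w : V} (h : G.Adj v w) :
    (((univ.filter (fun u => G.Adj v u ∧ u ≠ w)).card : ℕ) : ℝ) = (Δ : ℝ) - 1 := by
  have h1 : univ.filter (fun u => G.Adj v u ∧ u ≠ w) =
      (univ.filter (fun u => G.Adj v u)).erase w := by
    ext u
    rw [Finset.mem_filter, Finset.mem_erase, Finset.mem_filter]
    tauto
  have hw : w ∈ univ.filter (fun u => G.Adj v u) :=
    Finset.mem_filter.2 ⟨Finset.mem_univ _, h⟩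
  rw [h1, Finset.card_erase_of_mem hw, Nat.cast_sub (Finset.card_pos.2 ⟨w, hw⟩), hG v,
    Nat.cast_one]

theorem Azo_sg (b : Bool) : |sg b| = 1 := by
  unfold sg
  split_ifs <;> simp

theorem Azo_zf (ω0 ω : V → Bool) (v w : V) :
    Zf G Δ (ov {v} ω0 ω) 0 v w = sg (ω0 v) / 2 * (Δ / (1 +
      ((((univ.filter (fun u => G.Adj v u ∧ u ≠ w)).filter (fun u => ω u ≠ ω0 v)).card : ℕ) : ℝ))
        - 2) := by
  show sg (ov {v} ω0 ω v) / 2 * (Δ / (1 + ((ow G (ov {v} ω0 ω) v w).card : ℝ)) - 2) = _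
  rw [ow_ov]
  have h1 : ov {v} ω0 ω v = ω0 v := by
    unfold ov
    rw [if_pos (Finset.mem_singleton_self v)]
  rw [h1]

theorem zo_ex (hΔ : 1 ≤ Δ) (hG : Reg G Δ) {v w : V} (h : G.Adj v w) (ω0 : V → Bool) :
    |ex (fun ω => Zf G Δ (ov {v} ω0 ω) 0 v w)| ≤ (1 / 2) ^ Δ := by
  have hΔ' : (0 : ℝ) < Δ := by exact_mod_cast hΔ
  have hc : (univ.filter (fun u => G.Adj v u ∧ u ≠ w)).card + 1 = Δ := by
    have h1 := Azo_card G Δ hG h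
    have h2 : (((univ.filter (fun u => G.Adj v u ∧ u ≠ w)).card + 1 : ℕ) : ℝ) = (Δ : ℝ) := by
      push_cast
      rw [h1]
      ring
    exact_mod_cast h2
  have h1 : ex (fun ω => Zf G Δ (ov {v} ω0 ω) 0 v w) =
      ex (fun ω : V → Bool => sg (ω0 v) / 2 * Δ * (1 / (1 +
        ((((univ.filter (fun u => G.Adj v u ∧ u ≠ w)).filter (fun u => ω u ≠ ω0 v)).card : ℕ)
          : ℝ))) + -sg (ω0 v)) := by
    congr 1
    funext ω
    rw [Azo_zf]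
    ring
  rw [h1, ex_add (fun ω : V → Bool => sg (ω0 v) / 2 * Δ * (1 / (1 +
        ((((univ.filter (fun u => G.Adj v u ∧ u ≠ w)).filter (fun u => ω u ≠ ω0 v)).card : ℕ)
          : ℝ)))) (fun _ => -sg (ω0 v)), ex_const, ex_smul, bin_mean, hc]
  have h2 : (((univ.filter (fun u => G.Adj v u ∧ u ≠ w)).card : ℕ) : ℝ) + 1 = Δ := by
    exact_mod_cast hc
  rw [h2]
  have h3 : sg (ω0 v) / 2 * Δ * (2 * (1 - (1 / 2) ^ Δ) / Δ) + -sg (ω0 v) =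
      -(sg (ω0 v) * (1 / 2) ^ Δ) := by
    field_simp
    ring
  rw [h3, abs_neg, abs_mul, Azo_sg, one_mul, abs_of_pos (by positivity)]

theorem Azo_half (u : V) (b : Bool) :
    ex (fun ω : V → Bool => if ω u ≠ b then (1 : ℝ) else 0) = 1 / 2 := by
  have h1 := bin_dist ({u} : Finset V) b (fun S => (S.card : ℝ))
  have h2 : (fun ω : V → Bool => if ω u ≠ b then (1 : ℝ) else 0) =
      fun ω : V → Bool => ((({u} : Finset V).filter (fun x => ω x ≠ b)).card : ℝ) := by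
    funext ω
    by_cases h : ω u ≠ b
    · rw [if_pos h, Finset.filter_true_of_mem (fun x hx => by
        rw [Finset.mem_singleton.1 hx]; exact h)]
      simp
    · rw [if_neg h, Finset.filter_false_of_mem (fun x hx => by
        rw [Finset.mem_singleton.1 hx]; exact h)]
      simp
  rw [h2, h1]
  have h3 : (({u} : Finset V)).powerset = {∅, {u}} := by
    ext S
    rw [Finset.mem_powerset, Finset.subset_singleton_iff, Finset.mem_insert,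
      Finset.mem_singleton]
  rw [h3, Finset.sum_pair (by
    intro h
    exact Finset.singleton_ne_empty u h.symm)]
  simp

theorem Azo_y (hΔ : 1 ≤ Δ) : 0 < (Δ : ℝ) ^ (13 / 25 : ℝ) ∧
    ((Δ : ℝ) ^ (13 / 25 : ℝ)) ^ 2 = Δ * (Δ : ℝ) ^ (1 / 25 : ℝ) ∧
    BB Δ 0 = (Δ : ℝ) ^ (13 / 25 : ℝ) / Δ ∧ ((Δ : ℝ) ^ (13 / 25 : ℝ)) ^ 25 = (Δ : ℝ) ^ 13 := by
  have hΔ' : (0 : ℝ) < Δ := by exact_mod_cast hΔ
  refine ⟨Real.rpow_pos_of_pos hΔ' _, ?_, ?_, ?_⟩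
  · rw [sq, ← Real.rpow_add hΔ']
    have h1 : (13 / 25 : ℝ) + 13 / 25 = 1 + 1 / 25 := by norm_num
    rw [h1, Real.rpow_add hΔ', Real.rpow_one]
  · unfold BB
    have h1 : (-(12 / 25 : ℝ) * (((0 : ℕ) : ℝ) + 1)) = 13 / 25 - 1 := by
      push_cast
      norm_num
    rw [h1, Real.rpow_sub hΔ', Real.rpow_one]
  · rw [← Real.rpow_natCast, ← Real.rpow_mul hΔ'.le, ← Real.rpow_natCast]
    congr 1
    norm_num

theorem Azo_y2 (hΔ : 100 ≤ Δ) : 10 ≤ (Δ : ℝ) ^ (13 / 25 : ℝ) ∧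
    (Δ : ℝ) ^ (13 / 25 : ℝ) ≤ Δ / 2 := by
  obtain ⟨h0, -, -, h3⟩ := Azo_y Δ (by omega)
  have hΔ' : (100 : ℝ) ≤ Δ := by exact_mod_cast hΔ
  constructor
  · by_contra h
    push Not at h
    have h1 : ((Δ : ℝ) ^ (13 / 25 : ℝ)) ^ 25 < (10 : ℝ) ^ 25 :=
      pow_lt_pow_left₀ h h0.le (by norm_num)
    rw [h3] at h1
    have h2 : (100 : ℝ) ^ 13 ≤ (Δ : ℝ) ^ 13 := pow_le_pow_left₀ (by norm_num) hΔ' 13
    have h4 : (10 : ℝ) ^ 25 ≤ (100 : ℝ) ^ 13 := by norm_num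
    linarith
  · by_contra h
    push Not at h
    have h1 : ((Δ : ℝ) / 2) ^ 25 < ((Δ : ℝ) ^ (13 / 25 : ℝ)) ^ 25 :=
      pow_lt_pow_left₀ h (by positivity) (by norm_num)
    rw [h3] at h1
    have h2 : (100 : ℝ) ^ 12 ≤ (Δ : ℝ) ^ 12 := pow_le_pow_left₀ (by norm_num) hΔ' 12
    have h4 : (2 : ℝ) ^ 25 ≤ (100 : ℝ) ^ 12 := by norm_num
    have h5 : ((Δ : ℝ) / 2) ^ 25 = (Δ : ℝ) ^ 13 * ((Δ : ℝ) ^ 12 / 2 ^ 25) := by ring
    rw [h5] at h1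
    have h6 : (1 : ℝ) ≤ (Δ : ℝ) ^ 12 / 2 ^ 25 := by
      rw [le_div_iff₀ (by positivity)]
      linarith
    have h7 : (0 : ℝ) < (Δ : ℝ) ^ 13 := by positivity
    nlinarith

theorem zo_ow (hΔ : 1 ≤ Δ) (hG : Reg G Δ) {v w : V} (h : G.Adj v w) (ω0 : V → Bool) :
    pr (fun ω => (Δ : ℝ) ^ (13 / 25 : ℝ) / 6 <
      |((ow G (ov {v} ω0 ω) v w).card : ℝ) - ((Δ : ℝ) - 1) / 2|) ≤ EE Δ := by
  have hΔ' : (0 : ℝ) < Δ := by exact_mod_cast hΔ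
  obtain ⟨hy, hy2, -, -⟩ := Azo_y Δ hΔ
  have hcR := Azo_card G Δ hG h
  have hcn : (univ.filter (fun u => G.Adj v u ∧ u ≠ w)).card ≤ Δ := by
    have h1 : (((univ.filter (fun u => G.Adj v u ∧ u ≠ w)).card : ℕ) : ℝ) ≤ (Δ : ℝ) := by
      rw [hcR]; linarith
    exact_mod_cast h1
  have h1 := hoef (univ.filter (fun u => G.Adj v u ∧ u ≠ w))
    (fun u (ω : V → Bool) => if ω u ≠ ω0 v then (1 : ℝ) else 0) (fun u => {u})
    (by
      intro u _ ω ω' hh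
      show (if ω u ≠ ω0 v then (1 : ℝ) else 0) = if ω' u ≠ ω0 v then (1 : ℝ) else 0
      rw [hh u (Finset.mem_singleton_self u)])
    (by
      intro i _ j _ hij
      exact Finset.disjoint_singleton.2 hij)
    Δ hΔ hcn 1 zero_le_one
    (by
      intro u _ ω
      show |(if ω u ≠ ω0 v then (1 : ℝ) else 0)| ≤ 1
      split_ifs <;> simp)
    ((Δ : ℝ) ^ (13 / 25 : ℝ) / 6) (by positivity)
  have h2 : ∑ u ∈ univ.filter (fun u => G.Adj v u ∧ u ≠ w),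
      ex (fun ω : V → Bool => if ω u ≠ ω0 v then (1 : ℝ) else 0) = ((Δ : ℝ) - 1) / 2 := by
    rw [Finset.sum_congr rfl fun u _ => Azo_half u (ω0 v), Finset.sum_const, nsmul_eq_mul, hcR]
    ring
  have h3 : ((Δ : ℝ) ^ (13 / 25 : ℝ) / 6) ^ 2 / (8 * Δ * 1 ^ 2) =
      (Δ : ℝ) ^ (1 / 25 : ℝ) / 288 := by
    rw [div_pow, hy2]
    field_simp
    ring
  rw [h2, h3] at h1
  unfold EE
  refine le_trans (pr_mono ?_) h1
  intro ω hω
  rw [ow_ov] at hω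
  have h4 : ∑ u ∈ univ.filter (fun u => G.Adj v u ∧ u ≠ w),
      (if ω u ≠ ω0 v then (1 : ℝ) else 0) =
      ((((univ.filter (fun u => G.Adj v u ∧ u ≠ w)).filter (fun u => ω u ≠ ω0 v)).card : ℕ)
        : ℝ) := Finset.sum_boole _ _
  rw [h4]
  exact hω

theorem zo_pr (hΔ : 100 ≤ Δ) (hG : Reg G Δ) {v w : V} (h : G.Adj v w) (ω0 : V → Bool) :
    pr (fun ω => BB Δ 0 < |Zf G Δ (ov {v} ω0 ω) 0 v w|) ≤ EE Δ := by
  have hΔ' : (100 : ℝ) ≤ Δ := by exact_mod_cast hΔ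
  obtain ⟨hy, -, hB, -⟩ := Azo_y Δ (by omega)
  obtain ⟨hy1, hy2⟩ := Azo_y2 Δ hΔ
  refine le_trans (pr_mono ?_) (zo_ow G Δ (by omega) hG h ω0)
  intro ω hω
  by_contra hc
  rw [not_lt, ow_ov] at hc
  rw [hB, Azo_zf] at hω
  set m : ℝ := ((((univ.filter (fun u => G.Adj v u ∧ u ≠ w)).filter
    (fun u => ω u ≠ ω0 v)).card : ℕ) : ℝ) with hm
  set y : ℝ := (Δ : ℝ) ^ (13 / 25 : ℝ) with hyd
  have hc' := abs_le.1 hc
  have h1 : (Δ : ℝ) / 3 ≤ 1 + m := by linarith [hc'.1]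
  have h1p : 0 < 1 + m := by linarith
  have h2 : |sg (ω0 v) / 2 * (Δ / (1 + m) - 2)| = |Δ - 2 - 2 * m| / (2 * (1 + m)) := by
    rw [abs_mul, abs_div, Azo_sg, abs_of_pos (by norm_num : (0 : ℝ) < 2)]
    have h3 : (Δ : ℝ) / (1 + m) - 2 = (Δ - 2 - 2 * m) / (1 + m) := by
      field_simp
      ring
    rw [h3, abs_div, abs_of_pos h1p]
    field_simp
  rw [h2] at hω
  have h4 : |(Δ : ℝ) - 2 - 2 * m| ≤ y / 3 + 1 := by
    rw [abs_le]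
    constructor
    · linarith [hc'.1, hc'.2]
    · linarith [hc'.1, hc'.2]
  have h5 : |(Δ : ℝ) - 2 - 2 * m| / (2 * (1 + m)) ≤ y / Δ := by
    rw [div_le_div_iff₀ (by linarith) (by linarith)]
    have h6 : |(Δ : ℝ) - 2 - 2 * m| * Δ ≤ (y / 3 + 1) * Δ :=
      mul_le_mul_of_nonneg_right h4 (by linarith)
    have h7 : y * (2 * (Δ / 3)) ≤ y * (2 * (1 + m)) :=
      mul_le_mul_of_nonneg_left (by linarith) (by linarith)
    nlinarith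
  linarith

theorem zo_big (hΔ : 100 ≤ Δ) (hG : Reg G Δ) {v w : V} (h : G.Adj v w) (ω0 : V → Bool) :
    pr (fun ω => ((ow G (ov {v} ω0 ω) v w).card : ℝ) < (Δ : ℝ) / 3) ≤ EE Δ := by
  have hΔ' : (100 : ℝ) ≤ Δ := by exact_mod_cast hΔ
  obtain ⟨hy1, hy2⟩ := Azo_y2 Δ hΔ
  refine le_trans (pr_mono ?_) (zo_ow G Δ (by omega) hG h ω0)
  intro ω hω
  by_contra hc
  rw [not_lt] at hc
  have hc' := (abs_le.1 hc).1
  linarith

end Pool.Agent.H64.GI
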