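import Mathlib
import Pool.Agent.H64.GI.Azo

/-!
GAZs: the step from `Zf i` to `Zf (i + 1)`. Use the STATEMENTS of `Azo.lean` (`zo_big`), `Alc.lean` (`zf_loc`, `zf_abs`, `ow_ov`),
`Acn.lean` (`cone_*`), `Cnd.lean` (`cond_ex`, `cond_pr'`, `pr_or`, ...), `Hof.lean` (`hoefT`).

Let `S = insert v (univ.filter (G.Adj v))` (as a finset), `C u = cone G v u (i + 2)`, `i + 2 ≤ 33`.
(1) For `u` adjacent to `v`: `C u ∩ S = {u}` (`cone_ne`: `v ∉ C u`; `cone_adj`: a neighbour of `v` in `C u` is `u`), so by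
`zf_loc`: `Zf (ov S ω1 ω) i u v = Zf (ov {u} ω1 ω) i u v`, and this function of `ω` is `Loc` on `C u`; the sets `C u` are
disjoint (`cone_dis`).
(2) For all `ω1`: `ov {v} ω0 (ov S ω1 ω) = ov S (ov {v} ω0 ω1) ω` (as `v ∈ S`), and with `ω2 := ov {v} ω0 ω1`,
`O := ow G ω2 v w`: `ow G (ov S ω2 ω) v w = O` (all sides that matter are in `S`), so
`Zf (ov S ω2 ω) (i + 1) v w = (∑_{u ∈ O} f u ω) / #O` with `f u ω := Zf (ov S ω2 ω) i u v = Zf (ov {u} ω2 ω) i u v`.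
`zs_ex`: `cond_ex` with the constant set `S`: the mean is the mean over `ω1` of `(∑_{u ∈ O} ex (f u)) / #O`, each `|ex (f u)| ≤ e`
(`ex_abs`, `ex_mono`; `G.Adj u v`).
`zs_pr`: the event is contained in `A ∨ B` with `A := (#ow < Δ / 3)` and `B := (Δ / 3 ≤ #ow ∧ BB (i + 1) < |Zf (i + 1)|)`
(at `ov {v} ω0 ω`). `pr A ≤ EE Δ` (`zo_big`). For `B` use `cond_pr'` with the set `S`: for fixed `ω1` either `#O < Δ / 3` and
the event is impossible, or apply `hoefT` with `J = O`, `n = Δ`, `c = BB Δ i`, `M = Δ / 2`, `t = Δ^(13/25) / 6 * BB Δ i` (for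
`BB Δ i > 0`): `t² / (8 Δ c²) = Δ^(1/25) / 288`. Outside of this event (of probability `≤ EE Δ + Δ p`):
`|∑ f u| ≤ t + Δ (Δ / 2 * p) + #O e`, so `|Zf (i + 1)| ≤ 3 t / Δ + 3 (Δ / 2 * p) + e ≤ BB (i + 1) / 2 + BB (i + 1) / 2`, since
`3 t / Δ = Δ^(13/25 - 1) / 2 * BB Δ i = BB Δ (i + 1) / 2`.
-/

set_option autoImplicit false

namespace Pool.Agent.H64.GI

open Finset Classical
open Pool.Agent.H65.GI

variable {V : Type} [Fintype V] (G : SimpleGraph V) (Δ : ℕ)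

private theorem zs_one (ht : TL G 33) (i : ℕ) (hi : i + 2 ≤ 33) {v u : V} (hvu : G.Adj v u)
    (ω1 ω : V → Bool) :
    Zf G Δ (ov (insert v (univ.filter (fun x => G.Adj v x))) ω1 ω) i u v =
      Zf G Δ (ov {u} ω1 ω) i u v := by
  refine zf_loc G Δ i hvu _ _ ?_
  intro x hx
  have hxv : x ≠ v := by
    rintro rfl
    exact cone_ne ht hi hx
  unfold ov
  by_cases hxu : x = u
  · subst hxu
    rw [if_pos (by simp [hvu]), if_pos (by simp)]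
  · have hna : ¬ G.Adj v x := fun ha => hxu (cone_adj ht hi hx ha)
    rw [if_neg (by simp [hxv, hna]), if_neg (by simp [hxu])]

private theorem zs_loc1 (i : ℕ) {v u : V} (hvu : G.Adj v u) (ω1 : V → Bool) :
    Loc (fun ω => Zf G Δ (ov {u} ω1 ω) i u v) (cone G v u (i + 2)) := by
  intro ω ω' hag
  refine zf_loc G Δ i hvu _ _ ?_
  intro x hx
  unfold ov
  by_cases hxu : x = u
  · rw [if_pos (by simp [hxu]), if_pos (by simp [hxu])]
  · rw [if_neg (by simp [hxu]), if_neg (by simp [hxu])]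
    exact hag x hx

private theorem zs_ov (v : V) (S : Finset V) (hv : v ∈ S) (ω0 ω1 ω : V → Bool) :
    ov {v} ω0 (ov S ω1 ω) = ov S (ov {v} ω0 ω1) ω := by
  funext x
  unfold ov
  by_cases hx : x = v
  · subst hx
    simp [hv]
  · by_cases hS : x ∈ S
    · simp [hx, hS]
    · simp [hx, hS]

private theorem zs_ow (v w : V) (ω2 ω : V → Bool) :
    ow G (ov (insert v (univ.filter (fun x => G.Adj v x))) ω2 ω) v w = ow G ω2 v w := by
  unfold ow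
  apply filter_congr
  intro u _
  constructor
  · rintro ⟨h1, h2, h3⟩
    refine ⟨h1, h2, ?_⟩
    unfold ov at h3
    rwa [if_pos (by simp [h1]), if_pos (by simp)] at h3
  · rintro ⟨h1, h2, h3⟩
    refine ⟨h1, h2, ?_⟩
    unfold ov
    rwa [if_pos (by simp [h1]), if_pos (by simp)]

private theorem zs_step (ht : TL G 33) (i : ℕ) (hi : i + 2 ≤ 33) (v w : V) (ω0 ω1 ω : V → Bool) :
    Zf G Δ (ov {v} ω0 (ov (insert v (univ.filter (fun x => G.Adj v x))) ω1 ω)) (i + 1) v w =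
      (∑ u ∈ ow G (ov {v} ω0 ω1) v w, Zf G Δ (ov {u} (ov {v} ω0 ω1) ω) i u v) /
        ((ow G (ov {v} ω0 ω1) v w).card : ℝ) := by
  rw [zs_ov v _ (mem_insert_self _ _)]
  show (∑ u ∈ ow G (ov (insert v (univ.filter (fun x => G.Adj v x))) (ov {v} ω0 ω1) ω) v w,
      Zf G Δ (ov (insert v (univ.filter (fun x => G.Adj v x))) (ov {v} ω0 ω1) ω) i u v) /
      ((ow G (ov (insert v (univ.filter (fun x => G.Adj v x))) (ov {v} ω0 ω1) ω) v w).card : ℝ) = _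
  rw [zs_ow]
  congr 1
  apply sum_congr rfl
  intro u hu
  have hvu : G.Adj v u := by
    unfold ow at hu
    exact (mem_filter.1 hu).2.1
  exact zs_one G Δ ht i hi hvu _ _

private theorem zs_adj {v w u : V} {ω : V → Bool} (hu : u ∈ ow G ω v w) : G.Adj v u := by
  unfold ow at hu
  exact (mem_filter.1 hu).2.1

private theorem zs_avg {ι : Type} (O : Finset ι) (f : ι → ℝ) (e : ℝ) (he : 0 ≤ e)
    (h : ∀ u ∈ O, |f u| ≤ e) : |(∑ u ∈ O, f u) / (O.card : ℝ)| ≤ e := by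
  have h1 : |∑ u ∈ O, f u| ≤ O.card * e := by
    refine (abs_sum_le_sum_abs _ _).trans ?_
    refine (sum_le_sum h).trans ?_
    rw [sum_const, nsmul_eq_mul]
  rw [abs_div, Nat.abs_cast]
  rcases Nat.eq_zero_or_pos O.card with h0 | h0
  · rw [h0]
    simpa using he
  · have h2 : (0 : ℝ) < O.card := by exact_mod_cast h0
    rw [div_le_iff₀ h2]
    linarith

private theorem zs_num1 (hΔ : 100 ≤ Δ) (i : ℕ) :
    (Δ : ℝ) ^ (13 / 25 : ℝ) / 6 * BB Δ i = Δ * BB Δ (i + 1) / 6 := by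
  have h0 : (0 : ℝ) < Δ := by
    have : 0 < Δ := by omega
    exact_mod_cast this
  unfold BB
  have h1 : (Δ : ℝ) ^ (13 / 25 : ℝ) * (Δ : ℝ) ^ (-(12 / 25 : ℝ) * ((i : ℝ) + 1)) =
      Δ * (Δ : ℝ) ^ (-(12 / 25 : ℝ) * (((i + 1 : ℕ) : ℝ) + 1)) := by
    rw [← Real.rpow_add h0]
    conv_rhs => rw [← Real.rpow_one_add' h0.le (by
      push_cast
      have : (0 : ℝ) ≤ i := Nat.cast_nonneg i
      intro hh
      have h2 : (1 : ℝ) + -(12 / 25) * ((i : ℝ) + 1 + 1) = 0 := hh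
      have h3 : (25 : ℝ) = 12 * ((i : ℝ) + 2) := by linarith
      have h4 : (25 : ℕ) = 12 * (i + 2) := by exact_mod_cast h3
      omega)]
    congr 1
    push_cast
    ring
  calc (Δ : ℝ) ^ (13 / 25 : ℝ) / 6 * (Δ : ℝ) ^ (-(12 / 25 : ℝ) * ((i : ℝ) + 1))
      = ((Δ : ℝ) ^ (13 / 25 : ℝ) * (Δ : ℝ) ^ (-(12 / 25 : ℝ) * ((i : ℝ) + 1))) / 6 := by ring
    _ = _ := by rw [h1]

private theorem zs_num2 (hΔ : 100 ≤ Δ) (i : ℕ) :
    2 * Real.exp (-(((Δ : ℝ) ^ (13 / 25 : ℝ) / 6 * BB Δ i) ^ 2 / (8 * Δ * BB Δ i ^ 2))) =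
      EE Δ := by
  have h0 : (0 : ℝ) < Δ := by
    have : 0 < Δ := by omega
    exact_mod_cast this
  have hB : (0 : ℝ) < BB Δ i := by
    unfold BB
    exact Real.rpow_pos_of_pos h0 _
  unfold EE
  have h1 : ((Δ : ℝ) ^ (13 / 25 : ℝ)) ^ 2 = Δ * (Δ : ℝ) ^ (1 / 25 : ℝ) := by
    rw [← Real.rpow_natCast, ← Real.rpow_mul h0.le]
    conv_rhs => rw [← Real.rpow_one_add' h0.le (by norm_num)]
    norm_num
  have h2 : ((Δ : ℝ) ^ (13 / 25 : ℝ) / 6 * BB Δ i) ^ 2 / (8 * Δ * BB Δ i ^ 2) =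
      (Δ : ℝ) ^ (1 / 25 : ℝ) / 288 := by
    have h3 : ((Δ : ℝ) ^ (13 / 25 : ℝ) / 6 * BB Δ i) ^ 2 =
        ((Δ : ℝ) ^ (13 / 25 : ℝ)) ^ 2 * BB Δ i ^ 2 / 36 := by ring
    rw [h3, h1]
    field_simp
    norm_num
  rw [h2]

theorem zs_ex (ht : TL G 33) (i : ℕ) (hi : i + 2 ≤ 33) (e : ℝ) (he : 0 ≤ e)
    (h : ∀ v w, G.Adj v w → ∀ ω0 : V → Bool, |ex (fun ω => Zf G Δ (ov {v} ω0 ω) i v w)| ≤ e)
    {v w : V} (hvw : G.Adj v w) (ω0 : V → Bool) :
    |ex (fun ω => Zf G Δ (ov {v} ω0 ω) (i + 1) v w)| ≤ e := by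
  rw [cond_ex (fun _ => insert v (univ.filter (fun x => G.Adj v x))) (fun _ _ _ => rfl)]
  refine (ex_abs _).trans ?_
  have key : ∀ ω1 : V → Bool,
      |ex (fun ω => Zf G Δ (ov {v} ω0 (ov (insert v (univ.filter (fun x => G.Adj v x))) ω1 ω))
        (i + 1) v w)| ≤ e := by
    intro ω1
    have h1 : (fun ω => Zf G Δ (ov {v} ω0 (ov (insert v (univ.filter (fun x => G.Adj v x))) ω1 ω))
        (i + 1) v w) = fun ω => ((ow G (ov {v} ω0 ω1) v w).card : ℝ)⁻¹ *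
          (∑ u ∈ ow G (ov {v} ω0 ω1) v w, Zf G Δ (ov {u} (ov {v} ω0 ω1) ω) i u v) := by
      funext ω
      rw [zs_step G Δ ht i hi v w ω0 ω1 ω, div_eq_inv_mul]
    rw [h1, ex_smul, ex_sum, ← div_eq_inv_mul]
    refine zs_avg _ _ e he ?_
    intro u hu
    exact h u v (zs_adj G hu).symm _
  refine (ex_mono key).trans ?_
  exact (ex_const e).le

theorem zs_pr (hΔ : 100 ≤ Δ) (hG : Reg G Δ) (ht : TL G 33) (i : ℕ) (hi : i + 2 ≤ 33) (e p : ℝ)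
    (he : 0 ≤ e) (hp : 0 ≤ p)
    (h : ∀ v w, G.Adj v w → ∀ ω0 : V → Bool, |ex (fun ω => Zf G Δ (ov {v} ω0 ω) i v w)| ≤ e)
    (h' : ∀ v w, G.Adj v w → ∀ ω0 : V → Bool,
      pr (fun ω => BB Δ i < |Zf G Δ (ov {v} ω0 ω) i v w|) ≤ p)
    (hnum : 3 * ((Δ : ℝ) / 2 * p) + e ≤ BB Δ (i + 1) / 2)
    {v w : V} (hvw : G.Adj v w) (ω0 : V → Bool) :
    pr (fun ω => BB Δ (i + 1) < |Zf G Δ (ov {v} ω0 ω) (i + 1) v w|) ≤
      EE Δ + (EE Δ + Δ * p) := by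
  have hΔ0 : (0 : ℝ) < Δ := by
    have : 0 < Δ := by omega
    exact_mod_cast this
  have hB : ∀ j, (0 : ℝ) < BB Δ j := by
    intro j
    unfold BB
    exact Real.rpow_pos_of_pos hΔ0 _
  have hA := zo_big G Δ hΔ hG hvw ω0
  have hBB : pr (fun ω => (Δ : ℝ) / 3 ≤ ((ow G (ov {v} ω0 ω) v w).card : ℝ) ∧
      BB Δ (i + 1) < |Zf G Δ (ov {v} ω0 ω) (i + 1) v w|) ≤ EE Δ + Δ * p := by
    refine cond_pr' (insert v (univ.filter (fun x => G.Adj v x))) _ _ ?_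
    intro ω1
    obtain ⟨O, hO⟩ : ∃ O, O = ow G (ov {v} ω0 ω1) v w := ⟨_, rfl⟩
    have hadj : ∀ u ∈ O, G.Adj v u := by
      intro u hu
      rw [hO] at hu
      exact zs_adj G hu
    have how : ∀ ω : V → Bool,
        ow G (ov {v} ω0 (ov (insert v (univ.filter (fun x => G.Adj v x))) ω1 ω)) v w = O := by
      intro ω
      rw [zs_ov v _ (mem_insert_self _ _), zs_ow, hO]
    by_cases hlow : (Δ : ℝ) / 3 ≤ (O.card : ℝ)
    · have hOc : O.card ≤ Δ := by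
        rw [← hG v]
        apply card_le_card
        intro u hu
        exact mem_filter.2 ⟨mem_univ _, hadj u hu⟩
      have hh := hoefT O (fun u ω => Zf G Δ (ov {u} (ov {v} ω0 ω1) ω) i u v)
        (fun u => cone G v u (i + 2))
        (fun u hu => zs_loc1 G Δ i (hadj u hu) _)
        (fun u _ u' _ hne => cone_dis ht hi hne) Δ (by omega) hOc
        (BB Δ i) ((Δ : ℝ) / 2) p (hB i).le (by positivity)
        (fun u _ ω => zf_abs G Δ (by omega) _ i u v) hp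
        (fun u hu => h' u v (hadj u hu).symm _)
        ((Δ : ℝ) ^ (13 / 25 : ℝ) / 6 * BB Δ i)
        (mul_pos (div_pos (Real.rpow_pos_of_pos hΔ0 _) (by norm_num)) (hB i))
      rw [zs_num2 Δ hΔ i] at hh
      refine le_trans (pr_mono ?_) hh
      rintro ω ⟨-, hω⟩
      rw [zs_step G Δ ht i hi v w ω0 ω1 ω, ← hO, abs_div, Nat.abs_cast] at hω
      have hOpos : (0 : ℝ) < (O.card : ℝ) := by linarith [div_pos hΔ0 (by norm_num : (0 : ℝ) < 3)]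
      rw [lt_div_iff₀ hOpos] at hω
      have hex : |∑ u ∈ O, ex (fun ω => Zf G Δ (ov {u} (ov {v} ω0 ω1) ω) i u v)| ≤ O.card * e := by
        refine (abs_sum_le_sum_abs _ _).trans ?_
        refine (sum_le_sum (fun u hu => h u v (hadj u hu).symm _)).trans ?_
        rw [sum_const, nsmul_eq_mul]
      rw [zs_num1 Δ hΔ i]
      have htri : |∑ u ∈ O, Zf G Δ (ov {u} (ov {v} ω0 ω1) ω) i u v| ≤
          |∑ u ∈ O, Zf G Δ (ov {u} (ov {v} ω0 ω1) ω) i u v -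
            ∑ u ∈ O, ex (fun ω => Zf G Δ (ov {u} (ov {v} ω0 ω1) ω) i u v)| +
          |∑ u ∈ O, ex (fun ω => Zf G Δ (ov {u} (ov {v} ω0 ω1) ω) i u v)| := by
        have := abs_add_le (∑ u ∈ O, Zf G Δ (ov {u} (ov {v} ω0 ω1) ω) i u v -
            ∑ u ∈ O, ex (fun ω => Zf G Δ (ov {u} (ov {v} ω0 ω1) ω) i u v))
          (∑ u ∈ O, ex (fun ω => Zf G Δ (ov {u} (ov {v} ω0 ω1) ω) i u v))
        rwa [sub_add_cancel] at this
      show Δ * BB Δ (i + 1) / 6 + Δ * (Δ / 2 * p) <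
        |∑ u ∈ O, Zf G Δ (ov {u} (ov {v} ω0 ω1) ω) i u v -
            ∑ u ∈ O, ex (fun ω => Zf G Δ (ov {u} (ov {v} ω0 ω1) ω) i u v)|
      have hpos : 0 ≤ BB Δ (i + 1) - e := by
        have h1 : 0 ≤ 3 * ((Δ : ℝ) / 2 * p) := by positivity
        have h2 := hB (i + 1)
        linarith
      have h3 : (Δ : ℝ) / 3 * (BB Δ (i + 1) - e) ≤ O.card * (BB Δ (i + 1) - e) :=
        mul_le_mul_of_nonneg_right hlow hpos
      have h4 : (Δ : ℝ) / 3 * (BB Δ (i + 1) / 2 + 3 * ((Δ : ℝ) / 2 * p)) ≤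
          (Δ : ℝ) / 3 * (BB Δ (i + 1) - e) :=
        mul_le_mul_of_nonneg_left (by linarith) (by positivity)
      have h5 : (Δ : ℝ) / 3 * (BB Δ (i + 1) / 2 + 3 * ((Δ : ℝ) / 2 * p)) =
          Δ * BB Δ (i + 1) / 6 + Δ * (Δ / 2 * p) := by ring
      linarith
    · have h1 : pr (fun ω => (Δ : ℝ) / 3 ≤ ((ow G (ov {v} ω0
          (ov (insert v (univ.filter (fun x => G.Adj v x))) ω1 ω)) v w).card : ℝ) ∧
          BB Δ (i + 1) < |Zf G Δ (ov {v} ω0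
          (ov (insert v (univ.filter (fun x => G.Adj v x))) ω1 ω)) (i + 1) v w|) ≤
          pr (fun _ : V → Bool => False) := by
        apply pr_mono
        rintro ω ⟨h1, -⟩
        rw [how ω] at h1
        exact hlow h1
      have h2 : pr (fun _ : V → Bool => False) = 0 := by simp [pr]
      have h3 : 0 ≤ EE Δ := by
        unfold EE
        positivity
      have h4 : 0 ≤ (Δ : ℝ) * p := by positivity
      linarith
  have hor := pr_or (fun ω : V → Bool => ((ow G (ov {v} ω0 ω) v w).card : ℝ) < (Δ : ℝ) / 3)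
    (fun ω => (Δ : ℝ) / 3 ≤ ((ow G (ov {v} ω0 ω) v w).card : ℝ) ∧
      BB Δ (i + 1) < |Zf G Δ (ov {v} ω0 ω) (i + 1) v w|)
  have hincl : pr (fun ω => BB Δ (i + 1) < |Zf G Δ (ov {v} ω0 ω) (i + 1) v w|) ≤
      pr (fun ω => ((ow G (ov {v} ω0 ω) v w).card : ℝ) < (Δ : ℝ) / 3 ∨
        ((Δ : ℝ) / 3 ≤ ((ow G (ov {v} ω0 ω) v w).card : ℝ) ∧
      BB Δ (i + 1) < |Zf G Δ (ov {v} ω0 ω) (i + 1) v w|)) := by
    apply pr_mono
    intro ω hω
    rcases lt_or_ge ((ow G (ov {v} ω0 ω) v w).card : ℝ) ((Δ : ℝ) / 3) with h1 | h1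
    · exact Or.inl h1
    · exact Or.inr ⟨h1, hω⟩
  linarith

end Pool.Agent.H64.GI
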