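import Mathlib
import Pool.Agent.H64.GI.Aid
import Pool.Agent.H64.GI.Azs
import Pool.Agent.H64.GI.Anu
import Pool.Agent.H64.GI.Alv

/-!
GASg: the sides and the weights (`IsSg`). Use the STATEMENTS of `Aid`, `Alc`, `Azo`, `Azs`, `Anu`, `Alv`.

`sg_all`: induction on `i` with `e = (1/2)^Δ`, `p_i = (Δ + 3)^i EE Δ`: `zo_ex`, `zo_pr` for `i = 0`; `zs_ex`, `zs_pr` with the
first condition of `an_all`: `EE + (EE + Δ p_i) ≤ (Δ + 3) p_i = p_(i+1)`, since `EE ≤ p_i`.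
`sg_main`: `lll_v` with `κ = Bool`, `r = 32` and the events `E v := ∃ w, G.Adj v w ∧ (#(ow v w) < Δ / 3 ∨ ∃ i < 32, BB Δ i < |Zf i v w|)`;
`pr (E v) ≤ Δ (EE + 32 p_31)` (`pr_ex`, `pr_or`, `cond_pr'` with the set `{v}`, `sg_all`, `zo_big`; `p_i ≤ p_31`).
`Loc`: `zf_loc` (`G.Adj w v`; `cone G w v (i + 2) ⊆ cone G w v 33 ⊆ bl G v 32` by `cone_mono`, `cone_bl1`), and `ow G ω v w` depends on
`v` and its neighbours.
With the resulting `side := ω`: `x v w := if G.Adj v w ∧ ω v ≠ ω w then Xf G Δ ω 31 v w else 0`,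
`T v := - sg (ω v) * ∑_{w ∈ op v} Zf 31 w v`. `sy`: `xf_sym`; `sm`: `|Xf| ≤ 2 * 32 * BB Δ 0`; `dg`: `#op ≥ #ow` (for `Δ ≥ 1` every
vertex has a neighbour `w`); `su`: `xf_sum`; `ti`: `#op ≤ Δ` terms, each at most `BB Δ 31` (`G.Adj w v` for `w ∈ op v`).
-/

set_option autoImplicit false

namespace Pool.Agent.H64.GI

open Finset Classical
open Pool.Agent.H65.GI

private theorem Asg_EE (Δ : ℕ) : 0 ≤ EE Δ := by
  unfold EE
  positivity

private theorem Asg_pow (Δ i : ℕ) : EE Δ ≤ ((Δ : ℝ) + 3) ^ i * EE Δ := by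
  have h1 : (1 : ℝ) ≤ ((Δ : ℝ) + 3) ^ i :=
    one_le_pow₀ (by have : (0 : ℝ) ≤ Δ := Nat.cast_nonneg _; linarith)
  exact le_mul_of_one_le_left (Asg_EE Δ) h1

theorem sg_all {V : Type} [Fintype V] (G : SimpleGraph V) (Δ : ℕ) (hΔ : 100 ≤ Δ) (hG : Reg G Δ)
    (ht : TL G 33)
    (hn : ∀ i ≤ 30, 3 * ((Δ : ℝ) / 2 * (((Δ : ℝ) + 3) ^ i * EE Δ)) + (1 / 2) ^ Δ ≤
      BB Δ (i + 1) / 2) (i : ℕ) (hi : i ≤ 31) {v w : V} (hvw : G.Adj v w) (ω0 : V → Bool) :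
    |ex (fun ω => Zf G Δ (ov {v} ω0 ω) i v w)| ≤ (1 / 2) ^ Δ ∧
    pr (fun ω => BB Δ i < |Zf G Δ (ov {v} ω0 ω) i v w|) ≤ ((Δ : ℝ) + 3) ^ i * EE Δ := by
  induction i generalizing v w ω0 with
  | zero =>
    refine ⟨zo_ex G Δ (by omega) hG hvw ω0, ?_⟩
    rw [pow_zero, one_mul]
    exact zo_pr G Δ hΔ hG hvw ω0
  | succ i ih =>
    have h1 : ∀ v w, G.Adj v w → ∀ ω0 : V → Bool,
        |ex (fun ω => Zf G Δ (ov {v} ω0 ω) i v w)| ≤ (1 / 2) ^ Δ :=
      fun v w h ω0 => (ih (by omega) h ω0).1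
    have h2 : ∀ v w, G.Adj v w → ∀ ω0 : V → Bool,
        pr (fun ω => BB Δ i < |Zf G Δ (ov {v} ω0 ω) i v w|) ≤ ((Δ : ℝ) + 3) ^ i * EE Δ :=
      fun v w h ω0 => (ih (by omega) h ω0).2
    have he : (0 : ℝ) ≤ (1 / 2) ^ Δ := by positivity
    have hE := Asg_EE Δ
    have hp : 0 ≤ ((Δ : ℝ) + 3) ^ i * EE Δ := hE.trans (Asg_pow Δ i)
    refine ⟨zs_ex G Δ ht i (by omega) _ he h1 hvw ω0, ?_⟩
    refine (zs_pr G Δ hΔ hG ht i (by omega) _ _ he hp h1 h2 (hn i (by omega)) hvw ω0).trans ?_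
    have h3 := Asg_pow Δ i
    have h4 : ((Δ : ℝ) + 3) ^ (i + 1) * EE Δ =
        (Δ : ℝ) * (((Δ : ℝ) + 3) ^ i * EE Δ) + 3 * (((Δ : ℝ) + 3) ^ i * EE Δ) := by
      rw [pow_succ]; ring
    rw [h4]
    linarith

private theorem Asg_loc {V : Type} [Fintype V] (G : SimpleGraph V) (Δ : ℕ) (v : V)
    (ω ω' : V → Bool) (h : ∀ x ∈ bl G v 32, ω x = ω' x) (w : V) (hw : G.Adj v w) :
    ow G ω v w = ow G ω' v w ∧ ∀ i < 32, Zf G Δ ω i v w = Zf G Δ ω' i v w := by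
  constructor
  · have hv := h v (bl_self G v 32)
    unfold ow
    apply Finset.filter_congr
    intro u _
    constructor
    · rintro ⟨h1, h2, h3⟩
      have hu := h u (bl_mono G v (by omega) (bl_adj G (bl_self G v 0) h1))
      exact ⟨h1, h2, by rw [← hu, ← hv]; exact h3⟩
    · rintro ⟨h1, h2, h3⟩
      have hu := h u (bl_mono G v (by omega) (bl_adj G (bl_self G v 0) h1))
      exact ⟨h1, h2, by rw [hu, hv]; exact h3⟩
  · intro i hi
    apply zf_loc G Δ i hw.symm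
    intro x hx
    apply h
    have h1 : x ∈ cone G w v (32 + 1) := cone_mono (by omega) hx
    exact cone_bl1 h1

private def Asg_E {V : Type} [Fintype V] (G : SimpleGraph V) (Δ : ℕ) (v : V)
    (ω : V → Bool) : Prop :=
  ∃ w ∈ univ.filter (fun w => G.Adj v w), (((ow G ω v w).card : ℝ) < (Δ : ℝ) / 3 ∨
    ∃ i ∈ range 32, BB Δ i < |Zf G Δ ω i v w|)

private theorem Asg_Eloc {V : Type} [Fintype V] (G : SimpleGraph V) (Δ : ℕ) (v : V) :
    Loc (Asg_E G Δ v) (bl G v 32) := by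
  intro ω ω' h
  unfold Asg_E
  apply propext
  apply exists_congr
  intro w
  apply and_congr_right
  intro hw
  have hw' : G.Adj v w := (mem_filter.1 hw).2
  obtain ⟨h1, h2⟩ := Asg_loc G Δ v ω ω' h w hw'
  rw [h1]
  apply or_congr Iff.rfl
  apply exists_congr
  intro i
  apply and_congr_right
  intro hi
  rw [h2 i (mem_range.1 hi)]

private theorem Asg_pr {V : Type} [Fintype V] (G : SimpleGraph V) (Δ : ℕ) (hΔ : 100 ≤ Δ)
    (hG : Reg G Δ) (ht : TL G 33)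
    (hn : ∀ i ≤ 30, 3 * ((Δ : ℝ) / 2 * (((Δ : ℝ) + 3) ^ i * EE Δ)) + (1 / 2) ^ Δ ≤
      BB Δ (i + 1) / 2) (v : V) :
    pr (Asg_E G Δ v) ≤ (Δ : ℝ) * (EE Δ + 32 * (((Δ : ℝ) + 3) ^ 31 * EE Δ)) := by
  have hE := Asg_EE Δ
  have h1 := pr_ex (univ.filter (fun w => G.Adj v w))
    (fun w (ω : V → Bool) => (((ow G ω v w).card : ℝ) < (Δ : ℝ) / 3 ∨
      ∃ i ∈ range 32, BB Δ i < |Zf G Δ ω i v w|))
    (EE Δ + 32 * (((Δ : ℝ) + 3) ^ 31 * EE Δ)) ?_
  · rw [hG v] at h1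
    exact h1
  · intro w hw
    have hw' : G.Adj v w := (mem_filter.1 hw).2
    refine (pr_or (fun ω : V → Bool => ((ow G ω v w).card : ℝ) < (Δ : ℝ) / 3)
      (fun ω : V → Bool => ∃ i ∈ range 32, BB Δ i < |Zf G Δ ω i v w|)).trans ?_
    apply add_le_add
    · apply cond_pr' {v}
      intro ω0
      exact zo_big G Δ hΔ hG hw' ω0
    · have h2 := pr_ex (range 32) (fun i (ω : V → Bool) => BB Δ i < |Zf G Δ ω i v w|)
        (((Δ : ℝ) + 3) ^ 31 * EE Δ) ?_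
      · rw [card_range] at h2
        exact_mod_cast h2
      · intro i hi
        apply cond_pr' {v}
        intro ω0
        refine (sg_all G Δ hΔ hG ht hn i (by have := mem_range.1 hi; omega) hw' ω0).2.trans ?_
        apply mul_le_mul_of_nonneg_right _ hE
        apply pow_le_pow_right₀ _ (by have := mem_range.1 hi; omega)
        have : (0 : ℝ) ≤ Δ := Nat.cast_nonneg _
        linarith

private theorem Asg_sg (b : Bool) : |sg b| = 1 := by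
  unfold sg
  split_ifs <;> norm_num

theorem sg_main : ∃ Δ0 : ℕ, ∀ Δ, Δ0 ≤ Δ → ∀ (V : Type) [Fintype V] (G : SimpleGraph V), Reg G Δ →
    TL G 33 → ∃ (side : V → Bool) (x : V → V → ℝ) (T : V → ℝ), IsSg G Δ side x T := by
  obtain ⟨Δ0, h0⟩ := an_all
  refine ⟨Δ0, fun Δ hΔ0 V _ G hG ht => ?_⟩
  obtain ⟨hΔ, hn, h4, hb0, hbi, h14⟩ := h0 Δ hΔ0
  have hE := Asg_EE Δ
  have hE31 : 0 ≤ ((Δ : ℝ) + 3) ^ 31 * EE Δ := hE.trans (Asg_pow Δ 31)
  have hDc : (100 : ℝ) ≤ Δ := by exact_mod_cast hΔ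
  obtain ⟨ω, hω⟩ := lll_v (κ := Bool) G Δ hG 32 (Asg_E G Δ) (Asg_Eloc G Δ)
    ((Δ : ℝ) * (EE Δ + 32 * (((Δ : ℝ) + 3) ^ 31 * EE Δ)))
    (mul_nonneg (by linarith) (by linarith)) (Asg_pr G Δ hΔ hG ht hn) h4
  have hbig : ∀ v w, G.Adj v w → (Δ : ℝ) / 3 ≤ (ow G ω v w).card := by
    intro v w hvw
    by_contra h
    exact hω v ⟨w, mem_filter.2 ⟨mem_univ _, hvw⟩, Or.inl (not_le.1 h)⟩
  have hsm : ∀ v w, G.Adj v w → ∀ i < 32, |Zf G Δ ω i v w| ≤ BB Δ i := by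
    intro v w hvw i hi
    by_contra h
    exact hω v ⟨w, mem_filter.2 ⟨mem_univ _, hvw⟩, Or.inr ⟨i, mem_range.2 hi, not_le.1 h⟩⟩
  have hop : ∀ v, (Δ : ℝ) / 3 ≤ (op G ω v).card := by
    intro v
    have h1 : 0 < (univ.filter (fun u => G.Adj v u)).card := by rw [hG v]; omega
    obtain ⟨w, hw⟩ := card_pos.1 h1
    have hvw : G.Adj v w := (mem_filter.1 hw).2
    refine (hbig v w hvw).trans ?_
    have h2 : ow G ω v w ⊆ op G ω v := by
      intro u hu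
      obtain ⟨_, h3, _, h5⟩ := mem_filter.1 hu
      exact mem_filter.2 ⟨mem_univ _, h3, h5⟩
    exact_mod_cast card_le_card h2
  refine ⟨ω, fun v w => if G.Adj v w ∧ ω v ≠ ω w then Xf G Δ ω 31 v w else 0,
    fun v => -sg (ω v) * ∑ w ∈ op G ω v, Zf G Δ ω 31 w v, ?_⟩
  constructor
  · intro v w
    by_cases h : G.Adj v w ∧ ω v ≠ ω w
    · have h' : G.Adj w v ∧ ω w ≠ ω v := ⟨h.1.symm, h.2.symm⟩
      rw [if_pos h, if_pos h']
      exact xf_sym G Δ ω 31 v w h'.2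
    · have h' : ¬ (G.Adj w v ∧ ω w ≠ ω v) := fun h2 => h ⟨h2.1.symm, h2.2.symm⟩
      rw [if_neg h, if_neg h']
  · intro v w
    by_cases h : G.Adj v w ∧ ω v ≠ ω w
    · rw [if_pos h]
      unfold Xf
      rw [abs_mul, Asg_sg, one_mul]
      refine (Finset.abs_sum_le_sum_abs _ _).trans ?_
      have h1 : ∀ i ∈ range (31 + 1), |Zf G Δ ω i v w - Zf G Δ ω i w v| ≤ 2 * BB Δ 0 := by
        intro i hi
        have hi' : i < 32 := mem_range.1 hi
        have h2 := hsm v w h.1 i hi'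
        have h3 := hsm w v h.1.symm i hi'
        have h5 := hbi i (by omega)
        have h6 := abs_sub (Zf G Δ ω i v w) (Zf G Δ ω i w v)
        linarith
      refine (Finset.sum_le_sum h1).trans ?_
      rw [Finset.sum_const, card_range, nsmul_eq_mul]
      norm_num
      linarith
    · rw [if_neg h, abs_zero]
      norm_num
  · exact hop
  · intro v
    have h1 : ∀ w ∈ op G ω v, (1 + (if G.Adj v w ∧ ω v ≠ ω w then Xf G Δ ω 31 v w else 0)) =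
        1 + Xf G Δ ω 31 v w := by
      intro w hw
      obtain ⟨_, h2, h3⟩ := mem_filter.1 hw
      rw [if_pos ⟨h2, h3.symm⟩]
    rw [Finset.sum_congr rfl h1, xf_sum G Δ ω 31 v ?_]
    · ring
    · have h2 := hop v
      have h3 : (2 : ℝ) ≤ (op G ω v).card := by linarith
      exact_mod_cast h3
  · intro v
    have h1 : |-sg (ω v) * ∑ w ∈ op G ω v, Zf G Δ ω 31 w v| ≤ (Δ : ℝ) * BB Δ 31 := by
      rw [abs_mul, abs_neg, Asg_sg, one_mul]
      refine (Finset.abs_sum_le_sum_abs _ _).trans ?_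
      have h2 : ∀ w ∈ op G ω v, |Zf G Δ ω 31 w v| ≤ BB Δ 31 := by
        intro w hw
        obtain ⟨_, h3, _⟩ := mem_filter.1 hw
        exact hsm w v h3.symm 31 (by norm_num)
      refine (Finset.sum_le_sum h2).trans ?_
      rw [Finset.sum_const, nsmul_eq_mul]
      have hB : 0 ≤ BB Δ 31 := by unfold BB; positivity
      apply mul_le_mul_of_nonneg_right _ hB
      have h5 : (op G ω v).card ≤ Δ := by
        rw [← hG v]
        apply card_le_card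
        intro u hu
        obtain ⟨_, h6, _⟩ := mem_filter.1 hu
        exact mem_filter.2 ⟨mem_univ _, h6⟩
      exact_mod_cast h5
    exact (mul_le_mul_of_nonneg_left h1 (by positivity)).trans h14

end Pool.Agent.H64.GI
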