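import Mathlib
import Pool.Agent.H64.GI.Asg
import Pool.Agent.H64.GI.Add
import Pool.Agent.H64.GI.Art
import Pool.Agent.H64.GI.Ard
import Pool.Agent.H64.GI.Akg

/-!
GAFn: block A, the target `Top.Base`.

Plan of block A. Random sides; `Zf`, `Xf` (`Adf`) give weights `1 + x v w` on the edges across, with sums `Δ / 2 + T v`,
`|T v| ≤ Δ^(-14) / 1000` (`sg_main`). `dd_main`: the sparse set `D`, with alternating walks of length exactly `13` and `14` from
every vertex. With `s = Δ / (8 w)`, `r = Δ / 8`, `q = s w + r ≤ Δ / 4`, `c = 2 q / Δ`: `y0 v w = c (1 + x v w)`, sums `q + c T v`; `routing` moves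
the residuals to `D`; `rounding`; `koenig`; the `q = s w + r` matchings are named `(Fin s × Fin w) ⊕ Fin r`.

Numbers: `q ≤ Δ / 4`, `q ≥ Δ / 8 - 1 ≥ Δ / 10`; `c ∈ [1/5, 1/2]`; `y0 ∈ [3/20, 5/8]`; `δ = c T`: `(Δ + 1)^14 |δ| ≤ 2 Δ^14 |T| / 2 ≤ 1/1000 = η`
(last part of `nv_all`); `14 η ≤ 1/50`; outside of the edges across put `y := 0`.
-/

set_option autoImplicit false

namespace Pool.Agent.H64.GI

open Finset Classical
open Pool.Agent.H65.GI

/-- the deterministic part -/
theorem fn_det {V : Type} [Fintype V] (G : SimpleGraph V) (Δ : ℕ) (hG : Reg G Δ) (s w r K : ℕ)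
    (hΔ : 100 ≤ Δ) (hs : s * w ≤ Δ / 8) (hr : r = Δ / 8)
    (hn : ((Δ : ℝ) + 1) ^ 14 ≤ 2 * (Δ : ℝ) ^ 14)
    (side : V → Bool) (x : V → V → ℝ) (T : V → ℝ) (hS : IsSg G Δ side x T)
    (D : Finset V) (hD : IsDd G K side D) :
    ∃ (N : Fin s × Fin w → V → V) (R : Fin r → V → V), IsBase G s w r K side D N R := by
  obtain ⟨q, hq⟩ : ∃ q : ℕ, q = s * w + r := ⟨_, rfl⟩
  have hq1 : q ≤ Δ / 4 := by omega
  have hq2 : Δ ≤ 10 * q := by omega
  have hΔr : (100 : ℝ) ≤ Δ := by exact_mod_cast hΔ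
  have hΔ0 : (0 : ℝ) < Δ := by linarith
  have hq1' : 4 * (q : ℝ) ≤ Δ := by
    have h1 : 4 * q ≤ Δ := by omega
    exact_mod_cast h1
  have hq2' : (Δ : ℝ) ≤ 10 * q := by exact_mod_cast hq2
  obtain ⟨c, hc⟩ : ∃ c : ℝ, c = 2 * q / Δ := ⟨_, rfl⟩
  have hc1 : 1 / 5 ≤ c := by
    rw [hc, le_div_iff₀ hΔ0]
    linarith
  have hc2 : c ≤ 1 / 2 := by
    rw [hc, div_le_iff₀ hΔ0]
    linarith
  have hc0 : 0 < c := by linarith
  obtain ⟨y, y1, y2, y3, y4⟩ := routing G Δ hG side K D hD (fun v w => c * (1 + x v w))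
    (fun v w => by
      show c * (1 + x v w) = c * (1 + x w v)
      rw [hS.sy v w]) (q : ℝ) (fun v => c * T v)
    (fun v => by
      show ∑ w ∈ op G side v, c * (1 + x v w) = q + c * T v
      rw [← Finset.mul_sum, hS.su v, mul_add]
      congr 1
      rw [hc]
      field_simp) (1 / 1000)
    (fun v => by
      show ((Δ : ℝ) + 1) ^ 14 * |c * T v| ≤ 1 / 1000
      have h1 := hS.ti v
      rw [abs_mul, abs_of_pos hc0]
      have h2 : 0 ≤ |T v| := abs_nonneg _
      calc ((Δ : ℝ) + 1) ^ 14 * (c * |T v|) ≤ 2 * (Δ : ℝ) ^ 14 * (1 / 2 * |T v|) := by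
            refine mul_le_mul hn (mul_le_mul_of_nonneg_right hc2 h2) (by positivity)
              (by positivity)
        _ = (Δ : ℝ) ^ 14 * |T v| := by ring
        _ ≤ 1 / 1000 := h1)
  have hy : ∀ v w, 0 ≤ y v w ∧ y v w ≤ 1 := by
    intro v w
    have h1 := y2 v w
    have h2 := hS.sm v w
    have h1' : |y v w - c * (1 + x v w)| ≤ 14 * (1 / 1000) := h1
    obtain ⟨a1, a2⟩ := abs_le.1 h1'
    obtain ⟨b1, b2⟩ := abs_le.1 h2
    constructor <;> nlinarith
  obtain ⟨z, hz⟩ : ∃ z : V → V → ℝ, z = fun v w => if (Hg G side).Adj v w then y v w else 0 :=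
    ⟨_, rfl⟩
  have hsum : ∀ v, ∑ w, z v w = ∑ w ∈ op G side v, y v w := by
    intro v
    rw [hz]
    unfold op
    rw [Finset.sum_filter]
    refine Finset.sum_congr rfl fun w _ => ?_
    have h1 : (Hg G side).Adj v w ↔ (G.Adj v w ∧ side w ≠ side v) :=
      ⟨fun h => ⟨h.1, fun e => h.2 e.symm⟩, fun h => ⟨h.1, fun e => h.2 e.symm⟩⟩
    by_cases h2 : (Hg G side).Adj v w
    · rw [if_pos (h1.1 h2)]
      simp only [if_pos h2]
    · rw [if_neg (fun h => h2 (h1.2 h))]
      simp only [if_neg h2]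
  have hb : ∀ u v, (Hg G side).Adj u v → side u ≠ side v := fun u v h => h.2
  obtain ⟨F, f1, f2, f3⟩ := rounding (Hg G side) side hb q D z
    (fun v w => by
      rw [hz]
      simp only
      by_cases h : (Hg G side).Adj v w
      · rw [if_pos h, if_pos h.symm, y1 v w]
      · rw [if_neg h, if_neg (fun h' => h h'.symm)])
    (fun v w => by
      rw [hz]
      simp only
      by_cases h : (Hg G side).Adj v w
      · rw [if_pos h]
        exact (hy v w).1
      · rw [if_neg h])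
    (fun v w => by
      rw [hz]
      simp only
      by_cases h : (Hg G side).Adj v w
      · rw [if_pos h]
        exact (hy v w).2
      · rw [if_neg h]
        exact zero_le_one)
    (fun v w h => by
      rw [hz]
      simp only
      rw [if_neg h])
    (fun v hv => by
      rw [hsum v]
      exact y3 v hv)
    (fun v hv => by
      rw [hsum v]
      obtain ⟨h1, h2⟩ := y4 v hv
      constructor <;> linarith)
  have hdeg : ∀ v, (univ.filter (fun w => F.Adj v w)).card ≤ q := by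
    intro v
    by_cases hv : v ∈ D
    · exact (f3 v hv).2
    · exact (f2 v hv).le
  obtain ⟨M, m1, m2, m3, m4⟩ := koenig F side (fun u v h => hb u v (f1 u v h)) q hdeg
  obtain ⟨e⟩ : Nonempty ((Fin s × Fin w) ⊕ Fin r ≃ Fin q) := by
    rw [hq]
    exact ⟨(Equiv.sumCongr finProdFinEquiv (Equiv.refl _)).trans finSumFinEquiv⟩
  have hfix : ∀ v, (univ.filter (fun a : Fin s × Fin w => M (e (Sum.inl a)) v = v)).card +
      (univ.filter (fun ρ : Fin r => M (e (Sum.inr ρ)) v = v)).card ≤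
      (univ.filter (fun j => M j v = v)).card := by
    intro v
    have hi1 : Function.Injective (fun a : Fin s × Fin w => e (Sum.inl a)) :=
      e.injective.comp Sum.inl_injective
    have hi2 : Function.Injective (fun ρ : Fin r => e (Sum.inr ρ)) :=
      e.injective.comp Sum.inr_injective
    rw [← Finset.card_image_of_injective _ hi1, ← Finset.card_image_of_injective _ hi2,
      ← Finset.card_union_of_disjoint]
    · refine Finset.card_le_card ?_
      intro j hj
      rcases mem_union.1 hj with h | h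
      · obtain ⟨a, ha, rfl⟩ := mem_image.1 h
        exact mem_filter.2 ⟨mem_univ _, (mem_filter.1 ha).2⟩
      · obtain ⟨a, ha, rfl⟩ := mem_image.1 h
        exact mem_filter.2 ⟨mem_univ _, (mem_filter.1 ha).2⟩
    · rw [Finset.disjoint_left]
      intro j h1 h2
      obtain ⟨a, -, rfl⟩ := mem_image.1 h1
      obtain ⟨b, -, hb'⟩ := mem_image.1 h2
      have h3 := e.injective hb'
      exact Sum.inr_ne_inl h3
  have hGa : ∀ j v, M j v ≠ v → G.Adj v (M j v) := fun j v h => (f1 _ _ (m2 j v h)).1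
  have hGs : ∀ j v, M j v ≠ v → side (M j v) ≠ side v :=
    fun j v h h' => (f1 _ _ (m2 j v h)).2 h'.symm
  refine ⟨fun a v => M (e (Sum.inl a)) v, fun ρ v => M (e (Sum.inr ρ)) v, ?_⟩
  refine ⟨fun a v => m1 _ v, fun ρ v => m1 _ v, fun a v h => hGa _ v h, fun ρ v h => hGa _ v h,
    fun a v h => hGs _ v h, fun ρ v h => hGs _ v h, ?_, ?_, ?_, ?_, ?_, hD.sep, hD.few⟩
  · intro a b v hab h
    exact m3 _ _ v (fun h' => hab (Sum.inl_injective (e.injective h'))) h
  · intro a b v hab h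
    exact m3 _ _ v (fun h' => hab (Sum.inr_injective (e.injective h'))) h
  · intro a ρ v h
    exact m3 _ _ v (fun h' => Sum.inl_ne_inr (e.injective h')) h
  · intro v hv
    have h1 := m4 v
    have h2 := f2 v hv
    have h3 : (univ.filter (fun j => M j v = v)).card = 0 := by omega
    have h4 : ∀ j, M j v ≠ v := by
      intro j hj
      have h5 := Finset.card_eq_zero.1 h3
      have h6 : j ∈ univ.filter (fun j => M j v = v) := mem_filter.2 ⟨mem_univ _, hj⟩
      rw [h5] at h6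
      exact absurd h6 (Finset.notMem_empty _)
    exact ⟨fun a => h4 _, fun ρ => h4 _⟩
  · intro v
    have h1 := m4 v
    have h2 := hfix v
    by_cases hv : v ∈ D
    · have h3 := (f3 v hv).1
      omega
    · have h3 := f2 v hv
      omega

theorem base_main : Top.Base := by
  obtain ⟨a, ha⟩ := sg_main
  obtain ⟨b, hb⟩ := dd_main
  obtain ⟨c, hc⟩ := nv_all
  intro w hw
  refine ⟨40, max a (max b c), fun Δ hΔ V _ G hG ht => ?_⟩
  have h1 : a ≤ Δ := le_trans (le_max_left _ _) hΔ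
  have h2 : b ≤ Δ := le_trans (le_trans (le_max_left _ _) (le_max_right _ _)) hΔ
  have h3 : c ≤ Δ := le_trans (le_trans (le_max_right _ _) (le_max_right _ _)) hΔ
  obtain ⟨side, x, T, hS⟩ := ha Δ h1 V G hG ht
  obtain ⟨D, hD⟩ := hb Δ h2 V G hG ht side hS.dg
  obtain ⟨n1, -, -, -, n5⟩ := hc Δ h3
  have h4 : Δ / (8 * w) * w ≤ Δ / 8 := by
    rw [← Nat.div_div_eq_div_mul]
    exact Nat.div_mul_le_self _ _
  obtain ⟨N, R, hB⟩ := fn_det G Δ hG (Δ / (8 * w)) w (Δ / 8) 40 n1 h4 rfl n5 side x T hS D hD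
  exact ⟨side, D, N, R, hB⟩

end Pool.Agent.H64.GI
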