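import Mathlib
import Pool.Agent.H64.GI.Rtl
import Pool.Agent.H64.GI.Rgi

/-!
Block R, the target `Top.Regul`: a graph of maximum degree at most `Δ` embeds into a `Δ`-regular graph of the same girth: copies
of the graph, indexed by a finite set with involutions `s (v, k)`, and edges `(v, x), (v, s (v, k) x)` for the missing degrees.
-/

set_option autoImplicit false

namespace Pool.Agent.H64.GI

open Finset Classical
open Pool.Agent.H65.GI

theorem regul_main : Top.Regul := by
  intro V _ G Δ g hΔ hg
  obtain ⟨Γ, i1, ⟨x0⟩, s, hs1, hs2⟩ := words (V × Fin Δ) (g + 2)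
  obtain ⟨G', hG', hR⟩ := gr_ex G Δ hΔ s hs1 (g + 2) (by omega) hs2
  refine ⟨V × Γ, inferInstance, G', fun v => (v, x0), ?_, ?_, hR,
    gi_main G Δ g hg s hs1 (g + 2) (by omega) hs2 G' hG'⟩
  · intro u v h
    exact (Prod.mk.inj h).1
  · intro u v h
    exact (hG' _ _).2 (Or.inl ⟨h, rfl⟩)

end Pool.Agent.H64.GI
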